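import Pool.Agent.Zk36.NV.Fun

/-!
A horizontal line on top of the half-infinite strip: the functional the last odd face is isolated
at the parameters `X, 1, …, 1, q² X, 1, 0` counts the odd faces related to the last one.
-/

set_option autoImplicit false

namespace Pool.Agent.Zk36.NV

open Pool.Agent.H988R2.Perc Finset

/-- the coefficients of the line -/
noncomputable def ca (X : ℂ) : ℂ := q - q * X
noncomputable def cb (X : ℂ) : ℂ := 1 - q^2 * X
noncomputable def cc (X : ℂ) : ℂ := X - q^2

theorem cab (X : ℂ) : ca X + cb X = cc X := by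
  unfold ca cb cc
  linear_combination (1 - X) * q_spec

theorem cab_mul (X : ℂ) : ca X * cb X = (X - 1) * (X - q) := by
  unfold ca cb
  linear_combination (X^2 - X) * q_cube

open Classical in
/-- the weight of a state after `j` pairs -/
noncomputable def WW (X : ℂ) (m j : ℕ) (R : St) : ℂ :=
  (if ∀ g < 2*j+2, ¬ R.rel (2*m+3) g then 1 else 0) *
    ∏ i ∈ Finset.Ico (j+1) (m+1), (if R.rel (2*m+3) (2*i+1) then ca X * cb X else cc X ^ 2)

theorem rel_act_even {K j : ℕ} (hK : K % 2 = 1) (hj : 2*j+1 < K) (R : St) (g : ℕ) (hg : g < K) :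
    (St.act (2*j) R).rel K g ↔ (R.rel K g ∧ g ≠ 2*j+1) := by
  rw [St.act_rel]
  have ho := R.odd
  constructor
  · rintro (h | ⟨_, _, h3, h4, h5 | ⟨h6, h7⟩ | ⟨h6, h7⟩⟩)
    · omega
    · exact ⟨h5, h4⟩
    · rcases ho _ _ h6 with h | h <;> omega
    · rcases ho _ _ h6 with h | h <;> omega
  · rintro ⟨h1, h2⟩
    refine Or.inr ⟨hK, ?_, by omega, h2, Or.inl h1⟩
    rcases ho _ _ h1 with h | h
    · omega
    · exact h.2

theorem rel_act_odd {K j : ℕ} (hK : K % 2 = 1) (R : St) (g : ℕ) (hg : g < K) :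
    (St.act (2*j+1) R).rel K g ↔ (R.rel K g ∨ (g % 2 = 1 ∧ ((R.rel K (2*j+1) ∧ R.rel (2*j+3) g) ∨
      (R.rel K (2*j+3) ∧ R.rel (2*j+1) g)))) := by
  rw [St.act_rel]
  have ho := R.odd
  constructor
  · rintro (h | ⟨_, h2, h3, h4, h5 | ⟨h6, h7⟩ | ⟨h6, h7⟩⟩)
    · omega
    · exact Or.inl h5
    · exact Or.inr ⟨h2, Or.inl ⟨h6, h7⟩⟩
    · exact Or.inr ⟨h2, Or.inr ⟨h6, h7⟩⟩
  · rintro (h1 | ⟨h0, h1 | h1⟩)
    · have h2 : g % 2 = 1 := by
        rcases ho _ _ h1 with h | h
        · omega
        · exact h.2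
      exact Or.inr ⟨hK, h2, by omega, by omega, Or.inl h1⟩
    · exact Or.inr ⟨hK, h0, by omega, by omega, Or.inr (Or.inl h1)⟩
    · exact Or.inr ⟨hK, h0, by omega, by omega, Or.inr (Or.inr h1)⟩

open Classical in
theorem WW_even (X : ℂ) {m j : ℕ} (hj : j + 1 ≤ m) (R : St) :
    WW X m (j+1) (St.act (2*(j+1)) R) =
      (if ∀ g < 2*j+2, ¬ R.rel (2*m+3) g then 1 else 0) *
        ∏ i ∈ Finset.Ico (j+2) (m+1), (if R.rel (2*m+3) (2*i+1) then ca X * cb X else cc X ^ 2) := by
  unfold WW
  congr 1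
  · congr 1
    apply propext
    constructor
    · intro h g hg hR
      exact h g (by omega) ((rel_act_even (by omega) (by omega) R g (by omega)).2 ⟨hR, by omega⟩)
    · intro h g hg hR
      rw [rel_act_even (by omega) (by omega) R g (by omega)] at hR
      have h2 : g % 2 = 1 := by
        rcases R.odd _ _ hR.1 with h | h
        · omega
        · exact h.2
      exact h g (by omega) hR.1
  · refine Finset.prod_congr rfl fun i hi => ?_
    rw [Finset.mem_Ico] at hi
    have : (St.act (2*(j+1)) R).rel (2*m+3) (2*i+1) ↔ R.rel (2*m+3) (2*i+1) := by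
      rw [rel_act_even (by omega) (by omega) R _ (by omega)]
      constructor
      · exact fun h => h.1
      · exact fun h => ⟨h, by omega⟩
    simp only [this]

open Classical in
/-- weight in the middle of a pair -/
noncomputable def UU (X : ℂ) (m j : ℕ) (R : St) : ℂ :=
  (if ∀ g < 2*j+2, ¬ R.rel (2*m+3) g then 1 else 0) *
    (if R.rel (2*m+3) (2*j+3) then cb X else cc X) *
    ∏ i ∈ Finset.Ico (j+2) (m+1), (if R.rel (2*m+3) (2*i+1) then ca X * cb X else cc X ^ 2)

theorem UU_eq (X : ℂ) {m j : ℕ} (hj : j + 1 ≤ m) (R : St) :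
    ca X * WW X m (j+1) R + cb X * WW X m (j+1) (St.act (2*(j+1)) R) = UU X m j R := by
  classical
  rw [WW_even X hj R]
  unfold WW UU
  have hc := cab X
  have e : (∀ g < 2*(j+1)+2, ¬ R.rel (2*m+3) g) ↔
      ((∀ g < 2*j+2, ¬ R.rel (2*m+3) g) ∧ ¬ R.rel (2*m+3) (2*j+3)) := by
    constructor
    · intro h
      exact ⟨fun g hg => h g (by omega), h _ (by omega)⟩
    · rintro ⟨h1, h2⟩ g hg hR
      by_cases h3 : g = 2*j+3
      · subst h3; exact h2 hR
      · have h2 : g % 2 = 1 := by
          rcases R.odd _ _ hR with h | h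
          · omega
          · exact h.2
        exact h1 g (by omega) hR
  simp only [e]
  have e2 : j + 1 + 1 = j + 2 := rfl
  rw [e2]
  by_cases h1 : (∀ g < 2*j+2, ¬ R.rel (2*m+3) g) <;> by_cases h2 : R.rel (2*m+3) (2*j+3)
  · simp only [h2, not_true_eq_false, and_false, if_false, if_true, zero_mul, mul_zero,
      zero_add]
    ring
  · simp only [h2, not_false_eq_true, and_true, if_false]
    rw [← hc]; ring
  · rw [if_neg (fun h => h1 h.1), if_neg h1]; ring
  · rw [if_neg (fun h => h1 h.1), if_neg h1]; ring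

theorem UU_odd (X : ℂ) {m j : ℕ} (hj : j + 1 ≤ m) (R : St) :
    ca X * UU X m j R + cb X * UU X m j (St.act (2*j+1) R) = WW X m j R := by
  classical
  obtain ⟨hr, hs, ht⟩ := R.eqv
  have hc := cab X
  have hprod : ∀ i, (∀ g < 2*j+2, ¬ R.rel (2*m+3) g) → ¬ R.rel (2*m+3) (2*j+3) → i < 2*m+3 →
      ((St.act (2*j+1) R).rel (2*m+3) i ↔ R.rel (2*m+3) i) := by
    intro i h1 h2 hi
    rw [rel_act_odd (by omega) R i hi]
    constructor
    · rintro (h | ⟨_, ⟨h, _⟩ | ⟨h, _⟩⟩)
      · exact h
      · exact absurd h (h1 _ (by omega))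
      · exact absurd h h2
    · exact fun h => Or.inl h
  have hsplit : ∏ i ∈ Finset.Ico (j+1) (m+1),
      (if R.rel (2*m+3) (2*i+1) then ca X * cb X else cc X ^ 2) =
      (if R.rel (2*m+3) (2*j+3) then ca X * cb X else cc X ^ 2) *
      ∏ i ∈ Finset.Ico (j+2) (m+1),
        (if R.rel (2*m+3) (2*i+1) then ca X * cb X else cc X ^ 2) := by
    rw [Finset.prod_eq_prod_Ico_succ_bot (by omega)]
    have e3 : 2*(j+1)+1 = 2*j+3 := by ring
    rw [e3]
  unfold WW UU
  rw [hsplit]
  by_cases h1 : (∀ g < 2*j+2, ¬ R.rel (2*m+3) g)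
  · by_cases h2 : R.rel (2*m+3) (2*j+3)
    · have h3 : ¬ (∀ g < 2*j+2, ¬ (St.act (2*j+1) R).rel (2*m+3) g) := by
        intro h
        refine h (2*j+1) (by omega) ?_
        rw [rel_act_odd (by omega) R _ (by omega)]
        exact Or.inr ⟨by omega, Or.inr ⟨h2, hr _⟩⟩
      rw [if_neg h3, if_pos h1, if_pos h2, if_pos h2]
      ring
    · have h3 : (∀ g < 2*j+2, ¬ (St.act (2*j+1) R).rel (2*m+3) g) := by
        intro g hg hR
        rw [hprod g h1 h2 (by omega)] at hR
        exact h1 g hg hR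
      have h4 : ¬ (St.act (2*j+1) R).rel (2*m+3) (2*j+3) := by
        rw [hprod _ h1 h2 (by omega)]
        exact h2
      have h5 : ∏ i ∈ Finset.Ico (j+2) (m+1),
          (if (St.act (2*j+1) R).rel (2*m+3) (2*i+1) then ca X * cb X else cc X ^ 2) =
          ∏ i ∈ Finset.Ico (j+2) (m+1),
          (if R.rel (2*m+3) (2*i+1) then ca X * cb X else cc X ^ 2) := by
        refine Finset.prod_congr rfl fun i hi => ?_
        rw [Finset.mem_Ico] at hi
        simp only [hprod (2*i+1) h1 h2 (by omega)]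
      rw [h5, if_pos h3, if_pos h1, if_neg h2, if_neg h2, if_neg h4, ← hc]
      ring
  · have h3 : ¬ (∀ g < 2*j+2, ¬ (St.act (2*j+1) R).rel (2*m+3) g) := by
      intro h
      apply h1
      intro g hg hR
      refine h g hg ?_
      rw [rel_act_odd (by omega) R _ (by omega)]
      exact Or.inl hR
    rw [if_neg h3, if_neg h1]
    ring

/-- the list after the moving parameter has passed `i` ones -/
noncomputable def lst (X : ℂ) (n i : ℕ) : List ℂ :=
  X :: (List.replicate i 1 ++ (q^2 * X) :: (List.replicate (n - i) 1 ++ [1, 0]))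

theorem PP_step (φ : St → ℂ) (X : ℂ) {m i : ℕ} (hi : i < 2*m) :
    cc X * PP φ (lst X (2*m) (i+1)) = ca X * PP φ (lst X (2*m) i) +
      cb X * PP (fun R => φ (R.act (i+1))) (lst X (2*m) i) := by
  have h := PP_exch φ (X :: List.replicate i 1) (List.replicate (2*m-i-1) 1 ++ [1, 0])
    (q^2 * X) 1 (by
      simp only [List.length_cons, List.length_replicate, List.length_append, List.length_nil]
      exact ⟨m + 1, by omega⟩)
  have e1 : (X :: List.replicate i (1:ℂ)) ++ 1 :: (q^2 * X) :: (List.replicate (2*m-i-1) 1 ++ [1, 0])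
      = lst X (2*m) (i+1) := by
    unfold lst
    rw [List.replicate_succ', List.cons_append, List.append_assoc]
    have : 2*m - (i+1) = 2*m - i - 1 := by omega
    rw [this]
    rfl
  have e2 : (X :: List.replicate i (1:ℂ)) ++ (q^2 * X) :: 1 :: (List.replicate (2*m-i-1) 1 ++ [1, 0])
      = lst X (2*m) i := by
    unfold lst
    rw [List.cons_append]
    have : List.replicate (2*m-i) (1:ℂ) = 1 :: List.replicate (2*m-i-1) 1 := by
      rw [← List.replicate_succ]; congr 1; omega
    rw [this]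
    rfl
  rw [e1, e2] at h
  have e3 : (X :: List.replicate i (1:ℂ)).length = i + 1 := by simp
  rw [e3] at h
  have e4 : q * (q^2 * X) - q^2 * 1 = cc X := by
    unfold cc
    linear_combination X * q_cube
  have e5 : q * 1 - q^2 * (q^2 * X) = ca X := by
    unfold ca
    linear_combination (-q * X) * q_cube
  rw [e4, e5] at h
  exact h

theorem PP_pair (X : ℂ) {m j : ℕ} (hj : j + 1 ≤ m) :
    cc X ^ 2 * PP (WW X m (j+1)) (lst X (2*m) (2*(j+1))) = PP (WW X m j) (lst X (2*m) (2*j)) := by
  have h1 := PP_step (WW X m (j+1)) X (m := m) (i := 2*j+1) (by omega)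
  have h2 := PP_step (UU X m j) X (m := m) (i := 2*j) (by omega)
  have lin : ∀ (φ ψ : St → ℂ) (a b : ℂ) (l : List ℂ),
      a * PP φ l + b * PP ψ l = PP (fun R => a * φ R + b * ψ R) l := by
    intro φ ψ a b l
    unfold PP Lin
    rw [Finsupp.mul_sum, Finsupp.mul_sum, ← Finsupp.sum_add]
    refine Finsupp.sum_congr fun R _ => ?_
    ring
  rw [lin] at h1 h2
  have e1 : (fun R => ca X * WW X m (j+1) R + cb X * WW X m (j+1) (St.act (2*j+1+1) R)) =
      UU X m j := funext fun R => UU_eq X hj R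
  have e2 : (fun R => ca X * UU X m j R + cb X * UU X m j (St.act (2*j+1) R)) = WW X m j :=
    funext fun R => UU_odd X hj R
  rw [e1] at h1
  rw [e2] at h2
  have e3 : 2*(j+1) = 2*j+1+1 := by ring
  rw [e3, ← h2, ← h1]
  ring

theorem PP_line (X : ℂ) (m : ℕ) : ∀ j ≤ m,
    (cc X ^ 2) ^ j * PP (WW X m j) (lst X (2*m) (2*j)) = PP (WW X m 0) (lst X (2*m) 0) := by
  intro j
  induction j with
  | zero => intro _; simp
  | succ j ih =>
    intro hj
    rw [pow_succ, mul_assoc, PP_pair X hj]
    exact ih (by omega)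

open Classical in
/-- the number of odd faces below `2m+1` related to `2m+1` -/
noncomputable def kr (m : ℕ) (R : St) : ℕ :=
  ((Finset.range m).filter (fun i => R.rel (2*m+1) (2*i+1))).card

/-- total weight of the states with `kr = s` -/
noncomputable def TT (m s : ℕ) : ℂ :=
  PP (fun R => if kr m R = s then 1 else 0) (List.replicate (2*m+1) 1 ++ [0])

theorem WW_top (X : ℂ) (m : ℕ) (R : St) : WW X m m R = iso (2*m+3) R := by
  classical
  unfold WW iso Iso
  rw [Finset.Ico_self, Finset.prod_empty, mul_one]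
  congr 1
  apply propext
  constructor
  · intro h g hg hR
    by_cases h1 : g < 2*m+2
    · exact h g h1 hR
    · rcases R.odd _ _ hR with h | h <;> omega
  · intro h g hg hR
    exact h g (by omega) hR

open Classical in
theorem WW_bot (X : ℂ) (m : ℕ) (R : St) : WW X m 0 (R.ins 0) =
    ∏ i ∈ Finset.range m, (if R.rel (2*m+1) (2*i+1) then ca X * cb X else cc X ^ 2) := by
  unfold WW
  have h0 : ∀ g < 2*0+2, ¬ (R.ins 0).rel (2*m+3) g := by
    intro g hg
    rw [St.ins_rel]
    rintro (h | ⟨_, h2, _, h4, _⟩)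
    · omega
    · omega
  rw [if_pos h0, one_mul]
  rw [Finset.prod_Ico_eq_prod_range]
  simp only [Nat.zero_add, Nat.add_sub_cancel]
  refine Finset.prod_congr rfl fun i hi => ?_
  have : (R.ins 0).rel (2*m+3) (2*(1+i)+1) ↔ R.rel (2*m+1) (2*i+1) := by
    rw [St.ins_rel]
    have e1 : St.low 0 (2*m+3) = 2*m+1 := by unfold St.low; rw [if_neg (by omega)]; omega
    have e2 : St.low 0 (2*(1+i)+1) = 2*i+1 := by unfold St.low; rw [if_neg (by omega)]; omega
    rw [e1, e2]
    constructor
    · rintro (h | ⟨_, _, _, _, h⟩)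
      · have : i = m := by omega
        subst this
        exact R.eqv.1 _
      · exact h
    · intro h
      exact Or.inr ⟨by omega, by omega, by omega, by omega, h⟩
  simp only [this]

open Classical in
theorem prod_kr (a b : ℂ) (m : ℕ) (R : St) :
    ∏ i ∈ Finset.range m, (if R.rel (2*m+1) (2*i+1) then a else b) =
      a ^ kr m R * b ^ (m - kr m R) := by
  rw [Finset.prod_ite, Finset.prod_const, Finset.prod_const]
  unfold kr
  congr 2
  have := Finset.card_filter_add_card_filter_not (s := Finset.range m)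
    (fun i => R.rel (2*m+1) (2*i+1))
  rw [Finset.card_range] at this
  omega

theorem kr_le (m : ℕ) (R : St) : kr m R ≤ m := by
  classical
  unfold kr
  exact (Finset.card_filter_le _ _).trans (by simp)

theorem PP_sum_kr (m : ℕ) (f : ℕ → ℂ) :
    PP (fun R => f (kr m R)) (List.replicate (2*m+1) 1 ++ [0]) =
      ∑ s ∈ Finset.range (m+1), TT m s * f s := by
  unfold TT PP Lin
  simp only [Finsupp.sum]
  rw [Finset.sum_congr rfl (fun s _ => Finset.sum_mul _ _ (f s)), Finset.sum_comm]
  refine Finset.sum_congr rfl fun R _ => ?_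
  rw [Finset.sum_eq_single (kr m R)]
  · simp
  · intro s _ hs
    rw [if_neg (fun h => hs h.symm)]; ring
  · intro h
    exact absurd (Finset.mem_range.2 (Nat.lt_succ_of_le (kr_le m R))) h

/-- **The horizontal line.** -/
theorem line (X : ℂ) (m : ℕ) :
    (X - q^2) ^ (2*m) * PP (iso (2*m+3)) (X :: (List.replicate (2*m) 1 ++ [q^2 * X, 1, 0])) =
      (-q^2 * X) * (X - q^2) ^ (4*m+2) * ∑ s ∈ Finset.range (m+1),
        TT m s * (((X - 1) * (X - q)) ^ s * (X - q^2) ^ (2*(m - s))) := by
  classical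
  have h1 := PP_line X m m le_rfl
  have e0 : lst X (2*m) (2*m) = X :: (List.replicate (2*m) 1 ++ [q^2 * X, 1, 0]) := by
    unfold lst
    simp
  have e1 : lst X (2*m) 0 = [] ++ X :: (q^2 * X) :: (List.replicate (2*m+1) 1 ++ [0]) := by
    unfold lst
    simp only [List.replicate_zero, List.nil_append, Nat.sub_zero]
    rw [List.replicate_succ', List.append_assoc]
    rfl
  have e2 : PP (WW X m m) (lst X (2*m) (2*m)) = PP (iso (2*m+3)) (lst X (2*m) (2*m)) := by
    have : WW X m m = iso (2*m+3) := funext fun R => WW_top X m R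
    rw [this]
  rw [e2, e0, e1, PP_rec _ _ _ _ (by simp only [List.length_nil, List.length_append,
    List.length_replicate, List.length_cons]; exact ⟨m+1, by omega⟩)] at h1
  have e3 : (fun R => WW X m 0 (R.ins ([] : List ℂ).length)) =
      fun R => (fun s : ℕ => ((X - 1) * (X - q)) ^ s * (X - q^2) ^ (2*(m - s))) (kr m R) := by
    funext R
    have := WW_bot X m R
    rw [List.length_nil, this, prod_kr, cab_mul]
    unfold cc
    rw [← pow_mul]
  rw [e3, List.nil_append, PP_sum_kr m (fun s => ((X - 1) * (X - q)) ^ s * (X - q^2) ^ (2*(m - s)))] at h1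
  have e4 : fac X (List.replicate (2*m+1) 1 ++ [0]) = (-q^2 * X) * (X - q^2) ^ (4*m+2) := by
    unfold fac
    rw [List.map_append, List.prod_append, List.map_replicate, List.prod_replicate]
    simp only [List.map_cons, List.map_nil, List.prod_cons, List.prod_nil]
    have : (4*m+2) = 2 * (2*m+1) := by ring
    rw [this, pow_mul]
    ring
  rw [e4] at h1
  unfold cc at h1
  rw [← pow_mul] at h1
  exact h1

end Pool.Agent.Zk36.NV
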