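import Pool.Agent.Zk36.NV.Conf
import Pool.Agent.Zk36.NV.Line

/-! The divisibility for the generating polynomial. -/

set_option autoImplicit false

namespace Pool.Agent.Zk36.NV

open Pool.Agent.H988R2.Perc hiding X
open Finset Polynomial

noncomputable def RR (m : ℕ) (T : ℕ → ℂ) : ℂ[X] :=
  ∑ s ∈ range (m+1), C (T s) * (((X - 1) * (X - C q))^s * (X - C (q^2))^(2*(m-s)))

noncomputable def RT (m : ℕ) (T : ℕ → ℂ) : ℂ[X] :=
  ∑ s ∈ range (m+1), C (T s) * (((X - C (q^2)) * (X - 1))^s * (X - C q)^(2*(m-s)))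

noncomputable def GG (m : ℕ) (T : ℕ → ℂ) : ℂ[X] :=
  (X - C q)^(2*m+2) * RR m T - C (q^2) * ((X - C (q^2))^(2*m+2) * RT m T)

theorem RR_eval (m : ℕ) (T : ℕ → ℂ) (x : ℂ) : (RR m T).eval x =
    ∑ s ∈ range (m+1), T s * (((x - 1) * (x - q))^s * (x - q^2)^(2*(m-s))) := by
  unfold RR
  rw [eval_finsetSum]
  simp

theorem RT_eval (m : ℕ) (T : ℕ → ℂ) (x : ℂ) : (RT m T).eval x =
    ∑ s ∈ range (m+1), T s * (((x - q^2) * (x - 1))^s * (x - q)^(2*(m-s))) := by
  unfold RT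
  rw [eval_finsetSum]
  simp

theorem RR_q (m : ℕ) (T : ℕ → ℂ) (x : ℂ) : (RR m T).eval (q * x) = q^(2*m) * (RT m T).eval x := by
  rw [RR_eval, RT_eval, Finset.mul_sum]
  refine Finset.sum_congr rfl fun s hs => ?_
  rw [Finset.mem_range] at hs
  have e1 : (q * x - 1) * (q * x - q) = q^2 * ((x - q^2) * (x - 1)) := by
    linear_combination (q*(x-1)) * q_cube
  have e2 : q * x - q^2 = q * (x - q) := by ring
  rw [e1, e2, mul_pow (q^2), mul_pow q (x - q), ← pow_mul]
  have e3 : q^(2*m) = q^(2*s) * q^(2*(m-s)) := by rw [← pow_add]; congr 1; omega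
  rw [e3]; ring

theorem pl_ones (m : ℕ) : pl (List.replicate m 1) = List.replicate (2*m) 1 := by
  induction m with
  | zero => rfl
  | succ m ih =>
    rw [List.replicate_succ, pl_cons, ih, inv_one]
    rfl

theorem BB_ones (m : ℕ) (x : ℂ) : (x - q^2)^(2*m) * BB (List.replicate m 1) x =
    (-q^2 * x) * (x - q^2)^(4*m+2) * (RR m (TT m)).eval x := by
  unfold BB
  rw [pl_ones, List.length_replicate, RR_eval]
  exact line x m

theorem AA_ones (m : ℕ) (x : ℂ) : (x - q)^(2*m) * AA (List.replicate m 1) x =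
    (- x) * q^(4*m+2) * (x - q)^(4*m+2) * (RT m (TT m)).eval x := by
  have h := BB_ones m (q * x)
  have e1 : BB (List.replicate m 1) (q * x) = AA (List.replicate m 1) x := by
    unfold AA BB
    have : q^2 * (q * x) = x := by linear_combination x * q_cube
    rw [this]
  rw [e1, RR_q] at h
  have e2 : q * x - q^2 = q * (x - q) := by ring
  rw [e2, mul_pow, mul_pow] at h
  have hq : q^(2*m) ≠ 0 := pow_ne_zero _ q_ne_zero
  apply mul_left_cancel₀ hq
  have e3 : -q^2 * (q * x) = -x := by linear_combination (-x) * q_cube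
  rw [e3] at h
  rw [← mul_assoc, h]; ring

theorem q4 : q^4 = q := by
  have : q^4 = q^3 * q := by ring
  rw [this, q_cube, one_mul]

theorem q3k (k : ℕ) : q^(3*k) = 1 := by rw [pow_mul, q_cube, one_pow]

theorem GG_dvd (m : ℕ) : (X - 1)^(2*m) ∣ GG m (TT m) := by
  obtain ⟨A, B, hA, hB, hd⟩ := conf m
  set F := A * (fP 1)^(2*(m+1)) - B * (gP 1)^(2*(m+1)) with hF
  have key : (X - C (q^2))^(2*m) * (X - C q)^(2*m) * F * C (q^2) =
      C (q^(4*m+2)) * (X * ((X - C (q^2))^(4*m+2) * (X - C q)^(4*m+2) * GG m (TT m))) := by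
    apply Polynomial.funext
    intro x
    simp only [hF, GG, eval_mul, eval_sub, eval_pow, eval_X, eval_C, fP_eval, gP_eval]
    rw [hA, hB]
    have h1 := AA_ones m x
    have h2 := BB_ones m x
    set a := x - q^2 with ha
    set b := x - q with hb
    set RA := (RT m (TT m)).eval x
    set RB := (RR m (TT m)).eval x
    have f1 : f0 1 x = a^2 := by unfold f0; rw [ha]; ring
    have g1 : g0 1 x = q^2 * b^2 := by unfold g0; rw [hb]; ring
    rw [f1, g1]
    have e1 : (a^2)^(2*(m+1)) = a^(4*m+4) := by rw [← pow_mul]; congr 1; ring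
    have e2 : (q^2 * b^2)^(2*(m+1)) = q^(4*m+2) * q^2 * b^(4*m+4) := by
      rw [mul_pow, ← pow_mul, ← pow_mul, ← pow_add]; congr 2 <;> ring
    rw [e1, e2]
    set QQ := q^(4*m+2)
    set A' := AA (List.replicate m 1) x
    set B' := BB (List.replicate m 1) x
    have e3 : a^(4*m+4) = a^(4*m+2) * a^2 := by rw [← pow_add]
    have e4 : b^(4*m+4) = b^(4*m+2) * b^2 := by rw [← pow_add]
    have e5 : a^(4*m+2) = a^(2*m) * a^(2*m+2) := by rw [← pow_add]; congr 1; ring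
    have e6 : b^(4*m+2) = b^(2*m) * b^(2*m+2) := by rw [← pow_add]; congr 1; ring
    have e7 : a^(2*m+2) = a^(2*m) * a^2 := by rw [← pow_add]
    have e8 : b^(2*m+2) = b^(2*m) * b^2 := by rw [← pow_add]
    have key2 : (a^(2*m) * b^(2*m) * (A' * a^(4*m+4) - B' * (QQ * q^2 * b^(4*m+4)))) * q^2 =
        q^2 * (a^(2*m) * a^(4*m+4)) * (b^(2*m) * A') -
          q^4 * QQ * (b^(2*m) * b^(4*m+4)) * (a^(2*m) * B') := by ring
    rw [key2, h1, h2, e3, e4, e7, e8]
    linear_combination (- (q^2 * x) * QQ * q * a^(2*m) * a^(4*m+2) * a^2 * b^(4*m+2) * RA * 0 +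
      QQ * (b^(2*m) * (b^(4*m+2) * b^2)) * x * a^(4*m+2) * RB * (q^3 + 1)) * q_cube
  have h3 : (X - 1)^(2*m) ∣
      C (q^(4*m+2)) * (X * ((X - C (q^2))^(4*m+2) * (X - C q)^(4*m+2) * GG m (TT m))) := by
    rw [← key]
    exact (hd.mul_left _).mul_right _
  have cop : ∀ c : ℂ, c ≠ 1 → ∀ n : ℕ, IsCoprime ((X - 1 : ℂ[X])^(2*m)) ((X - C c)^n) := by
    intro c hc n
    apply IsCoprime.pow
    have := Polynomial.isCoprime_X_sub_C_of_isUnit_sub (R := ℂ) (a := 1) (b := c)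
      (isUnit_iff_ne_zero.2 (sub_ne_zero.2 (Ne.symm hc)))
    simpa using this
  have c0 : IsCoprime ((X - 1 : ℂ[X])^(2*m)) X := by
    have := cop 0 (by norm_num) 1
    simpa using this
  have hu : IsUnit (C (q^(4*m+2))) :=
    isUnit_C.2 (isUnit_iff_ne_zero.2 (pow_ne_zero _ q_ne_zero))
  have h4 := hu.dvd_mul_left.1 h3
  have h5 := c0.dvd_of_dvd_mul_left h4
  have h6 := ((cop (q^2) q_sq_ne_one (4*m+2)).mul_right (cop q q_ne_one (4*m+2))).dvd_of_dvd_mul_left h5
  exact h6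

end Pool.Agent.Zk36.NV
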