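import Pool.Agent.Zk36.NV.Exact
import Pool.Agent.H988R2.Perc.T16
import Pool.Agent.H988R2.Perc.T19
import Pool.Agent.H988R2.Perc.T20
import Pool.Agent.H988R2.Perc.T22
import Pool.Agent.H988R2.Perc.T23
import Pool.Agent.H988R2.Perc.T24
import Pool.Agent.H988R2.Perc.T25

/-! The law in a window and its limit. -/

set_option autoImplicit false

namespace Pool.Agent.Zk36.NV

open Pool.Agent.H988R2.Perc Finset MeasureTheory Filter Topology
open Pool.Agent.H988R2.Perc.T23 Pool.Agent.H988R2.Perc.T24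

/-- number of end vertices joined to the wall in the window -/
noncomputable def WM (m M : ℕ) (ω : Conf) : ℕ := kr m (X (2*m+1) (actBit (oPast ω M)) M)

def cellP (L M : ℕ) (t : Finset (ℕ × ℕ)) : Set Conf := {ω | tP L M ω = t}

theorem cellP_eq (L M : ℕ) (t : Finset (ℕ × ℕ)) (h1 : t ⊆ SS L M) :
    cellP L M t = ⋂ j : ↥(SS L M), (fun ω : Conf => ω (eP M j.1)) ⁻¹' {decide (j.1 ∈ t)} := by
  ext ω
  simp only [cellP, Set.mem_ofPred_eq, Set.mem_iInter, Set.mem_preimage, Set.mem_singleton_iff]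
  constructor
  · rintro e1 ⟨j, hj⟩
    rw [← e1]
    simp only [tP, mem_filter, hj, true_and]
    cases ω (eP M j) <;> simp
  · intro h
    ext j
    simp only [tP, mem_filter]
    constructor
    · rintro ⟨hj, ho⟩
      have := h ⟨j, hj⟩
      simp only [ho] at this
      simpa using this.symm
    · intro hj
      refine ⟨h1 hj, ?_⟩
      have := h ⟨j, h1 hj⟩
      simp only [hj, decide_true] at this
      exact this

theorem eP_inj (L M : ℕ) : Function.Injective (fun j : ↥(SS L M) => eP M j.1) := by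
  rintro ⟨⟨k, i⟩, h⟩ ⟨⟨k', i'⟩, h'⟩ hh
  simp only [eP] at hh
  have := edgeOf_inj hh
  simp only [Subtype.mk.injEq, Prod.mk.injEq]
  omega

theorem measurableSet_cellP (L M : ℕ) (t : Finset (ℕ × ℕ)) (h1 : t ⊆ SS L M) :
    MeasurableSet (cellP L M t) := by
  rw [cellP_eq L M t h1]
  exact MeasurableSet.iInter (fun j => (measurable_pi_apply (eP M j.1)) (measurableSet_singleton _))

theorem perc_cellP (L M : ℕ) (t : Finset (ℕ × ℕ)) (h1 : t ⊆ SS L M) :
    perc (cellP L M t) = (1/2) ^ (2*M*L) := by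
  rw [cellP_eq L M t h1]
  have hind : ProbabilityTheory.iIndepFun (fun (e : Edge) (ω : Conf) => ω e) perc := by
    unfold perc
    exact ProbabilityTheory.iIndepFun_infinitePi (X := fun _ b => b) (fun _ => measurable_id)
  have hind2 := hind.precomp (eP_inj L M)
  have h3 := hind2.measure_inter_preimage_eq_mul (Finset.univ : Finset ↥(SS L M))
    (sets := fun j => {decide (j.1 ∈ t)}) (fun j _ => measurableSet_singleton _)
  simp only [Finset.mem_univ, Set.iInter_true] at h3
  have h4 : ∀ j : ↥(SS L M), perc ((fun ω : Conf => ω (eP M j.1)) ⁻¹' {decide (j.1 ∈ t)}) = 1/2 := by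
    intro j
    have := (measurePreserving_eval_infinitePi (fun _ : Edge => coin) (eP M j.1)).measure_preimage
      (measurableSet_singleton (decide (j.1 ∈ t))).nullMeasurableSet
    unfold perc
    rw [← coin_singleton (decide (j.1 ∈ t)), ← this]
  rw [h3]
  simp only [h4]
  rw [Finset.prod_const, Finset.card_univ]
  congr 1
  rw [Fintype.card_coe]
  unfold SS
  rw [card_product, card_range, Nat.card_Icc]
  simp

/-- the cells where the window count is `s` -/
noncomputable def gs (m M s : ℕ) : Finset (Finset (ℕ × ℕ)) := by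
  classical
  exact ((SS (2*m+1) M).powerset).filter (fun t => kr m (X (2*m+1) (actBit (bits t)) M) = s)

theorem mem_gs {m M s : ℕ} {t : Finset (ℕ × ℕ)} : t ∈ gs m M s ↔
    t ⊆ SS (2*m+1) M ∧ kr m (X (2*m+1) (actBit (bits t)) M) = s := by
  classical
  unfold gs
  rw [Finset.mem_filter, Finset.mem_powerset]

theorem WM_set (m M s : ℕ) : {ω | WM m M ω = s} = ⋃ t ∈ gs m M s, cellP (2*m+1) M t := by
  ext ω
  simp only [Set.mem_ofPred_eq, Set.mem_iUnion, exists_prop, WM]
  rw [X_past]
  constructor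
  · intro h
    exact ⟨tP (2*m+1) M ω, mem_gs.2 ⟨filter_subset _ _, h⟩, rfl⟩
  · rintro ⟨t, ht, h1⟩
    have h2 : tP (2*m+1) M ω = t := h1
    rw [h2]
    exact (mem_gs.1 ht).2

theorem WM_meas (m M s : ℕ) : MeasurableSet {ω | WM m M ω = s} := by
  rw [WM_set]
  exact Finset.measurableSet_biUnion _ fun t ht => measurableSet_cellP _ _ _ (mem_gs.1 ht).1

theorem Lin_law (φ : St → ℂ) (L M : ℕ) : Lin φ (law L M) =
    ((1/2 : ℂ))^(2*M*L) * ∑ t ∈ (SS L M).powerset, φ (X L (actBit (bits t)) M) := by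
  rw [law_eq, Lin_smul]
  congr 1
  have : ∀ (s : Finset (Finset (ℕ × ℕ))), Lin φ (∑ t ∈ s, Finsupp.single (X L (actBit (bits t)) M) 1) =
      ∑ t ∈ s, φ (X L (actBit (bits t)) M) := by
    classical
    intro s
    induction s using Finset.induction_on with
    | empty => simp [Lin]
    | insert a s ha ih =>
      rw [Finset.sum_insert ha, Finset.sum_insert ha, Lin_add, ih]
      congr 1
      unfold Lin
      rw [Finsupp.sum_single_index (by simp)]
      ring
  exact this _

theorem WM_prob (m M s : ℕ) : ((perc.real {ω | WM m M ω = s} : ℝ) : ℂ) =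
    Lin (fun R => if kr m R = s then 1 else 0) (law (2*m+1) M) := by
  classical
  rw [Lin_law, WM_set, measureReal_biUnion_finset]
  · have h1 : ∀ t ∈ gs m M s, perc.real (cellP (2*m+1) M t) = (1/2 : ℝ)^(2*M*(2*m+1)) := by
      intro t ht
      rw [measureReal_def, perc_cellP _ M t (mem_gs.1 ht).1]
      simp
    rw [Finset.sum_congr rfl h1, Finset.sum_const, nsmul_eq_mul, Finset.sum_boole]
    have h2 : gs m M s = ((SS (2*m+1) M).powerset).filter
        (fun t => kr m (X (2*m+1) (actBit (bits t)) M) = s) := by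
      ext t
      rw [mem_gs, Finset.mem_filter, Finset.mem_powerset]
    rw [h2]
    push_cast
    ring
  · intro p _ p' _ hne
    rw [Function.onFun, Set.disjoint_left]
    rintro ω h1 h2
    have e1 : tP (2*m+1) M ω = p := h1
    have e2 : tP (2*m+1) M ω = p' := h2
    exact hne (e1.symm.trans e2)
  · intro t ht
    exact measurableSet_cellP _ _ _ (mem_gs.1 ht).1

theorem Lin_le (φ : St → ℂ) (hφ : ∀ R, ‖φ R‖ ≤ 1) (f : St →₀ ℂ) : ‖Lin φ f‖ ≤ nrm f := by
  unfold Lin nrm Finsupp.sum
  refine (norm_sum_le _ _).trans (Finset.sum_le_sum fun R _ => ?_)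
  rw [norm_mul]
  exact mul_le_of_le_one_right (norm_nonneg _) (hφ R)

theorem Lin_law_tendsto (φ : St → ℂ) (hφ : ∀ R, ‖φ R‖ ≤ 1) (L : ℕ) (hL : Odd L) (v : St →₀ ℂ)
    (hT : Tvec L v = v)
    (hs : ∀ R ∈ v.support, ∀ a b, R.rel a b → a = b ∨ (a < L + 1 ∧ b < L + 1))
    (hm : mass v ≠ 0) :
    Tendsto (fun M => Lin φ (law L M)) atTop (𝓝 (Lin φ v / mass v)) := by
  set w : St →₀ ℂ := (mass v)⁻¹ • v with hw
  have hwT : Tvec L w = w := by rw [hw, (dob_Tvec L).smul, hT]
  have hwm : mass w = 1 := by rw [hw, Pool.Agent.H988R2.Perc.mass_smul, inv_mul_cancel₀ hm]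
  have hwB : BdV (L+1) w := BdV.smul (fun R hR => hs R hR) _
  set u : St →₀ ℂ := Finsupp.single St.bot 1 + (-1 : ℂ) • w with hu
  have huB : BdV (L+1) u := by
    refine BdV.add ?_ (hwB.smul _)
    intro R hR a b h
    have : R = St.bot := by
      have := Finsupp.support_single_subset hR
      simpa using this
    subst this
    exact Or.inl h
  have hum : mass u = 0 := by
    rw [hu, Pool.Agent.H988R2.Perc.mass_add, Pool.Agent.H988R2.Perc.mass_smul,
      Pool.Agent.H988R2.Perc.mass_single, hwm]; ring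
  have hlaw : ∀ M, law L M = (Tvec L)^[M] u + w := by
    intro M
    have e : (Finsupp.single St.bot 1 : St →₀ ℂ) = u + w := by
      rw [hu]; simp
    rw [law, e, iter_add, iter_fix L M w hwT]
  have hw2 : Lin φ w = Lin φ v / mass v := by
    rw [hw, Lin_smul]
    field_simp
  rw [← hw2]
  set ρ : ℝ := 1 - (1/2)^L * (1/2)^L with hρ
  have hρ0 : 0 ≤ ρ := by have := (dob_Tvec L).le; linarith
  have hρ1 : ρ < 1 := by
    have : (0:ℝ) < (1/2)^L * (1/2)^L := by positivity
    linarith
  have hlim : Tendsto (fun M : ℕ => ρ^M * nrm u) atTop (𝓝 0) := by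
    have := (tendsto_pow_atTop_nhds_zero_of_lt_one hρ0 hρ1).mul_const (nrm u)
    simpa using this
  rw [tendsto_iff_norm_sub_tendsto_zero]
  refine squeeze_zero (fun _ => norm_nonneg _) (fun M => ?_) hlim
  obtain ⟨h1, h2, h3⟩ := iter_bound hL huB hum M
  rw [hlaw M, Lin_add, add_sub_cancel_right]
  exact (Lin_le φ hφ _).trans h1

theorem psi_mass (m : ℕ) : mass (Psi (List.replicate (2*m+1) 1 ++ [0])) ≠ 0 := by
  have hmass : mass (Psi (List.replicate (2*m+1) 1 ++ [0])) = q^((m+1)*m) * (chi (2*m+1) : ℂ) :=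
    Z_ones_zero m
  have hchi : (chi (2*m+1) : ℂ) ≠ 0 := by
    exact_mod_cast (chi_pos (2*m+1)).ne'
  rw [hmass]
  exact mul_ne_zero (pow_ne_zero _ q_ne_zero) hchi

theorem sum_TT (m : ℕ) : ∑ s ∈ range (m+1), TT m s = mass (Psi (List.replicate (2*m+1) 1 ++ [0])) := by
  have h := PP_sum_kr m (fun _ => 1)
  simp only [mul_one] at h
  rw [← h]
  unfold PP Lin mass
  simp

/-- **the limit of the window probabilities** -/
theorem WM_tendsto (m s : ℕ) (hs : s ≤ m) :
    Tendsto (fun M => perc.real {ω | WM m M ω = s}) atTop (𝓝 (tr m s / trs m)) := by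
  have hL : Odd (2*m+1) := ⟨m, rfl⟩
  have hlen : (List.replicate (2*m+1) (1:ℂ) ++ [0]).length = 2*m+1+1 := by simp
  have h := Lin_law_tendsto (fun R => if kr m R = s then 1 else 0) (by
    intro R; split_ifs <;> simp) (2*m+1) hL _ (stationary (2*m+1) hL) (by
    intro R hR a b hab
    have := Psi_supp (List.replicate (2*m+1) 1 ++ [0]) (by rw [hlen]; exact ⟨m+1, by ring⟩) R hR a b
      hab
    rw [hlen] at this
    exact this) (psi_mass m)
  have e1 : Lin (fun R => if kr m R = s then 1 else 0) (Psi (List.replicate (2*m+1) 1 ++ [0])) /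
      mass (Psi (List.replicate (2*m+1) 1 ++ [0])) = ((tr m s / trs m : ℝ) : ℂ) := by
    have h1 := TT_eq m s hs
    rw [sum_TT] at h1
    have h2 : Lin (fun R => if kr m R = s then 1 else 0) (Psi (List.replicate (2*m+1) 1 ++ [0])) =
      TT m s := rfl
    rw [h2, h1, mul_div_cancel_left₀ _ (psi_mass m)]
  rw [e1] at h
  have h2 : Tendsto (fun M => ((perc.real {ω | WM m M ω = s} : ℝ) : ℂ)) atTop
      (𝓝 ((tr m s / trs m : ℝ) : ℂ)) := h.congr fun M => (WM_prob m M s).symm
  have h3 := (Complex.continuous_re.tendsto _).comp h2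
  simpa [Function.comp_def] using h3

end Pool.Agent.Zk36.NV
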