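import Pool.Agent.Zk36.NV.PDefs
import Pool.Agent.Zk36.NV.Law

/-! Clusters of the half-infinite strip and the windows. -/

set_option autoImplicit false

namespace Pool.Agent.Zk36.NV

open Pool.Agent.H988R2.Perc Finset MeasureTheory Filter Topology

/-- (column, time) coordinates -/
def fz (x : ℤ × ℤ) : ℤ × ℤ := (x.1 - x.2, x.1 + x.2 - 1)

theorem gpart_mono {L : ℕ} {lo lo' hi : ℤ} (h : lo' ≤ lo) {ω : Conf} {a b : ℤ × ℤ}
    (hg : T22.GPart L lo hi ω a b) : T22.GPart L lo' hi ω a b := by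
  obtain ⟨i, r, h1, h2, h3, h4, h5, h6⟩ := hg
  exact ⟨i, r, h1, h2, by omega, h4, h5, h6⟩

theorem past_of_gadj {L M : ℕ} {ω : Conf} {a b : ℤ × ℤ} (h : GAdj L M ω a b) (hb : b.2 ≤ 0) :
    T22.GPart L (-(2 * (M : ℤ))) 0 ω a b := by
  rcases (T22.gadj_iff L M ω a b).1 h with h1 | h1
  · exact h1
  · have := T22.gpart_facts h1
    omega

theorem open_part (L M : ℕ) (ω : Conf) (x y : ℤ × ℤ) (hx : Strip L x) (hy : Strip L y)
    (h : OpenAdj ω x y) (hM : |x.1 + x.2| + |y.1 + y.2| + 1 ≤ M) :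
    T22.GPart L (-(2 * (M : ℤ))) 0 ω (fz x) (fz y) ∨ T22.GPart L (-(2 * (M : ℤ))) 0 ω (fz y) (fz x) := by
  have hb1 := abs_le.mp (le_refl |x.1 + x.2|)
  have hb2 := abs_le.mp (le_refl |y.1 + y.2|)
  obtain ⟨x1, x2⟩ := x
  obtain ⟨y1, y2⟩ := y
  unfold Strip at hx hy
  unfold fz
  dsimp only at *
  rcases h with ⟨e, h⟩ | ⟨e, h⟩ | ⟨e, h⟩ | ⟨e, h⟩
  · simp only [Prod.mk.injEq] at e
    obtain ⟨rfl, rfl⟩ := e
    exact Or.inl (past_of_gadj (T22.gadj_h L M ω _ _ h (by omega) (by omega) (by omega)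
      (by omega)) (by dsimp only; omega))
  · simp only [Prod.mk.injEq] at e
    obtain ⟨rfl, rfl⟩ := e
    exact Or.inr (past_of_gadj (T22.gadj_h L M ω _ _ h (by omega) (by omega) (by omega)
      (by omega)) (by dsimp only; omega))
  · simp only [Prod.mk.injEq] at e
    obtain ⟨rfl, rfl⟩ := e
    exact Or.inl (past_of_gadj (T22.gadj_v L M ω _ _ h (by omega) (by omega) (by omega)
      (by omega)) (by dsimp only; omega))
  · simp only [Prod.mk.injEq] at e
    obtain ⟨rfl, rfl⟩ := e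
    exact Or.inr (past_of_gadj (T22.gadj_v L M ω _ _ h (by omega) (by omega) (by omega)
      (by omega)) (by dsimp only; omega))

theorem toZ_strip {L : ℕ} {p : ℤ × ℤ} (h : (p.1 + p.2) % 2 = 1) (h0 : 0 ≤ p.1) (h1 : p.1 ≤ L)
    (h2 : p.2 ≤ 0) : Strip L (T22.toZ p) := by
  unfold Strip T22.toZ
  dsimp only
  omega

theorem ev_eq (i : ℕ) : T22.toZ (((2*i+1 : ℕ) : ℤ), 0) = ev i := by
  unfold T22.toZ ev
  apply Prod.ext <;> dsimp only <;> omega

theorem fz_ev (i : ℕ) : fz (ev i) = (((2*i+1 : ℕ) : ℤ), 0) := by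
  unfold fz ev
  apply Prod.ext <;> dsimp only <;> omega

theorem ev_strip {m i : ℕ} (h : i ≤ m) : Strip (2*m+1) (ev i) := by
  unfold Strip ev
  dsimp only
  omega

theorem Conn.head {L : ℕ} {ω : Conf} {x y : ℤ × ℤ} (h : Conn L ω y) (hx : Strip L x)
    (hy : Strip L y) (ho : OpenAdj ω x y) : Conn L ω x := by
  obtain ⟨z, hz, h1⟩ := h
  exact ⟨z, hz, Relation.ReflTransGen.head ⟨hx, hy, ho⟩ h1⟩

theorem conn_of_window (m M i : ℕ) (hi : i ≤ m) (ω : Conf)
    (h : (X (2*m+1) (actBit (oPast ω M)) M).rel (2*m+1) (2*i+1)) : Conn (2*m+1) ω (ev i) := by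
  have hL : Odd (2*m+1) := ⟨m, rfl⟩
  rw [T22.past_iff (2*m+1) hL M ω (2*m+1) (2*i+1) (by omega) (by omega) le_rfl (by omega)] at h
  let P : ℤ × ℤ → Prop := fun p => p.1 = ((2*m+1 : ℕ) : ℤ) ∨ ((p.1 + p.2) % 2 = 1 ∧
    Conn (2*m+1) ω (T22.toZ p))
  have hwall : ∀ p : ℤ × ℤ, (p.1 + p.2) % 2 = 1 → p.1 = ((2*m+1 : ℕ) : ℤ) →
      Conn (2*m+1) ω (T22.toZ p) := by
    intro p hp h1
    exact ⟨T22.toZ p, by rw [T22.toZ_diff p hp, h1], Relation.ReflTransGen.refl⟩
  have key : P (((2*m+1 : ℕ) : ℤ), 0) ↔ P (((2*i+1 : ℕ) : ℤ), 0) := by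
    refine T22.eqvGen_iff P ?_ h
    rintro p p' (h1 | ⟨h1, h2⟩)
    · obtain ⟨f1, f2, f3, f4, f5, f6, f7, f8, f9⟩ := T22.gpart_facts h1
      have hg : GAdj (2*m+1) M ω p p' := (T22.gadj_iff (2*m+1) M ω p p').2 (Or.inl h1)
      have ho := T22.gadj_open hg
      have s1 := toZ_strip f4 f6 f7 (by omega)
      have s2 := toZ_strip f5 f8 f9 (by omega)
      constructor
      · intro h3
        refine Or.inr ⟨f5, ?_⟩
        have h4 : Conn (2*m+1) ω (T22.toZ p) := by
          rcases h3 with h3 | h3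
          · exact hwall p f4 h3
          · exact h3.2
        exact h4.head s2 s1 (T22.openAdj_symm ho)
      · intro h3
        refine Or.inr ⟨f4, ?_⟩
        have h4 : Conn (2*m+1) ω (T22.toZ p') := by
          rcases h3 with h3 | h3
          · exact hwall p' f5 h3
          · exact h3.2
        exact h4.head s1 s2 ho
    · exact ⟨fun _ => Or.inl h2, fun _ => Or.inl h1⟩
  have h3 := key.1 (Or.inl rfl)
  rcases h3 with h3 | h3
  · rw [← ev_eq]
    exact hwall _ (by dsimp only; omega) h3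
  · rw [← ev_eq]
    exact h3.2

theorem eqv_mono {L M M' : ℕ} (hM : M ≤ M') {ω : Conf} {a b : ℤ × ℤ}
    (h : Relation.EqvGen (T22.EP L (-(2 * (M : ℤ))) 0 ω) a b) :
    Relation.EqvGen (T22.EP L (-(2 * (M' : ℤ))) 0 ω) a b := by
  refine h.mono ?_
  rintro a b (h | h)
  · exact Or.inl (gpart_mono (by omega) h)
  · exact Or.inr h

theorem window_mono (m M M' i : ℕ) (hM : M ≤ M') (hi : i ≤ m) (ω : Conf)
    (h : (X (2*m+1) (actBit (oPast ω M)) M).rel (2*m+1) (2*i+1)) :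
    (X (2*m+1) (actBit (oPast ω M')) M').rel (2*m+1) (2*i+1) := by
  have hL : Odd (2*m+1) := ⟨m, rfl⟩
  rw [T22.past_iff (2*m+1) hL _ ω (2*m+1) (2*i+1) (by omega) (by omega) le_rfl (by omega)] at h ⊢
  exact eqv_mono hM h

theorem window_of_conn (m i : ℕ) (hi : i ≤ m) (ω : Conf) (h : Conn (2*m+1) ω (ev i)) :
    ∃ M, (X (2*m+1) (actBit (oPast ω M)) M).rel (2*m+1) (2*i+1) := by
  have hL : Odd (2*m+1) := ⟨m, rfl⟩
  obtain ⟨z, hz, h1⟩ := h
  have key : ∀ x, Relation.ReflTransGen (fun a b => Strip (2*m+1) a ∧ Strip (2*m+1) b ∧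
      OpenAdj ω a b) (ev i) x → ∃ M : ℕ, Relation.EqvGen
        (T22.EP (2*m+1) (-(2 * (M : ℤ))) 0 ω) (fz (ev i)) (fz x) := by
    intro x hx
    induction hx with
    | refl => exact ⟨0, Relation.EqvGen.refl _⟩
    | tail _ h2 ih =>
      rename_i b c _
      obtain ⟨M, hM⟩ := ih
      obtain ⟨s1, s2, ho⟩ := h2
      refine ⟨max M (|b.1 + b.2| + |c.1 + c.2| + 1).toNat, ?_⟩
      refine (eqv_mono (le_max_left _ _) hM).trans _ _ _ ?_
      have hh : |b.1 + b.2| + |c.1 + c.2| + 1 ≤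
          ((max M (|b.1 + b.2| + |c.1 + c.2| + 1).toNat : ℕ) : ℤ) := by
        have := le_max_right M (|b.1 + b.2| + |c.1 + c.2| + 1).toNat
        have h3 := Int.self_le_toNat (|b.1 + b.2| + |c.1 + c.2| + 1)
        have h4 : (((|b.1 + b.2| + |c.1 + c.2| + 1).toNat : ℕ) : ℤ) ≤
          ((max M (|b.1 + b.2| + |c.1 + c.2| + 1).toNat : ℕ) : ℤ) := by exact_mod_cast this
        exact h3.trans h4
      rcases open_part (2*m+1) _ ω b c s1 s2 ho hh with h5 | h5
      · exact Relation.EqvGen.rel _ _ (Or.inl h5)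
      · exact Relation.EqvGen.symm _ _ (Relation.EqvGen.rel _ _ (Or.inl h5))
  obtain ⟨M, hM⟩ := key z h1
  refine ⟨M, ?_⟩
  rw [T22.past_iff (2*m+1) hL M ω (2*m+1) (2*i+1) (by omega) (by omega) le_rfl (by omega)]
  rw [fz_ev] at hM
  refine Relation.EqvGen.trans _ (fz z) _ (Relation.EqvGen.rel _ _ (Or.inr ⟨rfl, ?_⟩)) hM.symm
  unfold fz
  exact hz

/-- number of vertices of the end (other than the corner) joined to the right side -/
noncomputable def NC (m : ℕ) (ω : Conf) : ℕ := by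
  classical
  exact ((range m).filter (fun i => Conn (2*m+1) ω (ev i))).card

theorem WM_mono (m : ℕ) (ω : Conf) : Monotone (fun M => WM m M ω) := by
  classical
  intro M M' hM
  unfold WM kr
  apply Finset.card_le_card
  intro i hi
  rw [Finset.mem_filter] at hi ⊢
  exact ⟨hi.1, window_mono m M M' i hM (by have := Finset.mem_range.1 hi.1; omega) ω hi.2⟩

theorem WM_le (m M : ℕ) (ω : Conf) : WM m M ω ≤ NC m ω := by
  classical
  unfold WM kr NC
  apply Finset.card_le_card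
  intro i hi
  rw [Finset.mem_filter] at hi ⊢
  exact ⟨hi.1, conn_of_window m M i (by have := Finset.mem_range.1 hi.1; omega) ω hi.2⟩

theorem WM_ev (m : ℕ) (ω : Conf) : ∃ M, WM m M ω = NC m ω := by
  classical
  have h : ∀ i : ℕ, ∃ M, i < m → Conn (2*m+1) ω (ev i) →
      (X (2*m+1) (actBit (oPast ω M)) M).rel (2*m+1) (2*i+1) := by
    intro i
    by_cases h1 : i < m ∧ Conn (2*m+1) ω (ev i)
    · obtain ⟨M, hM⟩ := window_of_conn m i h1.1.le ω h1.2
      exact ⟨M, fun _ _ => hM⟩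
    · exact ⟨0, fun h2 h3 => absurd ⟨h2, h3⟩ h1⟩
  choose f hf using h
  refine ⟨(range m).sup f, le_antisymm (WM_le m _ ω) ?_⟩
  unfold WM kr NC
  apply Finset.card_le_card
  intro i hi
  rw [Finset.mem_filter] at hi ⊢
  have h1 := Finset.mem_range.1 hi.1
  exact ⟨hi.1, window_mono m (f i) _ i (Finset.le_sup hi.1) h1.le ω (hf i h1 hi.2)⟩

theorem NC_le (m : ℕ) (ω : Conf) : NC m ω ≤ m := by
  classical
  unfold NC
  exact (Finset.card_filter_le _ _).trans (by simp)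

theorem NC_ge_set (m s : ℕ) : {ω | s ≤ NC m ω} = ⋃ M, {ω | s ≤ WM m M ω} := by
  ext ω
  simp only [Set.mem_ofPred_eq, Set.mem_iUnion]
  constructor
  · intro h
    obtain ⟨M, hM⟩ := WM_ev m ω
    exact ⟨M, by rw [hM]; exact h⟩
  · rintro ⟨M, hM⟩
    exact hM.trans (WM_le m M ω)

theorem WM_ge_meas (m M s : ℕ) : MeasurableSet {ω | s ≤ WM m M ω} := by
  have : {ω | s ≤ WM m M ω} = ⋂ j ∈ Finset.range s, {ω | WM m M ω = j}ᶜ := by
    ext ω
    simp only [Set.mem_ofPred_eq, Set.mem_iInter, Set.mem_compl_iff, Finset.mem_range]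
    constructor
    · intro h j hj h1; omega
    · intro h
      by_contra h1
      exact h _ (not_le.1 h1) rfl
  rw [this]
  exact Finset.measurableSet_biInter _ fun j _ => (WM_meas m M j).compl

theorem NC_ge_meas (m s : ℕ) : MeasurableSet {ω | s ≤ NC m ω} := by
  rw [NC_ge_set]
  exact MeasurableSet.iUnion fun M => WM_ge_meas m M s

theorem NC_meas (m s : ℕ) : MeasurableSet {ω | NC m ω = s} := by
  have : {ω | NC m ω = s} = {ω | s ≤ NC m ω} \ {ω | s + 1 ≤ NC m ω} := by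
    ext ω
    simp only [Set.mem_ofPred_eq, Set.mem_diff]
    omega
  rw [this]
  exact (NC_ge_meas m s).diff (NC_ge_meas m (s+1))

theorem ge_tendsto (m s : ℕ) : Tendsto (fun M => perc.real {ω | s ≤ WM m M ω}) atTop
    (𝓝 (perc.real {ω | s ≤ NC m ω})) := by
  rw [NC_ge_set]
  have hm : Monotone (fun M => {ω : Conf | s ≤ WM m M ω}) := by
    intro M M' hM ω h
    exact le_trans h (WM_mono m ω hM)
  have h1 := tendsto_measure_iUnion_atTop (μ := perc) hm
  exact (ENNReal.tendsto_toReal (measure_ne_top perc _)).comp h1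

/-- **the exact law** of the number of end vertices joined to the right side -/
theorem NC_law (m s : ℕ) (hs : s ≤ m) : perc.real {ω | NC m ω = s} = tr m s / trs m := by
  have h1 := (ge_tendsto m s).sub (ge_tendsto m (s+1))
  have e1 : ∀ M, perc.real {ω | s ≤ WM m M ω} - perc.real {ω | s + 1 ≤ WM m M ω} =
      perc.real {ω | WM m M ω = s} := by
    intro M
    have : {ω | WM m M ω = s} = {ω | s ≤ WM m M ω} \ {ω | s + 1 ≤ WM m M ω} := by
      ext ω
      simp only [Set.mem_ofPred_eq, Set.mem_diff]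
      omega
    rw [this, measureReal_diff (by intro ω h; exact le_trans (Nat.le_succ s) h)
      (WM_ge_meas m M (s+1))]
  have e2 : perc.real {ω | s ≤ NC m ω} - perc.real {ω | s + 1 ≤ NC m ω} =
      perc.real {ω | NC m ω = s} := by
    have : {ω | NC m ω = s} = {ω | s ≤ NC m ω} \ {ω | s + 1 ≤ NC m ω} := by
      ext ω
      simp only [Set.mem_ofPred_eq, Set.mem_diff]
      omega
    rw [this, measureReal_diff (by intro ω h; exact le_trans (Nat.le_succ s) h)
      (NC_ge_meas m (s+1))]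
  simp only [e1, e2] at h1
  exact tendsto_nhds_unique h1 (WM_tendsto m s hs)

end Pool.Agent.Zk36.NV
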