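import Pool.Agent.Zk36.NV.Star2
import Pool.Agent.H983R2.CA.DvdLim

/-! Specialisation of the parameters to `1`. -/

set_option autoImplicit false

namespace Pool.Agent.Zk36.NV

open Pool.Agent.H988R2.Perc hiding X
open Pool.Agent.H983R2.CA Finset Polynomial Filter Topology

theorem PP_pd (φ : St → ℂ) (n : ℕ) : ∃ d, PD (2*n) d (PP φ) := by
  classical
  refine ⟨2*n-2, ?_⟩
  have h1 : PD (2*n) (2*n-2) (fun l => ∑ w ∈ LP (2*n), φ (Phi n w) * Fw w l) :=
    PD.sum _ fun w hw => (Fw_V hw).pd.smul _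
  refine h1.congr fun l hl => ?_
  unfold PP
  rw [Psi_eq hl]
  have hs : ∀ (s : Finset Word), Lin φ (∑ w ∈ s, Finsupp.single (Phi n w) (Fw w l)) =
      ∑ w ∈ s, φ (Phi n w) * Fw w l := by
    intro s
    induction s using Finset.induction_on with
    | empty => simp [Lin]
    | insert a s ha ih =>
      rw [Finset.sum_insert ha, Finset.sum_insert ha, Lin_add, ih]
      congr 1
      unfold Lin
      rw [Finsupp.sum_single_index (by simp)]
      ring
  exact hs _

theorem CC_aeval {N : ℕ} (p : MvPolynomial (Fin N) ℂ) (g : Fin N → ℂ → ℂ[X])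
    (hg : ∀ i, CC (g i)) : CC (fun s => MvPolynomial.aeval (fun i => g i s) p) := by
  have h := MvPolynomial.induction_on
    (motive := fun p : MvPolynomial (Fin N) ℂ => CC (fun s => MvPolynomial.aeval (fun i => g i s) p)) p
    (by
      intro a
      simp only [MvPolynomial.algHom_C]
      exact CC.const _)
    (by
      intro a b ha hb
      simp only [map_add]
      exact ha.add hb)
    (by
      intro a i ha
      simp only [map_mul, MvPolynomial.aeval_X]
      exact ha.mul (hg i))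
  exact h

/-- families of lists with coefficientwise continuous entries of degree at most one -/
inductive CL : ℕ → (ℂ → List ℂ[X]) → Prop
  | nil : CL 0 (fun _ => [])
  | cons {n : ℕ} {f : ℂ → ℂ[X]} {P : ℂ → List ℂ[X]} (hf : CC f) (hd : ∀ s, (f s).natDegree ≤ 1)
      (hP : CL n P) : CL (n+1) (fun s => f s :: P s)

theorem CL.length {n : ℕ} {P : ℂ → List ℂ[X]} (h : CL n P) : ∀ s, (P s).length = n := by
  induction h with
  | nil => intro s; rfl
  | cons _ _ _ ih => intro s; rw [List.length_cons, ih s]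

theorem CL.cc {n : ℕ} {P : ℂ → List ℂ[X]} (h : CL n P) : ∀ i, CC (fun s => (P s).getD i 0) := by
  induction h with
  | nil => intro i; simpa using CC.const 0
  | cons hf _ _ ih =>
    intro i
    cases i with
    | zero => simpa using hf
    | succ i => simpa using ih i

theorem CL.deg {n : ℕ} {P : ℂ → List ℂ[X]} (h : CL n P) :
    ∀ i s, ((P s).getD i 0).natDegree ≤ 1 := by
  induction h with
  | nil => intro i s; simp
  | cons _ hd _ ih =>
    intro i s
    cases i with
    | zero => simpa using hd s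
    | succ i => simpa using ih i s

theorem family {N d : ℕ} {F : List ℂ → ℂ} (hF : PD N d F) {P : ℂ → List ℂ[X]} (hP : CL N P) :
    ∃ (Q : ℂ → ℂ[X]) (M : ℕ), (∀ s, (Q s).natDegree ≤ M) ∧ CC Q ∧
      ∀ s x, (Q s).eval x = F ((P s).map (fun p => p.eval x)) := by
  obtain ⟨p, hp, hp'⟩ := hF
  refine ⟨fun s => MvPolynomial.aeval (fun i : Fin N => (P s).getD i 0) p, p.totalDegree * 1,
    ?_, ?_, ?_⟩
  · intro s
    exact MvPolynomial.aeval_natDegree_le _ le_rfl _ fun i => hP.deg _ _
  · exact CC_aeval p (fun i s => (P s).getD i 0) fun i => hP.cc _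
  · intro s x
    rw [eval_aeval_poly, hp' _ (by rw [List.length_map, hP.length])]
    congr 2
    funext i
    rw [List.getD_eq_getElem?_getD, List.getD_eq_getElem?_getD, List.getElem?_map]
    cases (P s)[(i : ℕ)]? <;> simp

/-- the nodes -/
noncomputable def nd : ℕ → ℂ → List ℂ
  | 0, _ => []
  | n+1, s => uu n s :: nd n s

theorem mem_nd {n : ℕ} {s x : ℂ} : x ∈ nd n s ↔ ∃ j < n, x = uu j s := by
  induction n with
  | zero => simp [nd]
  | succ n ih =>
    rw [nd, List.mem_cons, ih]
    constructor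
    · rintro (h | ⟨j, hj, h⟩)
      · exact ⟨n, by omega, h⟩
      · exact ⟨j, by omega, h⟩
    · rintro ⟨j, hj, h⟩
      rcases Nat.lt_succ_iff_lt_or_eq.1 hj with h1 | h1
      · exact Or.inr ⟨j, h1, h⟩
      · subst h1; exact Or.inl h

theorem nd_length (n : ℕ) (s : ℂ) : (nd n s).length = n := by
  induction n with
  | zero => rfl
  | succ n ih => rw [nd, List.length_cons, ih]

theorem nd_zero (n : ℕ) : nd n 0 = List.replicate n 1 := by
  induction n with
  | zero => rfl
  | succ n ih => rw [nd, ih, uu_zero]; rfl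

theorem uu_inv_cont (j : ℕ) : ContinuousAt (fun s => (uu j s)⁻¹) 0 := by
  refine (uu_cont j).inv₀ ?_
  rw [uu_zero]; exact one_ne_zero

theorem CL_nd {k : ℕ} {T : ℂ → List ℂ[X]} (hT : CL k T) (m : ℕ) :
    CL (2*m+k) (fun s => (pl (nd m s)).map C ++ T s) := by
  induction m with
  | zero => simpa [nd, pl_nil] using hT
  | succ m ih =>
    have h1 := CL.cons (CC.C (uu_inv_cont m)) (fun s => by simp) ih
    have h2 := CL.cons (CC.C (uu_cont m)) (fun s => by simp) h1
    have e : 2*(m+1)+k = 2*m+k+1+1 := by ring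
    rw [e]
    simpa [nd, pl_cons] using h2

theorem CC_X : CC (fun _ => (X : ℂ[X])) := CC.const _

theorem famA (m : ℕ) : ∃ (Q : ℂ → ℂ[X]) (M : ℕ), (∀ s, (Q s).natDegree ≤ M) ∧ CC Q ∧
      ∀ s x, (Q s).eval x = AA (nd m s) x := by
  obtain ⟨d, hd⟩ := PP_pd (iso (2*m+3)) (m+2)
  have hT : CL 3 (fun _ => [(X : ℂ[X]), C 1, C 0]) :=
    CL.cons CC_X (fun s => by simp) (CL.cons (CC.const _) (fun s => by simp)
      (CL.cons (CC.const _) (fun s => by simp) CL.nil))
  have hP := CL.cons (f := fun _ => C q * X) (CC.const _) (fun s => by compute_degree) (CL_nd hT m)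
  obtain ⟨Q, M, h1, h2, h3⟩ := family hd (P := fun s => C q * X :: ((pl (nd m s)).map C ++
    [(X : ℂ[X]), C 1, C 0])) (by
      have e : 2*(m+2) = 2*m+3+1 := by ring
      rw [e]; exact hP)
  refine ⟨Q, M, h1, h2, ?_⟩
  intro s x
  rw [h3]
  unfold AA
  rw [nd_length]
  simp [Function.comp_def]

theorem famB (m : ℕ) : ∃ (Q : ℂ → ℂ[X]) (M : ℕ), (∀ s, (Q s).natDegree ≤ M) ∧ CC Q ∧
      ∀ s x, (Q s).eval x = BB (nd m s) x := by
  obtain ⟨d, hd⟩ := PP_pd (iso (2*m+3)) (m+2)
  have hT : CL 3 (fun _ => [C (q^2) * (X : ℂ[X]), C 1, C 0]) :=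
    CL.cons (CC.const _) (fun s => by compute_degree) (CL.cons (CC.const _) (fun s => by simp)
      (CL.cons (CC.const _) (fun s => by simp) CL.nil))
  have hP := CL.cons (f := fun _ => X) (CC.const _) (fun s => by simp) (CL_nd hT m)
  obtain ⟨Q, M, h1, h2, h3⟩ := family hd (P := fun s => X :: ((pl (nd m s)).map C ++
    [C (q^2) * (X : ℂ[X]), C 1, C 0])) (by
      have e : 2*(m+2) = 2*m+3+1 := by ring
      rw [e]; exact hP)
  refine ⟨Q, M, h1, h2, ?_⟩
  intro s x
  rw [h3]
  unfold BB
  rw [nd_length]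
  simp [Function.comp_def]

/-- the factors as polynomials -/
noncomputable def fP (y : ℂ) : ℂ[X] := (X - C (q^2 * y)) * (C y * X - C (q^2))
noncomputable def gP (y : ℂ) : ℂ[X] := (C q * X - C (q^2 * y)) * (C (q * y) * X - C (q^2))

theorem fP_eval (y u : ℂ) : (fP y).eval u = f0 y u := by
  unfold fP f0
  rw [eval_mul, eval_sub, eval_sub, eval_mul, eval_C, eval_C, eval_C, eval_X]; ring

theorem gP_eval (y u : ℂ) : (gP y).eval u = g0 y u := by
  unfold gP g0
  rw [eval_mul, eval_sub, eval_sub, eval_mul, eval_mul, eval_C, eval_C, eval_C, eval_C, eval_X]; ring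

theorem fP_cc {f : ℂ → ℂ} (hf : ContinuousAt f 0) : CC (fun s => fP (f s)) := by
  unfold fP
  exact ((CC.const X).sub (CC.C (continuousAt_const.mul hf))).mul
    (((CC.C hf).mul (CC.const X)).sub (CC.const _))

theorem gP_cc {f : ℂ → ℂ} (hf : ContinuousAt f 0) : CC (fun s => gP (f s)) := by
  unfold gP
  exact ((CC.const _).sub (CC.C (continuousAt_const.mul hf))).mul
    (((CC.C (continuousAt_const.mul hf)).mul (CC.const X)).sub (CC.const _))

theorem fP_deg (y : ℂ) : (fP y).natDegree ≤ 2 := by unfold fP; compute_degree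
theorem gP_deg (y : ℂ) : (gP y).natDegree ≤ 2 := by unfold gP; compute_degree

/-- products over the nodes -/
noncomputable def prodP (h : ℂ → ℂ[X]) (l : List ℂ) : ℂ[X] := h 1 ^ 2 * (l.map (fun y => h y ^ 2)).prod

theorem prodP_cc (h : ℂ → ℂ[X]) (hc : ∀ {f : ℂ → ℂ}, ContinuousAt f 0 → CC (fun s => h (f s)))
    (m : ℕ) : CC (fun s => prodP h (nd m s)) := by
  unfold prodP
  refine (CC.const _).mul ?_
  induction m with
  | zero => simpa [nd] using CC.const 1
  | succ m ih =>
    simp only [nd, List.map_cons, List.prod_cons]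
    exact ((hc (uu_cont m)).pow 2).mul ih

theorem prodP_deg (h : ℂ → ℂ[X]) (hd : ∀ y, (h y).natDegree ≤ 2) (l : List ℂ) :
    (prodP h l).natDegree ≤ 4 * (l.length + 1) := by
  unfold prodP
  have h2 : ∀ y, (h y ^ 2).natDegree ≤ 4 := fun y => by
    refine natDegree_pow_le.trans ?_
    have := hd y; omega
  have h3 : ((l.map (fun y => h y ^ 2)).prod).natDegree ≤ 4 * l.length := by
    induction l with
    | nil => simp
    | cons y l ih =>
      rw [List.map_cons, List.prod_cons, List.length_cons]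
      refine natDegree_mul_le.trans ?_
      have := h2 y; omega
  refine natDegree_mul_le.trans ?_
  have := h2 1; omega

theorem prodP_eval_f (l : List ℂ) (u : ℂ) : (prodP fP l).eval u = ff l u := by
  unfold prodP ff
  rw [eval_mul, eval_pow, fP_eval]
  congr 1
  induction l with
  | nil => simp
  | cons y l ih => rw [List.map_cons, List.prod_cons, eval_mul, ih, List.map_cons, List.prod_cons,
      eval_pow, fP_eval]

theorem prodP_eval_g (l : List ℂ) (u : ℂ) : (prodP gP l).eval u = gg l u := by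
  unfold prodP gg
  rw [eval_mul, eval_pow, gP_eval]
  congr 1
  induction l with
  | nil => simp
  | cons y l ih => rw [List.map_cons, List.prod_cons, eval_mul, ih, List.map_cons, List.prod_cons,
      eval_pow, gP_eval]

theorem q_ne_one' : q ≠ 1 := q_ne_one

theorem Gd_ev (m : ℕ) : ∀ᶠ s in 𝓝[≠] (0:ℂ), Gd (nd m s) := by
  have hc : ∀ j : ℕ, ContinuousAt (uu j) 0 := uu_cont
  have h1 : ∀ᶠ s in 𝓝[≠] (0:ℂ), ∀ j k : Fin m, uu j s ≠ 0 ∧ uu j s ≠ q * uu k s ∧
      uu j s * uu k s ≠ q ∧ uu j s * uu k s ≠ q^2 := by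
    rw [Filter.eventually_all]
    intro j
    rw [Filter.eventually_all]
    intro k
    have ev : ∀ f : ℂ → ℂ, ContinuousAt f 0 → f 0 ≠ 0 → ∀ᶠ s in 𝓝[≠] (0:ℂ), f s ≠ 0 :=
      fun f hf h0 => (hf.eventually_ne h0).filter_mono nhdsWithin_le_nhds
    have a1 := ev (fun s => uu j s) (hc j) (by simp [uu_zero])
    have a2 := ev (fun s => uu j s - q * uu k s) ((hc j).sub (continuousAt_const.mul (hc k)))
      (by simp only [uu_zero, mul_one]; exact fun h => q_ne_one (by linear_combination -h))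
    have a3 := ev (fun s => uu j s * uu k s - q) (((hc j).mul (hc k)).sub continuousAt_const)
      (by simp only [uu_zero, mul_one]; exact fun h => q_ne_one (by linear_combination -h))
    have a4 := ev (fun s => uu j s * uu k s - q^2) (((hc j).mul (hc k)).sub continuousAt_const)
      (by simp only [uu_zero, mul_one]; exact fun h => q_sq_ne_one (by linear_combination -h))
    filter_upwards [a1, a2, a3, a4] with s b1 b2 b3 b4
    exact ⟨b1, sub_ne_zero.1 b2, sub_ne_zero.1 b3, sub_ne_zero.1 b4⟩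
  filter_upwards [h1] with s hs
  intro x hx y hy
  obtain ⟨j, hj, rfl⟩ := mem_nd.1 hx
  obtain ⟨k, hk, rfl⟩ := mem_nd.1 hy
  exact hs ⟨j, hj⟩ ⟨k, hk⟩

/-- **the divisibility at the homogeneous point** -/
theorem conf (m : ℕ) : ∃ A B : ℂ[X], (∀ x, A.eval x = AA (List.replicate m 1) x) ∧
    (∀ x, B.eval x = BB (List.replicate m 1) x) ∧
    (X - 1)^(2*m) ∣ A * (fP 1)^(2*(m+1)) - B * (gP 1)^(2*(m+1)) := by
  obtain ⟨A, MA, hA1, hA2, hA3⟩ := famA m
  obtain ⟨B, MB, hB1, hB2, hB3⟩ := famB m
  refine ⟨A 0, B 0, ?_, ?_, ?_⟩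
  · intro x; rw [hA3, nd_zero]
  · intro x; rw [hB3, nd_zero]
  set F : ℂ → ℂ[X] := fun s => (X - C 1) * (A s * prodP fP (nd m s) - B s * prodP gP (nd m s)) with hF
  have hd : ∀ s, (F s).natDegree ≤ 1 + max (MA + 4*(m+1)) (MB + 4*(m+1)) := by
    intro s
    refine natDegree_mul_le.trans (add_le_add (by compute_degree) ?_)
    refine (natDegree_sub_le _ _).trans (max_le_max ?_ ?_)
    · refine natDegree_mul_le.trans (add_le_add (hA1 s) ?_)
      have := prodP_deg fP fP_deg (nd m s)
      rwa [nd_length] at this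
    · refine natDegree_mul_le.trans (add_le_add (hB1 s) ?_)
      have := prodP_deg gP gP_deg (nd m s)
      rwa [nd_length] at this
  have hc : CC F := (CC.const _).mul ((hA2.mul (prodP_cc fP fP_cc m)).sub
    (hB2.mul (prodP_cc gP gP_cc m)))
  have key := pow_dvd_at_one m _ F hd hc ?_ ?_ ?_
  · have h0 : F 0 = (X - 1) * (A 0 * (fP 1)^(2*(m+1)) - B 0 * (gP 1)^(2*(m+1))) := by
      simp only [hF, nd_zero, prodP, List.map_replicate, List.prod_replicate, C_1]
      ring
    rw [h0, pow_succ, mul_comm] at key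
    exact (mul_dvd_mul_iff_left (X_sub_C_ne_zero (1:ℂ) |> fun h => by simpa using h)).1 key
  · refine Filter.Eventually.of_forall fun s => ?_
    simp [hF]
  · intro j hj
    filter_upwards [Gd_ev m] with s hs
    have := star_mem (nd m s) (uu j s) (mem_nd.2 ⟨j, hj, rfl⟩) hs
    simp only [hF]
    rw [eval_mul, eval_sub (p := A s * _), eval_mul, eval_mul, hA3, hB3, prodP_eval_f,
      prodP_eval_g, this, sub_self, mul_zero]
  · intro j hj
    filter_upwards [Gd_ev m] with s hs
    have := star_inv (nd m s) (uu j s) (mem_nd.2 ⟨j, hj, rfl⟩) hs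
    simp only [hF]
    rw [eval_mul, eval_sub (p := A s * _), eval_mul, eval_mul, hA3, hB3, prodP_eval_f,
      prodP_eval_g, this, sub_self, mul_zero]

end Pool.Agent.Zk36.NV
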