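import Pool.Agent.Zk36.NV.Ode

/-! The exact law at the level of the qKZ vector. -/

set_option autoImplicit false

namespace Pool.Agent.Zk36.NV

open Pool.Agent.H988R2.Perc hiding X
open Finset Polynomial

theorem GG_tc (m : ℕ) : (X - 1)^(2*m) ∣ GG m (tc m) := by
  obtain ⟨K, hK⟩ := X_dvd_HH m (2*m) (by omega)
  have hKd : K.natDegree ≤ 2*m+2 := by
    by_cases h0 : K = 0
    · rw [h0]; simp
    · have := HH_deg m
      rw [hK, natDegree_X_pow_mul _ h0] at this
      omega
  have key : (X - C (q^2)) * (C (q^(m+1)) * GG m (tc m)) =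
      (X - C (q^2)) * ((C (-q) * (X - 1))^(2*m) * ∑ i ∈ range (2*m+3),
        C (K.coeff i) * ((C (-q) * (X - 1))^i * (X - C (q^2))^(2*m+2-i))) := by
    apply Polynomial.funext
    intro x
    rw [eval_mul, eval_mul (p := X - C (q^2))]
    by_cases hx : x - q^2 = 0
    · simp only [eval_sub, eval_X, eval_C, hx, zero_mul]
    · congr 1
      rw [eval_mul, eval_C, ← HH_hom m x hx, hK, eval_mul, eval_pow, eval_X, eval_mul,
        eval_finsetSum, eval_eq_sum_range' (show K.natDegree < 2*m+3 by omega)]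
      simp only [eval_mul, eval_pow, eval_sub, eval_X, eval_C, eval_one]
      set Q := x - q^2 with hQ
      set P := -q * (x-1) with hP
      have e0 : Q^(4*m+2) = Q^(2*m) * Q^(2*m+2) := by rw [← pow_add]; congr 1; ring
      have e1 : Q^(2*m+2) * ∑ i ∈ range (2*m+3), K.coeff i * (P/Q)^i =
          ∑ i ∈ range (2*m+3), K.coeff i * (P^i * Q^(2*m+2-i)) := by
        rw [Finset.mul_sum]
        refine Finset.sum_congr rfl fun i hi => ?_
        rw [Finset.mem_range] at hi
        have : Q^(2*m+2) = Q^i * Q^(2*m+2-i) := by rw [← pow_add]; congr 1; omega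
        rw [this, div_pow]
        field_simp
      rw [e0, ← e1, div_pow]
      field_simp
  have hne : (X - C (q^2)) ≠ 0 := X_sub_C_ne_zero _
  have key2 := mul_left_cancel₀ hne key
  have h3 : (X - 1)^(2*m) ∣ C (q^(m+1)) * GG m (tc m) := by
    rw [key2, mul_pow]
    exact ⟨(C (-q))^(2*m) * ∑ i ∈ range (2*m+3),
        C (K.coeff i) * ((C (-q) * (X - 1))^i * (X - C (q^2))^(2*m+2-i)), by ring⟩
  have hu : IsUnit (C (q^(m+1))) :=
    isUnit_C.2 (isUnit_iff_ne_zero.2 (pow_ne_zero _ q_ne_zero))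
  exact hu.dvd_mul_left.1 h3

theorem tr_pos (m s : ℕ) (hs : s ≤ m) : 0 < tr m s := by
  unfold tr
  apply Finset.prod_pos
  intro j hj
  rw [Finset.mem_range] at hj
  apply div_pos
  · have h1 : (j:ℝ) + 1 ≤ m := by exact_mod_cast (show j + 1 ≤ m by omega)
    have hj : (0:ℝ) ≤ j := Nat.cast_nonneg _
    nlinarith
  · exact den_pos (by omega)

noncomputable def trs (m : ℕ) : ℝ := ∑ s ∈ range (m+1), tr m s

theorem trs_pos (m : ℕ) : 0 < trs m := by
  unfold trs
  apply Finset.sum_pos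
  · intro s hs
    rw [Finset.mem_range] at hs
    exact tr_pos m s (by omega)
  · exact ⟨0, by simp⟩

theorem GG_lin (m : ℕ) (T t : ℕ → ℂ) (c : ℂ) :
    GG m (fun s => T s - c * t s) = GG m T - C c * GG m t := by
  unfold GG RR RT
  have h1 : ∀ f : ℕ → ℂ[X], ∑ s ∈ range (m+1), C (T s - c * t s) * f s =
      ∑ s ∈ range (m+1), C (T s) * f s - C c * ∑ s ∈ range (m+1), C (t s) * f s := by
    intro f
    rw [Finset.mul_sum, ← Finset.sum_sub_distrib]
    refine Finset.sum_congr rfl fun s _ => ?_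
    rw [C_sub, C_mul]; ring
  rw [h1, h1]
  ring

/-- **the exact law** -/
theorem TT_eq (m s : ℕ) (hs : s ≤ m) :
    TT m s = (∑ j ∈ range (m+1), TT m j) * ((tr m s / trs m : ℝ) : ℂ) := by
  set c : ℂ := (∑ j ∈ range (m+1), TT m j) / (trs m : ℂ) with hc
  have hne : (trs m : ℂ) ≠ 0 := by exact_mod_cast (trs_pos m).ne'
  have hs1 : ∑ j ∈ range (m+1), tc m j = (trs m : ℂ) := by
    unfold trs tc
    push_cast
    rfl
  have h := GG_uniq m (fun s => TT m s - c * tc m s) ?_ ?_ s hs
  · have h2 : TT m s = c * tc m s := by linear_combination h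
    rw [h2, hc]
    unfold tc
    push_cast
    ring
  · rw [GG_lin]
    exact dvd_sub (GG_dvd m) ((GG_tc m).mul_left _)
  · rw [Finset.sum_sub_distrib, ← Finset.mul_sum, hs1, hc, div_mul_cancel₀ _ hne, sub_self]

end Pool.Agent.Zk36.NV
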