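import Pool.Agent.Zk36.NV.Lim

/-! Convergence of weighted sums of the exact law. -/

set_option autoImplicit false

namespace Pool.Agent.Zk36.NV

open Finset MeasureTheory Filter Topology Real

theorem sum_int (m : ℕ) (φ : ℕ → ℝ) :
    (lam m)⁻¹ * ∑ s ∈ range (m+1), tr m s * φ s =
      ∫ u in Set.Ioi (0:ℝ), tr m ⌊u * lam m⌋₊ * φ ⌊u * lam m⌋₊ := by
  have h1 := integral_comp_mul_right_Ioi (fun v => tr m ⌊v⌋₊ * φ ⌊v⌋₊) 0 (lam_pos m)
  rw [h1, zero_mul, floor_int (fun s => tr m s * φ s) (m+1) (by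
    intro s hs
    rw [tr_gt m s (by omega), zero_mul]), smul_eq_mul]

theorem bound_int (k : ℕ) : IntegrableOn (fun u : ℝ => (1 + u)^k * exp (3 - u)) (Set.Ioi 0) := by
  have h1 : IntegrableOn (fun u : ℝ => (2^k * (k.factorial : ℝ) * exp (1/2 + 3)) * exp (-(1/2) * u))
      (Set.Ioi 0) := (exp_neg_integrableOn_Ioi 0 (by norm_num)).const_mul _
  refine Integrable.mono' h1 ?_ ?_
  · exact (Continuous.aestronglyMeasurable (by fun_prop))
  · filter_upwards [ae_restrict_mem measurableSet_Ioi] with u hu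
    have hu0 : (0:ℝ) < u := hu
    rw [Real.norm_eq_abs, abs_of_nonneg (by positivity)]
    have h2 := Real.pow_div_factorial_le_exp (x := (1+u)/2) (by positivity) k
    rw [div_le_iff₀ (by positivity)] at h2
    have h3 : (1 + u)^k = 2^k * ((1+u)/2)^k := by
      rw [← mul_pow]; congr 1; ring
    have h4 : exp (1/2 + 3) * exp (-(1/2) * u) = exp ((1+u)/2) * exp (3 - u) := by
      rw [← Real.exp_add, ← Real.exp_add]; congr 1; ring
    calc (1 + u)^k * exp (3 - u) = 2^k * ((1+u)/2)^k * exp (3 - u) := by rw [h3]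
      _ ≤ 2^k * (exp ((1+u)/2) * (k.factorial : ℝ)) * exp (3 - u) := by gcongr
      _ = (2^k * (k.factorial : ℝ) * exp (1/2 + 3)) * exp (-(1/2) * u) := by
          rw [mul_assoc (2^k * (k.factorial : ℝ)), h4]; ring

theorem conv_gen (φ : ℕ → ℕ → ℝ) (ψ : ℝ → ℝ) (k : ℕ)
    (hb : ∀ m s, |φ m s| ≤ (1 + (s:ℝ) / lam m)^k)
    (hψ : ∀ᵐ u ∂(volume.restrict (Set.Ioi (0:ℝ))),
      Tendsto (fun m => φ m ⌊u * lam m⌋₊) atTop (𝓝 (ψ u))) :
    Tendsto (fun m => (lam m)⁻¹ * ∑ s ∈ range (m+1), tr m s * φ m s) atTop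
      (𝓝 (∫ u in Set.Ioi (0:ℝ), exp (-u^3) * ψ u)) := by
  simp only [sum_int]
  refine tendsto_integral_of_dominated_convergence (fun u : ℝ => (1 + u)^k * exp (3 - u)) ?_
    (bound_int k) ?_ ?_
  · intro m
    have h1 : Measurable (fun s : ℕ => tr m s * φ m s) := measurable_of_countable _
    have h2 : Measurable (fun u : ℝ => ⌊u * lam m⌋₊) :=
      Nat.measurable_floor.comp (measurable_id.mul_const _)
    exact (h1.comp h2).aestronglyMeasurable
  · intro m
    filter_upwards [ae_restrict_mem measurableSet_Ioi] with u hu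
    have hu0 : (0:ℝ) < u := hu
    rw [Real.norm_eq_abs, abs_mul, abs_of_nonneg (tr_nonneg _ _), mul_comm]
    have h1 := hb m ⌊u * lam m⌋₊
    have h2 := dom m u hu0.le
    have h3 : (⌊u * lam m⌋₊ : ℝ) / lam m ≤ u := by
      rw [div_le_iff₀ (lam_pos m)]
      exact Nat.floor_le (mul_nonneg hu0.le (lam_pos m).le)
    have h4 : (0:ℝ) ≤ (⌊u * lam m⌋₊ : ℝ) / lam m := div_nonneg (Nat.cast_nonneg _) (lam_pos m).le
    have h5 : (1 + (⌊u * lam m⌋₊ : ℝ) / lam m)^k ≤ (1 + u)^k :=
      pow_le_pow_left₀ (by linarith) (by linarith) k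
    exact mul_le_mul (h1.trans h5) h2 (tr_nonneg _ _) (by positivity)
  · filter_upwards [hψ, ae_restrict_mem measurableSet_Ioi] with u h1 hu
    have hu0 : (0:ℝ) < u := hu
    exact (pointwise u hu0.le).mul h1

theorem int_exp : ∫ u in Set.Ioi (0:ℝ), exp (-u^3) = Gamma (4/3) := by
  have h := integral_exp_neg_rpow (p := 3) (by norm_num)
  have e : (1:ℝ)/3 + 1 = 4/3 := by norm_num
  rw [e] at h
  rw [← h]
  refine setIntegral_congr_fun measurableSet_Ioi fun u _ => ?_
  show exp (-u^3) = exp (-u^(3:ℝ))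
  rw [show (3:ℝ) = ((3:ℕ):ℝ) by norm_num, Real.rpow_natCast]

theorem int_exp_pow (k : ℕ) : ∫ u in Set.Ioi (0:ℝ), exp (-u^3) * u^k =
    (1/3) * Gamma (((k:ℝ)+1)/3) := by
  have h := integral_rpow_mul_exp_neg_rpow (p := 3) (q := k) (by norm_num)
    (by have : (0:ℝ) ≤ k := Nat.cast_nonneg _
        linarith)
  rw [← h]
  refine setIntegral_congr_fun measurableSet_Ioi fun u _ => ?_
  show exp (-u^3) * u^k = u^(k:ℝ) * exp (-u^(3:ℝ))
  rw [show (3:ℝ) = ((3:ℕ):ℝ) by norm_num, Real.rpow_natCast, Real.rpow_natCast]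
  ring

theorem trs_tendsto : Tendsto (fun m => (lam m)⁻¹ * trs m) atTop (𝓝 (Gamma (4/3))) := by
  have h := conv_gen (fun _ _ => 1) (fun _ => 1) 0 (by intro m s; simp)
    (Filter.Eventually.of_forall fun u => tendsto_const_nhds)
  simp only [mul_one] at h
  rw [int_exp] at h
  exact h

theorem g43_pos : 0 < Gamma (4/3) := Real.Gamma_pos_of_pos (by norm_num)

/-- weighted means of the exact law -/
theorem mean_tendsto (φ : ℕ → ℕ → ℝ) (ψ : ℝ → ℝ) (k : ℕ)
    (hb : ∀ m s, |φ m s| ≤ (1 + (s:ℝ) / lam m)^k)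
    (hψ : ∀ᵐ u ∂(volume.restrict (Set.Ioi (0:ℝ))),
      Tendsto (fun m => φ m ⌊u * lam m⌋₊) atTop (𝓝 (ψ u))) :
    Tendsto (fun m => ∑ s ∈ range (m+1), (tr m s / trs m) * φ m s) atTop
      (𝓝 ((∫ u in Set.Ioi (0:ℝ), exp (-u^3) * ψ u) / Gamma (4/3))) := by
  have h := (conv_gen φ ψ k hb hψ).div trs_tendsto g43_pos.ne'
  refine h.congr fun m => ?_
  simp only [Pi.div_apply]
  have h1 := (lam_pos m).ne'
  have h2 := (trs_pos m).ne'
  rw [mul_div_mul_left _ _ (inv_ne_zero h1), Finset.sum_div]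
  refine Finset.sum_congr rfl fun s _ => ?_
  ring

/-- shifted floor -/
theorem shift_tendsto (u : ℝ) (hu : 0 ≤ u) :
    Tendsto (fun m => ((⌊u * lam m⌋₊ : ℝ) + 1) / lam m) atTop (𝓝 u) := by
  have h1 := (x_tendsto u hu).add lam_tendsto.inv_tendsto_atTop
  rw [add_zero] at h1
  refine h1.congr fun m => ?_
  simp only [Pi.inv_apply]
  rw [add_div, one_div]

theorem dist_tendsto (x : ℝ) (hx : 0 ≤ x) :
    Tendsto (fun m => ∑ s ∈ range (m+1), (tr m s / trs m) *
      (if ((s:ℝ) + 1) ≤ x * lam m then 1 else 0)) atTop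
      (𝓝 ((∫ u in (0:ℝ)..x, exp (-u^3)) / Gamma (4/3))) := by
  have h := mean_tendsto (fun m s => if ((s:ℝ) + 1) ≤ x * lam m then 1 else 0)
    (fun u => if u ≤ x then 1 else 0) 0 (by
      intro m s
      split_ifs <;> simp) ?_
  · have e : ∫ u in Set.Ioi (0:ℝ), exp (-u^3) * (if u ≤ x then 1 else 0) =
        ∫ u in (0:ℝ)..x, exp (-u^3) := by
      rw [intervalIntegral.integral_of_le hx]
      have h1 : ∀ u : ℝ, exp (-u^3) * (if u ≤ x then (1:ℝ) else 0) =
          (Set.Iic x).indicator (fun u => exp (-u^3)) u := by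
        intro u
        by_cases hu : u ≤ x
        · rw [if_pos hu, Set.indicator_of_mem (show u ∈ Set.Iic x from hu), mul_one]
        · rw [if_neg hu, Set.indicator_of_notMem (show u ∉ Set.Iic x from hu), mul_zero]
      simp only [h1]
      rw [setIntegral_indicator measurableSet_Iic, Set.Ioi_inter_Iic]
    rw [e] at h
    exact h
  · have h1 : ∀ᵐ u ∂(volume.restrict (Set.Ioi (0:ℝ))), u ≠ x :=
      ae_restrict_of_ae (by
        have : (volume : Measure ℝ) {x} = 0 := by simp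
        exact compl_mem_ae_iff.2 this)
    filter_upwards [h1, ae_restrict_mem measurableSet_Ioi] with u hne hu
    have hu0 : (0:ℝ) < u := hu
    have hst := shift_tendsto u hu0.le
    rcases lt_or_gt_of_ne hne with h2 | h2
    · rw [if_pos h2.le]
      refine tendsto_const_nhds.congr' ?_
      filter_upwards [hst.eventually_lt_const h2] with m hm
      rw [div_lt_iff₀ (lam_pos m)] at hm
      rw [if_pos hm.le]
    · rw [if_neg (not_le.2 h2)]
      refine tendsto_const_nhds.congr' ?_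
      filter_upwards [hst.eventually_const_lt h2] with m hm
      rw [lt_div_iff₀ (lam_pos m)] at hm
      rw [if_neg (not_le.2 hm)]

theorem moment_tendsto (k : ℕ) :
    Tendsto (fun m => ∑ s ∈ range (m+1), (tr m s / trs m) * (((s:ℝ) + 1) / lam m)^k) atTop
      (𝓝 (Gamma (((k:ℝ)+1)/3) / Gamma (1/3))) := by
  have h := mean_tendsto (fun m s => (((s:ℝ) + 1) / lam m)^k) (fun u => u^k) k (by
      intro m s
      have h1 := lam_pos m
      rw [abs_of_nonneg (by positivity)]
      apply pow_le_pow_left₀ (by positivity)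
      rw [add_div]
      have : 1 / lam m ≤ 1 := by
        rw [div_le_one h1]; exact lam_ge m
      linarith) (by
      filter_upwards [ae_restrict_mem measurableSet_Ioi] with u hu
      have hu0 : (0:ℝ) < u := hu
      exact (shift_tendsto u hu0.le).pow k)
  rw [int_exp_pow] at h
  have e : Gamma (4/3) = (1/3) * Gamma (1/3) := by
    have := Real.Gamma_add_one (s := 1/3) (by norm_num)
    rw [← this]; norm_num
  rw [e, mul_div_mul_left _ _ (by norm_num)] at h
  exact h

end Pool.Agent.Zk36.NV
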