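import Pool.Agent.Zk36.NV.Lim

/-! Closed form of the normalising constant. -/

set_option autoImplicit false

namespace Pool.Agent.Zk36.NV

open Finset

theorem tr_rec (m s : ℕ) : tr m (s+1) * ((2*(m:ℝ)-s)*(2*m+s+3)) =
    tr m s * (2*((m:ℝ)-s)*(2*m+2*s+3)) := by
  rw [tr_succ']
  have e1 : (2*(m:ℝ)+1)*(2*m+2) - 2*(s+1)*(2*s+1) = 2*((m:ℝ)-s)*(2*m+2*s+3) := by ring
  have e2 : (2*(m:ℝ)+1)*(2*m+2) - ((s:ℝ)+1)*(s+2) = (2*(m:ℝ)-s)*(2*m+s+3) := by ring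
  by_cases h : (2*(m:ℝ)+1)*(2*m+2) - ((s:ℝ)+1)*(s+2) = 0
  · -- then `s = 2m` and both sides vanish
    rw [← e2, h, mul_zero]
    have h1 : (2*(m:ℝ)-s) = 0 := by
      rw [e2] at h
      rcases mul_eq_zero.1 h with h2 | h2
      · exact h2
      · exfalso
        have : (0:ℝ) < 2*m+s+3 := by positivity
        linarith
    by_cases hm : m = 0
    · subst hm
      have : (s:ℝ) = 0 := by push_cast at h1; linarith
      rw [this]; simp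
    · have h2 : (s:ℝ) = 2 * m := by linarith
      have h3 : s = 2 * m := by exact_mod_cast h2
      rw [tr_gt m s (by omega), zero_mul]
  · rw [← e1, ← e2, mul_assoc, div_mul_cancel₀ _ h]

theorem tr_m (m s : ℕ) (hs : s ≤ m) :
    tr (m+1) s * (((m:ℝ)+1-s)*(2*m+1)*(2*m+3+s)*(2*m+4+s)) =
      tr m s * ((2*(m:ℝ)+3+2*s)*(2*m+1-s)*(2*m+2-s)*(m+2)) := by
  induction s with
  | zero => rw [tr_zero, tr_zero]; push_cast; ring
  | succ s ih =>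
    have ih' := ih (by omega)
    have h1 := tr_rec m s
    have h2 := tr_rec (m+1) s
    push_cast at h2 ⊢
    have hsm : (s:ℝ) + 1 ≤ m := by exact_mod_cast hs
    have hs0 : (0:ℝ) ≤ s := Nat.cast_nonneg _
    have a1 : (2*(m:ℝ)-s)*(2*m+s+3) ≠ 0 := by
      apply mul_ne_zero <;> nlinarith
    have a2 : (2*((m:ℝ)+1)-s)*(2*(m+1)+s+3) ≠ 0 := by
      apply mul_ne_zero <;> nlinarith
    have a3 : ((m:ℝ)+1-s) ≠ 0 := by nlinarith
    have e1 : tr m (s+1) = tr m s * (2*((m:ℝ)-s)*(2*m+2*s+3)) / ((2*(m:ℝ)-s)*(2*m+s+3)) := by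
      rw [eq_div_iff a1]; exact h1
    have e2 : tr (m+1) (s+1) = tr (m+1) s * (2*((m:ℝ)+1-s)*(2*(m+1)+2*s+3)) /
        ((2*((m:ℝ)+1)-s)*(2*(m+1)+s+3)) := by
      rw [eq_div_iff a2]; exact h2
    have b : (2*(m:ℝ)+1)*(2*m+3+s)*(2*m+4+s) ≠ 0 := by positivity
    have e3 : tr (m+1) s = tr m s * ((2*(m:ℝ)+3+2*s)*(2*m+1-s)*(2*m+2-s)*(m+2)) /
        (((m:ℝ)+1-s)*(2*m+1)*(2*m+3+s)*(2*m+4+s)) := by
      rw [eq_div_iff (by
        have := mul_ne_zero a3 b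
        intro h; apply this; linear_combination h)]
      exact ih'
    rw [e2, e1, e3]
    have c1 : (2*(m:ℝ)-s) ≠ 0 := (mul_ne_zero_iff.1 a1).1
    have c2 : (2*(m:ℝ)+s+3) ≠ 0 := (mul_ne_zero_iff.1 a1).2
    have c3 : (2*((m:ℝ)+1)-s) ≠ 0 := (mul_ne_zero_iff.1 a2).1
    have c4 : (2*((m:ℝ)+1)+s+3) ≠ 0 := (mul_ne_zero_iff.1 a2).2
    have c5 : (2*(m:ℝ)+1) ≠ 0 := by positivity
    have c6 : (2*(m:ℝ)+3+s) ≠ 0 := by positivity
    have c7 : (2*(m:ℝ)+4+s) ≠ 0 := by positivity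
    field_simp
    ring

/-- the telescoping identity -/
theorem wz (m n : ℕ) (hn : n ≤ m) :
    (∑ s ∈ range n, ((3*(m:ℝ)+5)*(2*m+1) * tr (m+1) s - (6*(m:ℝ)+5)*(m+2) * tr m s)) *
      (((m:ℝ)+1-n)*(2*m+3+n)) = - ((n:ℝ)*(4*m+5)*(m+2)*(2*m+1-n)) * tr m n := by
  induction n with
  | zero => simp
  | succ n ih =>
    have ih' := ih (by omega)
    have hsm : (n:ℝ) + 1 ≤ m := by exact_mod_cast hn
    have hs0 : (0:ℝ) ≤ n := Nat.cast_nonneg _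
    have h1 := tr_rec m n
    have h2 := tr_m m n (by omega)
    have a3 : ((m:ℝ)+1-n) ≠ 0 := by nlinarith
    have a4 : (2*(m:ℝ)+3+n) ≠ 0 := by positivity
    rw [Finset.sum_range_succ]
    apply mul_left_cancel₀ (mul_ne_zero a3 a4)
    push_cast
    linear_combination (((m:ℝ)-n)*(2*m+4+n)) * ih' + (((m:ℝ)-n)*(3*m+5)) * h2 +
      (((n:ℝ)+1)*(4*m+5)*(m+2)*(m+1-n)) * h1

theorem trs_rec (m : ℕ) : (3*(m:ℝ)+5)*(2*m+1) * trs (m+1) = (6*(m:ℝ)+5)*(m+2) * trs m := by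
  have h := wz m m le_rfl
  have e1 : trs (m+1) = (∑ s ∈ range m, tr (m+1) s) + tr (m+1) m + tr (m+1) (m+1) := by
    unfold trs
    rw [Finset.sum_range_succ, Finset.sum_range_succ]
  have e2 : trs m = (∑ s ∈ range m, tr m s) + tr m m := by
    unfold trs
    rw [Finset.sum_range_succ]
  rw [Finset.sum_sub_distrib, ← Finset.mul_sum, ← Finset.mul_sum] at h
  have h1 := tr_m m m le_rfl
  have h2 := tr_rec (m+1) m
  push_cast at h2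
  have a5 : (2*(m:ℝ)+4+m) ≠ 0 := by positivity
  have a4 : (2*(m:ℝ)+3+m) ≠ 0 := by positivity
  have a6 : (2*(m:ℝ)+1) ≠ 0 := by positivity
  have a7 : (2*((m:ℝ)+1)-m) ≠ 0 := by
    have : (0:ℝ) ≤ m := Nat.cast_nonneg _
    nlinarith
  have a8 : (2*((m:ℝ)+1)+m+3) ≠ 0 := by positivity
  have f1 : tr (m+1) m = tr m m * ((2*(m:ℝ)+3+2*m)*(2*m+1-m)*(2*m+2-m)*(m+2)) /
      ((2*m+1)*(2*m+3+m)*(2*m+4+m)) := by
    rw [eq_div_iff (mul_ne_zero (mul_ne_zero a6 a4) a5)]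
    linear_combination h1
  have f2 : tr (m+1) (m+1) = tr (m+1) m * (2*((m:ℝ)+1-m)*(2*(m+1)+2*m+3)) /
      ((2*((m:ℝ)+1)-m)*(2*(m+1)+m+3)) := by
    rw [eq_div_iff (mul_ne_zero a7 a8)]
    linear_combination h2
  have f3 : (3*(m:ℝ)+5)*(2*m+1) * (∑ s ∈ range m, tr (m+1) s) - (6*(m:ℝ)+5)*(m+2) *
      (∑ s ∈ range m, tr m s) = - ((m:ℝ)*(4*m+5)*(m+2)*(2*m+1-m)) * tr m m / (2*m+3+m) := by
    rw [eq_div_iff a4]
    linear_combination h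
  rw [e1, e2, f2, f1]
  have f4 : (3*(m:ℝ)+5)*(2*m+1) * (∑ s ∈ range m, tr (m+1) s) = (6*(m:ℝ)+5)*(m+2) *
      (∑ s ∈ range m, tr m s) - ((m:ℝ)*(4*m+5)*(m+2)*(2*m+1-m)) * tr m m / (2*m+3+m) := by
    linear_combination f3
  have f5 : ∀ A B C : ℝ, (3*(m:ℝ)+5)*(2*m+1) * (A + B + C) =
      (3*(m:ℝ)+5)*(2*m+1) * A + (3*(m:ℝ)+5)*(2*m+1) * (B + C) := by intros; ring
  rw [f5, f4]
  field_simp
  ring

/-- **closed form** -/
theorem trs_eq (m : ℕ) : trs m = ∏ j ∈ range m, ((6*(j:ℝ)+5)*(j+2)) / ((3*(j:ℝ)+5)*(2*j+1)) := by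
  induction m with
  | zero => simp [trs, tr_zero]
  | succ m ih =>
    rw [Finset.prod_range_succ, ← ih]
    have h := trs_rec m
    have h1 : (3*(m:ℝ)+5)*(2*m+1) ≠ 0 := by positivity
    field_simp
    linear_combination h

end Pool.Agent.Zk36.NV
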