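import Pool.Agent.Zk36.NV.Path2
import Pool.Agent.Zk36.NV.Lim2
import Pool.Agent.Zk36.NV.Norm

/-! Final statements. -/

set_option autoImplicit false

namespace Pool.Agent.Zk36.NV

open Pool.Agent.H988R2.Perc hiding X
open Finset MeasureTheory Filter Topology

/-- the number of vertices of the end visited by the exploration path -/
noncomputable def visits (L : ℕ) (ω : Conf) : ℕ :=
  Set.ncard {x : ℤ × ℤ | x.1 + x.2 = 1 ∧ ∃ n, (path L ω n).1 = x}

theorem visits_eq (m : ℕ) (ω : Conf) : visits (2*m+1) ω = NC m ω + 1 := by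
  classical
  have h1 : {x : ℤ × ℤ | x.1 + x.2 = 1 ∧ ∃ n, (path (2*m+1) ω n).1 = x} =
      (((insert m ((range m).filter (fun i => Conn (2*m+1) ω (ev i)))).image ev : Finset (ℤ × ℤ)) :
        Set (ℤ × ℤ)) := by
    ext x
    simp only [Set.mem_ofPred_eq, Finset.coe_image, Set.mem_image, Finset.mem_coe,
      Finset.mem_insert, Finset.mem_filter, Finset.mem_range]
    constructor
    · rintro ⟨hx, n, hn⟩
      obtain ⟨hS, -, -⟩ := va_path m ω n
      rw [hn] at hS
      unfold Strip at hS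
      obtain ⟨u, v⟩ := x
      dsimp only at hx hS
      push_cast at hS
      have he : ev (-v).toNat = (u, v) := by
        unfold ev
        apply Prod.ext <;> dsimp only <;> omega
      refine ⟨(-v).toNat, ?_, he⟩
      rcases Nat.lt_or_ge (-v).toNat m with h | h
      · right
        refine ⟨h, ?_⟩
        rw [← visits_iff m _ h ω]
        exact ⟨n, by rw [hn, he]⟩
      · left
        omega
    · rintro ⟨i, hi, rfl⟩
      refine ⟨by unfold ev; dsimp only; ring, ?_⟩
      rcases hi with rfl | ⟨h1, h2⟩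
      · exact ⟨0, by rw [path_zero]⟩
      · exact (visits_iff m i h1 ω).2 h2
  unfold visits
  rw [h1, Set.ncard_coe_finset, Finset.card_image_of_injective, Finset.card_insert_of_notMem]
  · unfold NC
    congr 1
  · intro h
    have := (Finset.mem_filter.1 h).1
    simp at this
  · intro i j h
    have := congrArg Prod.fst h
    unfold ev at this
    dsimp only at this
    omega

theorem visits_iff' (m : ℕ) (ω : Conf) (x : ℤ × ℤ) (hx : x.1 + x.2 = 1) (hS : Strip (2*m+1) x) :
    (∃ n, (path (2*m+1) ω n).1 = x) ↔ Conn (2*m+1) ω x := by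
  obtain ⟨u, v⟩ := x
  unfold Strip at hS
  dsimp only at hx hS
  push_cast at hS
  have he : ev (-v).toNat = (u, v) := by
    unfold ev
    apply Prod.ext <;> dsimp only <;> omega
  rw [← he]
  rcases Nat.lt_or_ge (-v).toNat m with h | h
  · exact visits_iff m _ h ω
  · have h1 : (-v).toNat = m := by omega
    rw [h1]
    constructor
    · rintro ⟨n, hn⟩
      rw [← hn]
      exact path_conn m ω n
    · intro _
      exact ⟨0, by rw [path_zero]⟩

theorem path_atBot (m : ℕ) (ω : Conf) :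
    Tendsto (fun n => (path (2*m+1) ω n).1.1 + (path (2*m+1) ω n).1.2) atTop atBot := by
  classical
  rw [tendsto_atBot]
  intro B
  let F : Finset ((ℤ × ℤ) × Fin 4) :=
    (Finset.Icc (-(|B| + (2*m+1) + 1)) (|B| + (2*m+1) + 1) ×ˢ
      Finset.Icc (-(|B| + (2*m+1) + 1)) (|B| + (2*m+1) + 1)) ×ˢ Finset.univ
  have hinj : Function.Injective (fun n => path (2*m+1) ω n) := by
    intro i j hij
    rcases lt_trichotomy i j with hlt | heq | hgt
    · exact (path_inj m ω i j hlt hij).elim
    · exact heq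
    · exact (path_inj m ω j i hgt hij.symm).elim
  have hfin : Set.Finite {n | path (2*m+1) ω n ∈ F} :=
    (F.finite_toSet).preimage hinj.injOn
  have h2 := hfin.eventually_cofinite_notMem
  rw [Nat.cofinite_eq_atTop] at h2
  filter_upwards [h2] with n hn
  by_contra hc
  push Not at hc
  apply hn
  obtain ⟨hS, -, -⟩ := va_path m ω n
  unfold Strip at hS
  have hB1 := neg_abs_le B
  have hB2 := abs_nonneg B
  show path (2*m+1) ω n ∈ F
  rw [Finset.mem_product, Finset.mem_product, Finset.mem_Icc, Finset.mem_Icc]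
  refine ⟨⟨⟨?_, ?_⟩, ⟨?_, ?_⟩⟩, Finset.mem_univ _⟩ <;> push_cast at * <;> omega

theorem visits_law (m k : ℕ) (hk : k ≤ m) :
    perc.real {ω | visits (2*m+1) ω = k + 1} = tr m k / trs m := by
  rw [← NC_law m k hk]
  congr 1
  ext ω
  simp only [Set.mem_ofPred_eq, visits_eq]
  omega

theorem visits_meas (m k : ℕ) : MeasurableSet {ω | visits (2*m+1) ω = k} := by
  rcases k with _ | k
  · have : {ω | visits (2*m+1) ω = 0} = ∅ := by
      ext ω
      simp [visits_eq]
    rw [this]
    exact MeasurableSet.empty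
  · have : {ω | visits (2*m+1) ω = k + 1} = {ω | NC m ω = k} := by
      ext ω
      simp only [Set.mem_ofPred_eq, visits_eq]
      omega
    rw [this]
    exact NC_meas m k

/-- mean of a function of the count -/
theorem mean_NC (m : ℕ) (f : ℕ → ℝ) :
    ∫ ω, f (NC m ω) ∂perc = ∑ s ∈ range (m+1), (tr m s / trs m) * f s := by
  have h1 : ∀ ω, f (NC m ω) = ∑ s ∈ range (m+1), ({ω | NC m ω = s} : Set Conf).indicator
      (fun _ => f s) ω := by
    intro ω
    rw [Finset.sum_eq_single (NC m ω)]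
    · rw [Set.indicator_of_mem]
      rfl
    · intro s _ hs
      rw [Set.indicator_of_notMem]
      exact fun h => hs h.symm
    · intro h
      exact absurd (Finset.mem_range.2 (Nat.lt_succ_of_le (NC_le m ω))) h
  simp only [h1]
  rw [integral_finsetSum]
  · refine Finset.sum_congr rfl fun s hs => ?_
    rw [integral_indicator (NC_meas m s), setIntegral_const, smul_eq_mul,
      NC_law m s (by have := Finset.mem_range.1 hs; omega)]
  · intro s _
    exact (integrable_const _).indicator (NC_meas m s)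

theorem visits_dist (x : ℝ) (hx : 0 ≤ x) :
    Tendsto (fun m : ℕ => perc.real {ω | (visits (2*m+1) ω : ℝ) ≤ x * (2*(m:ℝ)+1)^((2:ℝ)/3)}) atTop
      (𝓝 ((∫ u in (0:ℝ)..x, Real.exp (-u^3)) / Real.Gamma (4/3))) := by
  refine (dist_tendsto x hx).congr fun m => ?_
  have h1 : perc.real {ω | (visits (2*m+1) ω : ℝ) ≤ x * lam m} =
      ∫ ω, (if ((NC m ω : ℝ) + 1) ≤ x * lam m then (1:ℝ) else 0) ∂perc := by
    have h2 : MeasurableSet {ω | (visits (2*m+1) ω : ℝ) ≤ x * lam m} := by
      have h3 : {ω | (visits (2*m+1) ω : ℝ) ≤ x * lam m} =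
          ⋃ k ∈ {k : ℕ | (k:ℝ) ≤ x * lam m}, {ω | visits (2*m+1) ω = k} := by
        ext ω
        simp
      rw [h3]
      exact MeasurableSet.biUnion (Set.to_countable _) fun k _ => visits_meas m k
    rw [← integral_indicator_one h2]
    congr 1
    funext ω
    by_cases h : (visits (2*m+1) ω : ℝ) ≤ x * lam m
    · rw [Set.indicator_of_mem (show ω ∈ {ω | (visits (2*m+1) ω : ℝ) ≤ x * lam m} from h)]
      rw [visits_eq] at h
      push_cast at h
      rw [if_pos h]
      rfl
    · rw [Set.indicator_of_notMem (show ω ∉ {ω | (visits (2*m+1) ω : ℝ) ≤ x * lam m} from h)]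
      rw [visits_eq] at h
      push_cast at h
      rw [if_neg h]
  show _ = perc.real {ω | (visits (2*m+1) ω : ℝ) ≤ x * lam m}
  rw [h1, mean_NC m (fun s => if ((s : ℝ) + 1) ≤ x * lam m then (1:ℝ) else 0)]

theorem visits_moment (k : ℕ) :
    Tendsto (fun m : ℕ => ∫ ω, ((visits (2*m+1) ω : ℝ) / (2*(m:ℝ)+1)^((2:ℝ)/3))^k ∂perc) atTop
      (𝓝 (Real.Gamma (((k:ℝ)+1)/3) / Real.Gamma (1/3))) := by
  refine (moment_tendsto k).congr fun m => ?_
  rw [← mean_NC m (fun s => (((s:ℝ) + 1) / lam m)^k)]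
  congr 1
  funext ω
  rw [visits_eq]
  push_cast
  rfl

theorem tr_eq (m k : ℕ) : tr m k = ∏ j ∈ Icc 1 k,
    (((2*(m:ℝ)+1) + 1 - 2*j) * ((2*(m:ℝ)+1) + 2*j)) / (((2*(m:ℝ)+1) - j) * ((2*(m:ℝ)+1) + 1 + j)) := by
  induction k with
  | zero => simp [tr_zero]
  | succ k ih =>
    rw [Finset.prod_Icc_succ_top (by omega), ← ih, tr_succ']
    congr 1
    push_cast
    congr 1 <;> ring

theorem law_final (m k : ℕ) (hk : k ≤ m) :
    perc.real {ω | visits (2*m+1) ω = k + 1} =
      (∏ j ∈ Icc 1 m, ((3*(j:ℝ)+2)*(2*j-1)) / ((6*(j:ℝ)-1)*(j+1))) *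
      ∏ j ∈ Icc 1 k, (((2*(m:ℝ)+1) + 1 - 2*j) * ((2*(m:ℝ)+1) + 2*j)) /
        (((2*(m:ℝ)+1) - j) * ((2*(m:ℝ)+1) + 1 + j)) := by
  rw [visits_law m k hk, ← tr_eq, trs_eq, div_eq_mul_inv, mul_comm, ← Finset.prod_inv_distrib]
  congr 1
  have : ∀ n : ℕ, ∏ j ∈ range n, (((6*(j:ℝ)+5)*(j+2)) / ((3*(j:ℝ)+5)*(2*j+1)))⁻¹ =
      ∏ j ∈ Icc 1 n, ((3*(j:ℝ)+2)*(2*j-1)) / ((6*(j:ℝ)-1)*(j+1)) := by
    intro n
    induction n with
    | zero => simp
    | succ n ih =>
      rw [Finset.prod_range_succ, ih, Finset.prod_Icc_succ_top (by omega), inv_div]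
      congr 1
      push_cast
      congr 1 <;> ring
  exact this m

end Pool.Agent.Zk36.NV
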