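import Pool.Agent.H988R2.Perc.T14

/-!
Number of visits of the exploration path to the end of a half-infinite strip: linear functionals of
the qKZ vector `Psi`, exchange relations for the functional the last odd face is isolated.
-/

set_option autoImplicit false

namespace Pool.Agent.Zk36.NV

open Pool.Agent.H988R2.Perc Finset

/-- no smaller face is related to the face `k` -/
def Iso (k : ℕ) (R : St) : Prop := ∀ b < k, ¬ R.rel k b

open Classical in
/-- indicator of `Iso` -/
noncomputable def iso (k : ℕ) (R : St) : ℂ := if Iso k R then 1 else 0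

/-- the linear functional with values `φ` on the states -/
noncomputable def Lin (φ : St → ℂ) (f : St →₀ ℂ) : ℂ := f.sum fun R a => a * φ R

theorem Lin_add (φ : St → ℂ) (f g : St →₀ ℂ) : Lin φ (f + g) = Lin φ f + Lin φ g := by
  unfold Lin
  rw [Finsupp.sum_add_index']
  · intro R; simp
  · intro R a b; ring

theorem Lin_smul (φ : St → ℂ) (c : ℂ) (f : St →₀ ℂ) : Lin φ (c • f) = c * Lin φ f := by
  unfold Lin
  rw [Finsupp.sum_smul_index' (by intro R; simp), Finsupp.mul_sum]
  refine Finsupp.sum_congr fun R _ => ?_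
  rw [smul_eq_mul]; ring

theorem Lin_map (φ : St → ℂ) (g : St → St) (f : St →₀ ℂ) :
    Lin φ (Finsupp.mapDomain g f) = Lin (fun R => φ (g R)) f := by
  unfold Lin
  rw [Finsupp.sum_mapDomain_index]
  · intro R; simp
  · intro R a b; ring

theorem Lin_congr {φ ψ : St → ℂ} (f : St →₀ ℂ) (h : ∀ R ∈ f.support, φ R = ψ R) :
    Lin φ f = Lin ψ f := by
  unfold Lin
  exact Finsupp.sum_congr fun R hR => by rw [h R hR]

/-- value of the functional at the qKZ vector -/
noncomputable def PP (φ : St → ℂ) (l : List ℂ) : ℂ := Lin φ (Psi l)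

theorem PP_exch (φ : St → ℂ) (u v : List ℂ) (x y : ℂ) (h : Even (u.length + v.length)) :
    (q * x - q^2 * y) * PP φ (u ++ y :: x :: v) =
      (q * y - q^2 * x) * PP φ (u ++ x :: y :: v) +
      (y - x) * PP (fun R => φ (R.act u.length)) (u ++ x :: y :: v) := by
  unfold PP
  have := congrArg (Lin φ) (Psi_exch u v x y h)
  rw [Lin_add, Lin_smul, Lin_smul, Lin_smul, Lin_map] at this
  exact this

theorem PP_sym (φ : St → ℂ) (u v : List ℂ) (x y : ℂ) (h : Even (u.length + v.length))
    (hφ : ∀ R, φ (R.act u.length) = φ R) (hne : q * x - q^2 * y ≠ 0) :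
    PP φ (u ++ y :: x :: v) = PP φ (u ++ x :: y :: v) := by
  have h1 := PP_exch φ u v x y h
  have e : (fun R => φ (St.act u.length R)) = φ := funext hφ
  rw [e] at h1
  apply mul_left_cancel₀ hne
  rw [h1]
  have hq := q_spec
  linear_combination (x * PP φ (u ++ x :: y :: v) * (-1) + y * PP φ (u ++ x :: y :: v)) * hq

theorem iso_act_odd {k i : ℕ} (hk : k % 2 = 1) (hi : i % 2 = 1) (h : i + 2 < k) (R : St) :
    iso k (R.act i) = iso k R := by
  unfold iso
  congr 1
  apply propext
  unfold Iso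
  simp only [St.act_rel]
  obtain ⟨hr, hs, ht⟩ := R.eqv
  have ho := R.odd
  constructor
  · intro h1 b hb hR
    refine h1 b hb (Or.inr ⟨hk, ?_, by omega, ?_, Or.inl hR⟩)
    · rcases ho _ _ hR with h2 | h2
      · omega
      · exact h2.2
    · rcases ho _ _ hR with h2 | h2
      · omega
      · intro h3; omega
  · intro h1 b hb hR
    rcases hR with h2 | ⟨_, h3, h4, h5, h6 | ⟨h6, h7⟩ | ⟨h6, h7⟩⟩
    · omega
    · exact h1 b hb h6
    · exact h1 i (by omega) h6
    · exact h1 (i+2) h h6

theorem iso_act_last {k i : ℕ} (hi : i % 2 = 1) (h : i + 2 = k) (R : St) :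
    iso k (R.act i) = 0 := by
  unfold iso
  rw [if_neg]
  unfold Iso
  push Not
  refine ⟨i, by omega, ?_⟩
  rw [St.act_rel]
  refine Or.inr ⟨by omega, hi, by omega, by omega, Or.inr (Or.inr ⟨?_, R.eqv.1 i⟩)⟩
  rw [h]
  exact R.eqv.1 k

theorem iso_ins {k i : ℕ} (hk : k % 2 = 1) (hi : i % 2 = 0) (h : i < k) (R : St) :
    iso (k+2) (R.ins i) = iso k R := by
  unfold iso
  congr 1
  apply propext
  unfold Iso
  simp only [St.ins_rel]
  obtain ⟨hr, hs, ht⟩ := R.eqv
  have ho := R.odd
  have e1 : St.low i (k+2) = k := by unfold St.low; rw [if_neg (by omega)]; omega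
  rw [e1]
  constructor
  · intro h1 b hb hR
    have hb2 : b % 2 = 1 := by
      rcases ho _ _ hR with h2 | h2
      · omega
      · exact h2.2
    by_cases hbi : b ≤ i
    · refine h1 b (by omega) (Or.inr ⟨by omega, hb2, by omega, by omega, ?_⟩)
      unfold St.low; rw [if_pos hbi]; exact hR
    · refine h1 (b+2) (by omega) (Or.inr ⟨by omega, by omega, by omega, by omega, ?_⟩)
      unfold St.low; rw [if_neg (by omega)]; exact hR
  · intro h1 b hb hR
    rcases hR with h2 | ⟨_, h3, h4, h5, h6⟩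
    · omega
    · refine h1 (St.low i b) ?_ h6
      unfold St.low
      split_ifs
      · omega
      · omega

theorem act_comm3 (i : ℕ) (R : St) : St.act i (St.act (i+1) (St.act i R)) = St.act i R := by
  rw [St.act_eq i R, St.act_succ_ins, St.act_ins_succ]

theorem act_comm3' (i : ℕ) (R : St) :
    St.act (i+1) (St.act i (St.act (i+1) R)) = St.act (i+1) R := by
  rw [St.act_eq (i+1) R, St.act_ins_succ, St.act_succ_ins]

theorem act_idem (i : ℕ) (R : St) : St.act i (St.act i R) = St.act i R := St.act_act i R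

/-- recursion -/
theorem PP_rec (φ : St → ℂ) (u v : List ℂ) (x : ℂ) (h : Even (u.length + v.length)) :
    PP φ (u ++ x :: (q^2 * x) :: v) =
      fac x (u ++ v) * PP (fun R => φ (R.ins u.length)) (u ++ v) := by
  unfold PP
  rw [Psi_rec u v x h, Lin_smul, Lin_map]

theorem PP_inv1 (φ : St → ℂ) (x : ℂ) (l : List ℂ) (hx : x ≠ 0) (h : Odd l.length) :
    PP φ (x :: l) = x^(l.length - 1) * PP φ (x⁻¹ :: l) := by
  unfold PP
  rw [Psi_inv1 x l hx h, Lin_smul]

theorem PP_inv0 (φ : St → ℂ) (x : ℂ) (u : List ℂ) (hx : x ≠ 0) (h : Even u.length) :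
    PP φ (u ++ [x, 0]) = x^(u.length) * PP φ (u ++ [x⁻¹, 0]) := by
  unfold PP
  have := Psi_inv0 x u hx h
  rw [this, Lin_smul]

end Pool.Agent.Zk36.NV
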