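import Pool.Agent.Zk36.NV.Exact

/-! Asymptotics of the exact law. -/

set_option autoImplicit false

namespace Pool.Agent.Zk36.NV

open Finset MeasureTheory Filter Topology Real

theorem tr_succ' (m s : ℕ) : tr m (s+1) = tr m s *
    ((((2*(m:ℝ)+1)*(2*m+2) - 2*(s+1)*(2*s+1)) / ((2*(m:ℝ)+1)*(2*m+2) - (s+1)*(s+2)))) := by
  unfold tr
  rw [Finset.prod_range_succ]

theorem tr_gt (m s : ℕ) (h : m < s) : tr m s = 0 := by
  unfold tr
  apply Finset.prod_eq_zero (Finset.mem_range.2 h)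
  rw [div_eq_zero_iff]
  left
  ring

theorem tr_nonneg (m s : ℕ) : 0 ≤ tr m s := by
  by_cases h : s ≤ m
  · exact (tr_pos m s h).le
  · rw [tr_gt m s (by omega)]

theorem tr_le (m s : ℕ) (hs : s ≤ m) :
    tr m s ≤ exp (-(((s:ℝ)^3 - s) / ((2*(m:ℝ)+1)*(2*m+2)))) := by
  induction s with
  | zero => rw [tr_zero]; simp
  | succ s ih =>
    have hc : (0:ℝ) < (2*(m:ℝ)+1)*(2*m+2) := by positivity
    have hden := den_pos (m := m) (j := s) (by omega)
    set c := (2*(m:ℝ)+1)*(2*m+2) with hcd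
    rw [tr_succ']
    have h1 : (c - 2*(s+1)*(2*s+1)) / (c - (s+1)*(s+2)) ≤ exp (-(3*s*(s+1)/c)) := by
      refine le_trans ?_ (Real.add_one_le_exp _)
      rw [div_le_iff₀ hden]
      have h2 : 3*(s:ℝ)*(s+1)/c * c = 3*s*(s+1) := by field_simp
      have h3 : (0:ℝ) ≤ 3*(s:ℝ)*(s+1)/c := by positivity
      have h4 : (0:ℝ) ≤ ((s:ℝ)+1)*(s+2) := by positivity
      nlinarith [mul_nonneg h3 h4]
    have h5 := mul_le_mul (ih (by omega)) h1 (div_nonneg (by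
      have : (s:ℝ) + 1 ≤ m := by exact_mod_cast hs
      have h0 : (0:ℝ) ≤ s := Nat.cast_nonneg _
      rw [hcd]
      nlinarith) hden.le) (exp_pos _).le
    refine h5.trans (le_of_eq ?_)
    rw [← Real.exp_add]
    congr 1
    push_cast
    field_simp
    ring

theorem tr_ge (m S : ℕ) (h : 4*(S:ℝ)^2 < (2*(m:ℝ)+1)*(2*m+2)) : ∀ s ≤ S,
    exp (-(((s:ℝ)^3 - s) / ((2*(m:ℝ)+1)*(2*m+2) - 4*(S:ℝ)^2))) ≤ tr m s := by
  intro s
  induction s with
  | zero => intro _; rw [tr_zero]; simp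
  | succ s ih =>
    intro hs
    set c := (2*(m:ℝ)+1)*(2*m+2) with hcd
    set D := c - 4*(S:ℝ)^2 with hD
    have hD0 : 0 < D := by rw [hD]; linarith
    have hsS : (s:ℝ) + 1 ≤ S := by exact_mod_cast hs
    have h0 : (0:ℝ) ≤ s := Nat.cast_nonneg _
    have hnum : D ≤ c - 2*(s+1)*(2*s+1) := by rw [hD]; nlinarith
    have hnum0 : 0 < c - 2*(s+1)*(2*s+1) := lt_of_lt_of_le hD0 hnum
    have hden : c - (s+1)*(s+2) = (c - 2*(s+1)*(2*s+1)) + 3*s*(s+1) := by ring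
    have ha : (0:ℝ) ≤ 3*s*(s+1) := by positivity
    have hden0 : 0 < c - (s+1)*(s+2) := by rw [hden]; linarith
    rw [tr_succ']
    have h1 : exp (-(3*s*(s+1)/D)) ≤ (c - 2*(s+1)*(2*s+1)) / (c - (s+1)*(s+2)) := by
      rw [Real.exp_neg, inv_le_comm₀ (exp_pos _) (div_pos hnum0 hden0), inv_div]
      refine le_trans ?_ (Real.add_one_le_exp _)
      rw [hden, div_le_iff₀ hnum0]
      have h2 : 3*(s:ℝ)*(s+1)/D * D = 3*s*(s+1) := by field_simp
      have h3 : (0:ℝ) ≤ 3*(s:ℝ)*(s+1)/D := by positivity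
      nlinarith [mul_le_mul_of_nonneg_left hnum h3]
    have h5 := mul_le_mul (ih (by omega)) h1 (exp_pos _).le (tr_nonneg m s)
    refine le_trans (le_of_eq ?_) h5
    rw [← Real.exp_add]
    congr 1
    push_cast
    field_simp
    ring

/-- the scale -/
noncomputable def lam (m : ℕ) : ℝ := (2*(m:ℝ)+1)^((2:ℝ)/3)

theorem lam_ge (m : ℕ) : 1 ≤ lam m := by
  unfold lam
  apply Real.one_le_rpow
  · have : (0:ℝ) ≤ m := Nat.cast_nonneg _
    linarith
  · norm_num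

theorem lam_pos (m : ℕ) : 0 < lam m := lt_of_lt_of_le one_pos (lam_ge m)

theorem lam_cube (m : ℕ) : lam m ^ 3 = (2*(m:ℝ)+1)^2 := by
  unfold lam
  have h0 : (0:ℝ) ≤ 2*(m:ℝ)+1 := by positivity
  rw [← Real.rpow_natCast, ← Real.rpow_mul h0]
  norm_num

theorem lam_tendsto : Tendsto lam atTop atTop := by
  have h1 : Tendsto (fun m : ℕ => 2*(m:ℝ)+1) atTop atTop := by
    apply tendsto_atTop_add_const_right
    exact Tendsto.const_mul_atTop (by norm_num) tendsto_natCast_atTop_atTop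
  exact (tendsto_rpow_atTop (by norm_num : (0:ℝ) < 2/3)).comp h1

theorem x_tendsto (u : ℝ) (hu : 0 ≤ u) :
    Tendsto (fun m => (⌊u * lam m⌋₊ : ℝ) / lam m) atTop (𝓝 u) :=
  (tendsto_nat_floor_mul_div_atTop hu).comp lam_tendsto

theorem r_tendsto : Tendsto (fun m : ℕ => lam m ^ 3 / ((2*(m:ℝ)+1)*(2*m+2))) atTop (𝓝 1) := by
  have h1 : ∀ m : ℕ, lam m ^ 3 / ((2*(m:ℝ)+1)*(2*m+2)) = 1 - (1/2) * (1 / ((m:ℝ)+1)) := by
    intro m
    rw [lam_cube]
    have h0 : (m:ℝ) + 1 ≠ 0 := by positivity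
    have h2 : 2*(m:ℝ)+1 ≠ 0 := by positivity
    have h3 : 2*(m:ℝ)+2 ≠ 0 := by positivity
    field_simp
    ring
  simp only [h1]
  have h2 := tendsto_one_div_add_atTop_nhds_zero_nat (𝕜 := ℝ)
  have h3 := (h2.const_mul (1/2)).const_sub 1
  simpa using h3

theorem pointwise (u : ℝ) (hu : 0 ≤ u) :
    Tendsto (fun m => tr m ⌊u * lam m⌋₊) atTop (𝓝 (exp (-u^3))) := by
  set s : ℕ → ℕ := fun m => ⌊u * lam m⌋₊ with hs
  set x : ℕ → ℝ := fun m => (s m : ℝ) / lam m with hx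
  have hxt : Tendsto x atTop (𝓝 u) := x_tendsto u hu
  set r : ℕ → ℝ := fun m => lam m ^ 3 / ((2*(m:ℝ)+1)*(2*m+2)) with hr
  have hrt : Tendsto r atTop (𝓝 1) := r_tendsto
  have hit : Tendsto (fun m => (lam m)⁻¹) atTop (𝓝 0) := lam_tendsto.inv_tendsto_atTop
  have hA : ∀ m, (((s m:ℝ)^3 - s m) / ((2*(m:ℝ)+1)*(2*m+2))) =
      x m ^ 3 * r m - x m * r m * ((lam m)⁻¹)^2 := by
    intro m
    have h1 := (lam_pos m).ne'
    have h2 : (2*(m:ℝ)+1) ≠ 0 := by positivity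
    have h3 : (2*(m:ℝ)+2) ≠ 0 := by positivity
    simp only [hx, hr]
    field_simp
  have hB : ∀ m, 4*(s m:ℝ)^2 / ((2*(m:ℝ)+1)*(2*m+2)) = 4 * x m ^ 2 * r m * (lam m)⁻¹ := by
    intro m
    have h1 := (lam_pos m).ne'
    have h2 : (2*(m:ℝ)+1) ≠ 0 := by positivity
    have h3 : (2*(m:ℝ)+2) ≠ 0 := by positivity
    simp only [hx, hr]
    field_simp
  have hAt : Tendsto (fun m => (((s m:ℝ)^3 - s m) / ((2*(m:ℝ)+1)*(2*m+2)))) atTop (𝓝 (u^3)) := by
    simp only [hA]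
    have := ((hxt.pow 3).mul hrt).sub ((hxt.mul hrt).mul (hit.pow 2))
    simpa using this
  have hBt : Tendsto (fun m => 4*(s m:ℝ)^2 / ((2*(m:ℝ)+1)*(2*m+2))) atTop (𝓝 0) := by
    simp only [hB]
    have := (((hxt.pow 2).const_mul 4).mul hrt).mul hit
    simpa using this
  have hlt : ∀ᶠ m : ℕ in atTop, 4*(s m:ℝ)^2 < (2*(m:ℝ)+1)*(2*m+2) := by
    filter_upwards [hBt.eventually_lt_const (show (0:ℝ) < 1 by norm_num)] with m hm
    have hc : (0:ℝ) < (2*(m:ℝ)+1)*(2*m+2) := by positivity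
    rwa [div_lt_one hc] at hm
  have hsm : ∀ᶠ m : ℕ in atTop, s m ≤ m := by
    filter_upwards [hlt] with m hm
    by_contra h
    have h1 : (m:ℝ) + 1 ≤ s m := by exact_mod_cast (not_le.1 h)
    have h0 : (0:ℝ) ≤ m := Nat.cast_nonneg _
    nlinarith
  refine tendsto_of_tendsto_of_tendsto_of_le_of_le'
    (g := fun m => exp (-(((s m:ℝ)^3 - s m) / ((2*(m:ℝ)+1)*(2*m+2) - 4*(s m:ℝ)^2))))
    (h := fun m => exp (-(((s m:ℝ)^3 - s m) / ((2*(m:ℝ)+1)*(2*m+2))))) ?_ ?_ ?_ ?_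
  · apply (Real.continuous_exp.tendsto _).comp
    apply Tendsto.neg
    have h2 : ∀ m, (((s m:ℝ)^3 - s m) / ((2*(m:ℝ)+1)*(2*m+2) - 4*(s m:ℝ)^2)) =
        (((s m:ℝ)^3 - s m) / ((2*(m:ℝ)+1)*(2*m+2))) / (1 - 4*(s m:ℝ)^2 / ((2*(m:ℝ)+1)*(2*m+2))) := by
      intro m
      have h2 : (2*(m:ℝ)+1)*(2*m+2) ≠ 0 := by positivity
      rw [div_div]
      congr 1
      field_simp
    simp only [h2]
    have h3 := hAt.div (hBt.const_sub 1) (by norm_num)
    rw [sub_zero, div_one] at h3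
    exact h3
  · exact (Real.continuous_exp.tendsto _).comp hAt.neg
  · filter_upwards [hlt] with m hm
    exact tr_ge m (s m) hm (s m) le_rfl
  · filter_upwards [hsm] with m hm
    exact tr_le m (s m) hm

theorem dom (m : ℕ) (u : ℝ) (hu : 0 ≤ u) : tr m ⌊u * lam m⌋₊ ≤ exp (3 - u) := by
  set s := ⌊u * lam m⌋₊ with hs
  by_cases hsm : s ≤ m
  · refine (tr_le m s hsm).trans (Real.exp_le_exp.2 ?_)
    have hc : (0:ℝ) < (2*(m:ℝ)+1)*(2*m+2) := by positivity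
    have hs0 : (0:ℝ) ≤ s := Nat.cast_nonneg _
    have h0 : 0 ≤ ((s:ℝ)^3 - s) / ((2*(m:ℝ)+1)*(2*m+2)) := by
      apply div_nonneg _ hc.le
      rcases Nat.eq_zero_or_pos s with h | h
      · rw [h]; simp
      · have : (1:ℝ) ≤ s := by exact_mod_cast h
        nlinarith [mul_nonneg hs0 (sub_nonneg.2 (one_le_pow₀ (n := 2) this))]
    by_cases h3 : u ≤ 3
    · linarith
    · push Not at h3
      have hl := lam_ge m
      have h4 : u * lam m < s + 1 := Nat.lt_floor_add_one _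
      have h5 : (u - 2) * lam m ≤ s - 1 := by nlinarith
      have h6 : 0 ≤ (u - 2) * lam m := by
        apply mul_nonneg (by linarith) (lam_pos m).le
      have h7 : ((u - 2) * lam m)^3 ≤ ((s:ℝ) - 1)^3 := pow_le_pow_left₀ h6 h5 3
      have h8 : ((s:ℝ) - 1)^3 ≤ (s:ℝ)^3 - s := by
        have : (1:ℝ) ≤ s := by nlinarith
        nlinarith [mul_nonneg (sub_nonneg.2 this) (sub_nonneg.2 this)]
      rw [mul_pow, lam_cube] at h7
      have h9 : (u - 3) * ((2*(m:ℝ)+1)*(2*m+2)) ≤ (s:ℝ)^3 - s := by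
        have h10 : (0:ℝ) ≤ (2*(m:ℝ)+1)^2 := by positivity
        have h11 : 2 * (u - 3) ≤ (u-2)^3 := by
          nlinarith [mul_nonneg (show 0 ≤ u - 2 by linarith) (sq_nonneg (u - 3)),
            mul_nonneg (show 0 ≤ u - 2 by linarith) (show 0 ≤ u - 3 by linarith)]
        have h12 : (2*(m:ℝ)+1)*(2*m+2) ≤ 2 * (2*(m:ℝ)+1)^2 := by
          have : (0:ℝ) ≤ m := Nat.cast_nonneg _
          nlinarith
        have h13 : (u - 3) * ((2*(m:ℝ)+1)*(2*m+2)) ≤ (u - 3) * (2 * (2*(m:ℝ)+1)^2) :=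
          mul_le_mul_of_nonneg_left h12 (by linarith)
        have h14 : 2 * (u - 3) * (2*(m:ℝ)+1)^2 ≤ (u-2)^3 * (2*(m:ℝ)+1)^2 :=
          mul_le_mul_of_nonneg_right h11 h10
        linarith
      have h15 : u - 3 ≤ ((s:ℝ)^3 - s) / ((2*(m:ℝ)+1)*(2*m+2)) := by
        rw [le_div_iff₀ hc]; exact h9
      linarith
  · rw [tr_gt m s (by omega)]
    exact (exp_pos _).le

/-- integral of a function of the integer part -/
theorem floor_int (h : ℕ → ℝ) (N : ℕ) (hN : ∀ s, N ≤ s → h s = 0) :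
    ∫ v in Set.Ioi (0:ℝ), h ⌊v⌋₊ = ∑ s ∈ range N, h s := by
  rw [← integral_Ici_eq_integral_Ioi]
  have h1 : ∀ v ∈ Set.Ici (0:ℝ), h ⌊v⌋₊ =
      ∑ s ∈ range N, (Set.Ico (s:ℝ) (s+1)).indicator (fun _ => h s) v := by
    intro v hv
    have hv0 : (0:ℝ) ≤ v := hv
    have h2 : ∀ s : ℕ, (Set.Ico (s:ℝ) (s+1)).indicator (fun _ => h s) v =
        if s = ⌊v⌋₊ then h ⌊v⌋₊ else 0 := by
      intro s
      by_cases hsv : s = ⌊v⌋₊
      · rw [if_pos hsv, Set.indicator_of_mem, hsv]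
        rw [hsv]
        exact ⟨Nat.floor_le hv0, Nat.lt_floor_add_one v⟩
      · rw [if_neg hsv, Set.indicator_of_notMem]
        rintro ⟨h3, h4⟩
        apply hsv
        symm
        rw [Nat.floor_eq_iff hv0]
        exact ⟨h3, h4⟩
    simp only [h2]
    rw [Finset.sum_ite_eq']
    split_ifs with h3
    · rfl
    · apply hN
      rw [Finset.mem_range, not_lt] at h3
      exact h3
  rw [setIntegral_congr_fun measurableSet_Ici h1, integral_finsetSum]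
  · refine Finset.sum_congr rfl fun s _ => ?_
    rw [setIntegral_indicator measurableSet_Ico]
    have h2 : Set.Ici (0:ℝ) ∩ Set.Ico (s:ℝ) (s+1) = Set.Ico (s:ℝ) (s+1) := by
      apply Set.inter_eq_right.2
      rintro v ⟨h3, h4⟩
      exact le_trans (Nat.cast_nonneg s) h3
    rw [h2, setIntegral_const]
    simp
  · intro s _
    refine (integrable_indicator_iff measurableSet_Ico).2 (integrableOn_const ?_ (by simp))
    exact ne_of_lt (lt_of_le_of_lt (Measure.restrict_apply_le _ _) (by simp))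

end Pool.Agent.Zk36.NV
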