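import Pool.Agent.Zk36.NV.Uniq

/-! Existence: the explicit solution, by a differential equation. -/

set_option autoImplicit false

namespace Pool.Agent.Zk36.NV

open Pool.Agent.H988R2.Perc hiding X
open Finset Polynomial

/-- the derivation `x (1-x) d/dx` -/
noncomputable def dl (P : ℂ[X]) : ℂ[X] := X * (1 - X) * derivative P

theorem dl_add (P Q : ℂ[X]) : dl (P + Q) = dl P + dl Q := by
  unfold dl; rw [derivative_add]; ring

theorem dl_sub (P Q : ℂ[X]) : dl (P - Q) = dl P - dl Q := by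
  unfold dl; rw [derivative_sub]; ring

theorem dl_mul (P Q : ℂ[X]) : dl (P * Q) = dl P * Q + P * dl Q := by
  unfold dl; rw [derivative_mul]; ring

theorem dl_C (a : ℂ) : dl (C a) = 0 := by unfold dl; simp

theorem dl_one : dl 1 = 0 := by unfold dl; simp

theorem dl_X : dl X = X * (1 - X) := by unfold dl; simp

theorem dl_sum {ι : Type*} (s : Finset ι) (f : ι → ℂ[X]) : dl (∑ i ∈ s, f i) = ∑ i ∈ s, dl (f i) := by
  unfold dl; rw [derivative_sum, Finset.mul_sum]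

theorem dl_Xpow (a : ℕ) : dl (X^a) = C (a:ℂ) * (1 - X) * X^a := by
  induction a with
  | zero => rw [pow_zero, dl_one]; simp
  | succ a ih => rw [pow_succ, dl_mul, ih, dl_X]; push_cast; rw [C_add, C_1]; ring

theorem dl_Ypow (b : ℕ) : dl ((1 - X)^b) = - (C (b:ℂ) * X * (1 - X)^b) := by
  induction b with
  | zero => rw [pow_zero, dl_one]; simp
  | succ b ih => rw [pow_succ, dl_mul, ih, dl_sub, dl_one, dl_X]; push_cast; rw [C_add, C_1]; ring

/-- the monomial -/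
noncomputable def mn (a b : ℕ) : ℂ[X] := X^a * (1 - X)^b

theorem dl_mn (a b : ℕ) : dl (mn a b) = (C (a:ℂ) * (1 - X) - C (b:ℂ) * X) * mn a b := by
  unfold mn; rw [dl_mul, dl_Xpow, dl_Ypow]; ring

/-- the differential operator -/
noncomputable def LL (m : ℕ) (P : ℂ[X]) : ℂ[X] :=
  dl (dl P) + (1 + C (4*(m:ℂ)+2) * X) * dl P +
    (C (2*(m:ℂ)*(2*m+1)) * X^2 + C (4*(m:ℂ)+2) * X - C ((2*(m:ℂ)+1)*(2*m+2)) * (1 - X + X^2)) * P

theorem LL_add (m : ℕ) (P Q : ℂ[X]) : LL m (P + Q) = LL m P + LL m Q := by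
  unfold LL; rw [dl_add, dl_add]; ring

theorem LL_sub (m : ℕ) (P Q : ℂ[X]) : LL m (P - Q) = LL m P - LL m Q := by
  unfold LL; rw [dl_sub, dl_sub]; ring

theorem LL_C (m : ℕ) (a : ℂ) (P : ℂ[X]) : LL m (C a * P) = C a * LL m P := by
  unfold LL; rw [dl_mul, dl_C, zero_mul, zero_add, dl_mul, dl_C, zero_mul, zero_add]; ring

theorem LL_sum {ι : Type*} (m : ℕ) (s : Finset ι) (f : ι → ℂ[X]) :
    LL m (∑ i ∈ s, f i) = ∑ i ∈ s, LL m (f i) := by
  classical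
  induction s using Finset.induction_on with
  | empty =>
    have := LL_C m 0 0
    simpa using this
  | insert a s ha ih => rw [Finset.sum_insert ha, LL_add, ih, Finset.sum_insert ha]

theorem LL_mn (m a b : ℕ) : LL m (mn a b) =
    ((C (a:ℂ) * (1 - X) - C (b:ℂ) * X)^2 - (C (a:ℂ) + C (b:ℂ)) * (X * (1 - X)) +
      (1 + C (4*(m:ℂ)+2) * X) * (C (a:ℂ) * (1 - X) - C (b:ℂ) * X) +
      (C (2*(m:ℂ)*(2*m+1)) * X^2 + C (4*(m:ℂ)+2) * X -
        C ((2*(m:ℂ)+1)*(2*m+2)) * (1 - X + X^2))) * mn a b := by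
  unfold LL
  rw [dl_mn, dl_mul, dl_mn, dl_sub, dl_mul, dl_mul, dl_C, dl_C, dl_sub, dl_one, dl_X]
  ring

noncomputable def al (m s : ℕ) : ℂ := (s:ℂ)*(s+1) - (2*m+1)*(2*m+2)
noncomputable def be (m s : ℕ) : ℂ := (2*(m:ℂ)+1)*(2*m+2) - 2*(s+1)*(2*s+1)

theorem LL_w (m s : ℕ) : LL m (mn s (2*m+2+s)) =
    C (al m s) * mn s (2*m+2+s) + C (be m s) * mn (s+1) (2*m+2+(s+1)) := by
  have h1 : mn (s+1) (2*m+2+(s+1)) = X * (1 - X) * mn s (2*m+2+s) := by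
    unfold mn; rw [pow_succ, ← add_assoc, pow_succ]; ring
  rw [LL_mn, h1]
  unfold al be
  simp only [Nat.cast_add, Nat.cast_mul, Nat.cast_ofNat, C_add, C_mul, C_sub, C_1, map_ofNat]
  ring

theorem LL_v (m s : ℕ) (hs : s ≤ m) : LL m (mn s (2*(m-s))) =
    C (al m s) * mn s (2*(m+1-s)) - C (be m s) * mn (s+1) (2*(m+1-(s+1))) := by
  have h1 : mn (s+1) (2*(m+1-(s+1))) = X * mn s (2*(m-s)) := by
    unfold mn
    rw [show m+1-(s+1) = m - s by omega, pow_succ]; ring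
  have h2 : mn s (2*(m+1-s)) = (1 - X)^2 * mn s (2*(m-s)) := by
    unfold mn
    rw [show 2*(m+1-s) = 2*(m-s) + 2 by omega, pow_add]; ring
  rw [LL_mn, h1, h2]
  unfold al be
  obtain ⟨d, rfl⟩ : ∃ d, m = s + d := ⟨m - s, by omega⟩
  rw [show s + d - s = d by omega]
  simp only [Nat.cast_add, Nat.cast_mul, Nat.cast_ofNat, C_add, C_mul, C_sub, C_1, map_ofNat]
  ring

/-- the explicit solution -/
noncomputable def tr (m s : ℕ) : ℝ :=
  ∏ j ∈ range s, (((2*(m:ℝ)+1)*(2*m+2) - 2*(j+1)*(2*j+1)) / ((2*(m:ℝ)+1)*(2*m+2) - (j+1)*(j+2)))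

noncomputable def tc (m s : ℕ) : ℂ := (tr m s : ℂ)

theorem tr_zero (m : ℕ) : tr m 0 = 1 := by simp [tr]

theorem den_pos {m j : ℕ} (h : j < 2*m) : 0 < (2*(m:ℝ)+1)*(2*m+2) - (j+1)*(j+2) := by
  have : (j:ℝ) + 1 ≤ 2 * m := by exact_mod_cast h
  have hj : (0:ℝ) ≤ j := Nat.cast_nonneg _
  nlinarith

theorem tc_rec (m s : ℕ) (hs : s < m) : tc m (s+1) * al m (s+1) + tc m s * be m s = 0 := by
  have h0 := (den_pos (m := m) (j := s) (by omega)).ne'
  have h1 : tr m (s+1) * (((s:ℝ)+1)*(s+2) - (2*m+1)*(2*m+2)) +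
      tr m s * ((2*(m:ℝ)+1)*(2*m+2) - 2*(s+1)*(2*s+1)) = 0 := by
    have h2 : tr m (s+1) = tr m s * ((((2*(m:ℝ)+1)*(2*m+2) - 2*(s+1)*(2*s+1)) /
        ((2*(m:ℝ)+1)*(2*m+2) - (s+1)*(s+2)))) := by
      unfold tr
      rw [Finset.prod_range_succ]
    have h3 := div_mul_cancel₀ ((2*(m:ℝ)+1)*(2*m+2) - 2*(s+1)*(2*s+1)) h0
    rw [h2]
    linear_combination (-tr m s) * h3
  have h2 := congrArg (fun x : ℝ => (x : ℂ)) h1
  unfold tc al be
  push_cast at h2 ⊢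
  linear_combination h2

theorem be_m (m : ℕ) : be m m = 0 := by unfold be; ring

theorem tel (m : ℕ) (W : ℕ → ℂ[X]) : ∀ n ≤ m, ∑ s ∈ range (n+1), C (tc m s) *
    (C (al m s) * W s + C (be m s) * W (s+1)) =
      C (al m 0) * W 0 + C (tc m n * be m n) * W (n+1) := by
  intro n
  induction n with
  | zero =>
    intro _
    rw [Finset.sum_range_one]
    unfold tc
    rw [tr_zero]
    simp
  | succ n ih =>
    intro hn
    rw [Finset.sum_range_succ, ih (by omega)]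
    have h := congrArg C (tc_rec m n (by omega))
    rw [C_add, C_mul, C_mul, C_0] at h
    rw [C_mul, C_mul]
    linear_combination (W (n+1)) * h

noncomputable def HH (m : ℕ) : ℂ[X] := ∑ s ∈ range (m+1), C (tc m s) *
  (mn s (2*m+2+s) - C ((-1)^s) * mn s (2*(m-s)))

theorem LL_HH (m : ℕ) : LL m (HH m) = 0 := by
  unfold HH
  rw [LL_sum]
  have h1 := tel m (fun s => mn s (2*m+2+s)) m le_rfl
  have h2 := tel m (fun s => C ((-1)^s) * mn s (2*(m+1-s))) m le_rfl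
  rw [be_m, mul_zero, C_0, zero_mul, add_zero] at h1 h2
  have h3 : ∀ s ∈ range (m+1), LL m (C (tc m s) * (mn s (2*m+2+s) - C ((-1)^s) * mn s (2*(m-s)))) =
      C (tc m s) * (C (al m s) * mn s (2*m+2+s) + C (be m s) * mn (s+1) (2*m+2+(s+1))) -
      C (tc m s) * (C (al m s) * (C ((-1)^s) * mn s (2*(m+1-s))) +
        C (be m s) * (C ((-1)^(s+1)) * mn (s+1) (2*(m+1-(s+1))))) := by
    intro s hs
    rw [Finset.mem_range] at hs
    rw [LL_C, LL_sub, LL_C, LL_w, LL_v m s (by omega), pow_succ, C_mul, C_neg, C_1]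
    ring
  rw [Finset.sum_congr rfl h3, Finset.sum_sub_distrib, h1, h2]
  simp only [mn, pow_zero, C_1, one_mul, Nat.sub_zero, add_zero]
  rw [show 2*(m+1) = 2*m+2 by ring, sub_self]

theorem LL_Xpow (m k : ℕ) (K : ℂ[X]) : ∃ M : ℂ[X], LL m (X^k * K) = X^k * M ∧
    M.coeff 0 = ((k:ℂ)*(k+1) - (2*m+1)*(2*m+2)) * K.coeff 0 := by
  have h0 : ∀ P : ℂ[X], (dl P).coeff 0 = 0 := by
    intro P; unfold dl; rw [mul_assoc]; simp
  refine ⟨C (k:ℂ) * (1 - X) * (C (k:ℂ) * (1 - X) * K + dl K) + dl (C (k:ℂ) * (1 - X) * K + dl K) +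
    (1 + C (4*(m:ℂ)+2) * X) * (C (k:ℂ) * (1 - X) * K + dl K) +
    (C (2*(m:ℂ)*(2*m+1)) * X^2 + C (4*(m:ℂ)+2) * X - C ((2*(m:ℂ)+1)*(2*m+2)) * (1 - X + X^2)) * K,
    ?_, ?_⟩
  · unfold LL
    have h1 : dl (X^k * K) = X^k * (C (k:ℂ) * (1 - X) * K + dl K) := by
      rw [dl_mul, dl_Xpow]; ring
    rw [h1, dl_mul, dl_Xpow]
    ring
  · have h1 := h0 (C (k:ℂ) * (1 - X) * K + dl K)
    have h2 := h0 K
    rw [coeff_zero_eq_eval_zero] at *
    rw [eval_add, eval_add, eval_add, h1]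
    simp only [eval_add, eval_mul, eval_sub, eval_pow, eval_C, eval_X, eval_one, h2]
    rw [coeff_zero_eq_eval_zero]
    ring

theorem X_dvd_HH (m : ℕ) : ∀ k ≤ 2*m+1, X^k ∣ HH m := by
  intro k
  induction k with
  | zero => intro _; simp
  | succ k ih =>
    intro hk
    obtain ⟨K, hK⟩ := ih (by omega)
    obtain ⟨M, hM, hM0⟩ := LL_Xpow m k K
    have h1 := LL_HH m
    rw [hK, hM] at h1
    have h2 : M = 0 := (mul_eq_zero.1 h1).resolve_left (pow_ne_zero _ X_ne_zero)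
    rw [h2, coeff_zero] at hM0
    have h3 : (k:ℂ)*(k+1) - (2*m+1)*(2*m+2) ≠ 0 := by
      intro h
      have h4 : (k:ℂ)*(k+1) = (2*m+1)*(2*m+2) := by linear_combination h
      have h5 : k*(k+1) = (2*m+1)*(2*m+2) := by exact_mod_cast h4
      have : k*(k+1) < (2*m+1)*(2*m+2) := by
        have h6 : k < 2*m+1 := by omega
        nlinarith
      omega
    have h4 : K.coeff 0 = 0 := (mul_eq_zero.1 hM0.symm).resolve_left h3
    obtain ⟨K', hK'⟩ := X_dvd_iff.2 h4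
    exact ⟨K', by rw [hK, hK', pow_succ]; ring⟩

theorem HH_deg (m : ℕ) : (HH m).natDegree ≤ 4*m+2 := by
  unfold HH
  refine natDegree_sum_le_of_forall_le _ _ fun s hs => ?_
  rw [Finset.mem_range] at hs
  have h1 : ∀ a b : ℕ, (mn a b).natDegree ≤ a + b := by
    intro a b
    unfold mn
    refine natDegree_mul_le.trans (add_le_add (natDegree_X_pow_le a) ?_)
    have : (1 - X : ℂ[X]).natDegree ≤ 1 := by compute_degree
    have := (natDegree_pow_le (p := (1 - X : ℂ[X])) (n := b)).trans (Nat.mul_le_mul_left b this)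
    omega
  refine (natDegree_C_mul_le _ _).trans ((natDegree_sub_le _ _).trans (max_le ?_ ?_))
  · have := h1 s (2*m+2+s); omega
  · refine (natDegree_C_mul_le _ _).trans ?_
    have := h1 s (2*(m-s)); omega

theorem HH_hom (m : ℕ) (x : ℂ) (hx : x - q^2 ≠ 0) :
    (x - q^2)^(4*m+2) * (HH m).eval ((-q*(x-1))/(x - q^2)) = q^(m+1) * (GG m (tc m)).eval x := by
  set Q := x - q^2 with hQ
  set P := -q*(x-1) with hP
  have hQP : Q - P = -q^2 * (x - q) := by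
    rw [hQ, hP]
    linear_combination (-1 + x) * (q_spec) * 1 + (-1 : ℂ) * q_cube * 1 + 0
  have h1 : 1 - P/Q = (-q^2 * (x-q)) / Q := by
    rw [← hQP, sub_div, div_self hx]
  have hq2 : ∀ k : ℕ, (q^2)^(2*k) = q^k := by
    intro k
    rw [← pow_mul, show 2*(2*k) = 3*k + k by ring, pow_add, q3k, one_mul]
  unfold GG HH
  rw [eval_finsetSum, Finset.mul_sum, eval_sub, eval_mul, eval_mul, eval_mul, RR_eval, RT_eval,
    mul_sub]
  simp only [eval_pow, eval_sub, eval_X, eval_C]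
  rw [Finset.mul_sum, Finset.mul_sum, Finset.mul_sum, Finset.mul_sum, Finset.mul_sum,
    ← Finset.sum_sub_distrib]
  refine Finset.sum_congr rfl fun s hs => ?_
  rw [Finset.mem_range] at hs
  obtain ⟨d, rfl⟩ : ∃ d, m = s + d := ⟨m - s, by omega⟩
  rw [show s + d - s = d by omega]
  simp only [mn, eval_mul, eval_C, eval_sub, eval_pow, eval_X, eval_one]
  rw [h1, ← hQ]
  have e1 : Q^(4*(s+d)+2) * ((P/Q)^s * ((-q^2*(x-q))/Q)^(2*(s+d)+2+s)) =
      (P * (-q^2*(x-q)))^s * (-q^2*(x-q))^(2*(s+d)+2) * Q^(2*d) := by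
    rw [div_pow, div_pow, mul_pow P]
    have : Q^(4*(s+d)+2) = Q^s * Q^(2*(s+d)+2+s) * Q^(2*d) := by
      rw [← pow_add, ← pow_add]; congr 1; ring
    rw [this, pow_add _ (2*(s+d)+2) s]
    field_simp
    ring
  have e2 : Q^(4*(s+d)+2) * ((P/Q)^s * ((-q^2*(x-q))/Q)^(2*d)) =
      (P * Q)^s * (-q^2*(x-q))^(2*d) * Q^(2*(s+d)+2) := by
    rw [div_pow, div_pow, mul_pow P]
    have : Q^(4*(s+d)+2) = Q^s * Q^s * Q^(2*d) * Q^(2*(s+d)+2) := by
      rw [← pow_add, ← pow_add, ← pow_add]; congr 1; ring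
    rw [this]
    field_simp
  have e3 : P * (-q^2*(x-q)) = (x-1)*(x-q) := by
    rw [hP]; linear_combination ((x-1)*(x-q)) * q_cube
  have e4 : P * Q = -1 * (q * (Q * (x-1))) := by rw [hP]; ring
  have e5 : (-q^2*(x-q))^(2*(s+d)+2) = q^(s+d+1) * (x-q)^(2*(s+d)+2) := by
    rw [mul_pow, show (-q^2)^(2*(s+d)+2) = (q^2)^(2*(s+d+1)) by
      rw [show 2*(s+d)+2 = 2*(s+d+1) by ring, pow_mul, pow_mul]; congr 1; ring, hq2]
  have e6 : (-q^2*(x-q))^(2*d) = q^d * (x-q)^(2*d) := by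
    rw [mul_pow, show (-q^2)^(2*d) = (q^2)^(2*d) by rw [pow_mul, pow_mul]; congr 1; ring, hq2]
  have e7 : ((-1:ℂ)^s) * (-1)^s = 1 := by rw [← mul_pow]; simp
  have key : Q^(4*(s+d)+2) * (tc (s+d) s * ((P/Q)^s * ((-q^2*(x-q))/Q)^(2*(s+d)+2+s) -
      (-1)^s * ((P/Q)^s * ((-q^2*(x-q))/Q)^(2*d)))) =
      tc (s+d) s * (((x-1)*(x-q))^s * (q^(s+d+1) * (x-q)^(2*(s+d)+2)) * Q^(2*d) -
        (q * (Q * (x-1)))^s * (q^d * (x-q)^(2*d)) * Q^(2*(s+d)+2)) := by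
    have a1 : Q^(4*(s+d)+2) * (tc (s+d) s * ((P/Q)^s * ((-q^2*(x-q))/Q)^(2*(s+d)+2+s) -
      (-1)^s * ((P/Q)^s * ((-q^2*(x-q))/Q)^(2*d)))) =
      tc (s+d) s * (Q^(4*(s+d)+2) * ((P/Q)^s * ((-q^2*(x-q))/Q)^(2*(s+d)+2+s)) -
      (-1)^s * (Q^(4*(s+d)+2) * ((P/Q)^s * ((-q^2*(x-q))/Q)^(2*d)))) := by ring
    rw [a1, e1, e2, e3, e4, e5, e6, mul_pow (-1 : ℂ)]
    linear_combination (-tc (s+d) s * ((q * (Q * (x-1)))^s * (q^d * (x-q)^(2*d)) * Q^(2*(s+d)+2))) * e7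
  rw [key, mul_pow q]
  have e8 : q^(s+d+1) * q^2 = q^s * q^d := by
    rw [← pow_add, ← pow_add, show s + d + 1 + 2 = 3 + (s + d) by ring, pow_add, q_cube, one_mul]
  linear_combination (-tc (s+d) s * (Q * (x-1))^s * (x-q)^(2*d) * Q^(2*(s+d)+2) * (-1) * 1 * (-1)) * (-1) * e8 * (-1) * (-1)

end Pool.Agent.Zk36.NV
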