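import Pool.Agent.H988R2.Perc.Defs

/-! The exploration path in the half-infinite strip: definitions. -/

set_option autoImplicit false

namespace Pool.Agent.Zk36.NV

open Pool.Agent.H988R2.Perc hiding X

/-- the half-infinite strip of width `L` -/
def Strip (L : ℕ) (x : ℤ × ℤ) : Prop := 0 ≤ x.1 - x.2 ∧ x.1 - x.2 ≤ L ∧ x.1 + x.2 ≤ 1

/-- the four directions, counterclockwise -/
def vec (d : Fin 4) : ℤ × ℤ :=
  match d with
  | 0 => (1, 0)
  | 1 => (0, 1)
  | 2 => (-1, 0)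
  | 3 => (0, -1)

open Classical in
/-- one step of the exploration path -/
noncomputable def step (L : ℕ) (ω : Conf) (s : (ℤ × ℤ) × Fin 4) : (ℤ × ℤ) × Fin 4 :=
  if s.1.1 - s.1.2 = L ∧ s.2 = 3 then (s.1 + (-1, -1), 1)
  else if Strip L (s.1 + vec s.2) ∧ OpenAdj ω s.1 (s.1 + vec s.2) then (s.1 + vec s.2, s.2 + 3)
  else (s.1, s.2 + 1)

/-- the exploration path, started at the corner -/
noncomputable def path (L : ℕ) (ω : Conf) (n : ℕ) : (ℤ × ℤ) × Fin 4 :=
  (step L ω)^[n] ((((L:ℤ) + 1) / 2, (1 - (L:ℤ)) / 2), 2)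

/-- the vertices of the end -/
def ev (i : ℕ) : ℤ × ℤ := ((i:ℤ) + 1, -(i:ℤ))

/-- `x` is joined to the right side of the strip by an open path inside the strip -/
def Conn (L : ℕ) (ω : Conf) (x : ℤ × ℤ) : Prop :=
  ∃ z : ℤ × ℤ, z.1 - z.2 = (L:ℤ) ∧ Relation.ReflTransGen (fun a b => Strip L a ∧ Strip L b ∧ OpenAdj ω a b) x z

end Pool.Agent.Zk36.NV
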