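import Pool.Agent.Zk36.NV.Fun

/-! Exchange of two pairs of parameters with the same product. -/

set_option autoImplicit false

namespace Pool.Agent.Zk36.NV

open Pool.Agent.H988R2.Perc Finset

theorem pair_alg1 (q a A b B : ℂ) (h : a * A = b * B) :
    ((q*a - q^2*b) * (q*A - q^2*B) * (q*B - q^2*a) + (B - a) * (q*B - q^2*A) * (b - a)
      + (B - a) * (B - A) * (q*a - q^2*b)) * (q*b - q^2*A) =
    (q*A - q^2*b) * (q*a - q^2*b) * (q*A - q^2*B) * (q*a - q^2*B) := by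
  linear_combination (q^8*b*B - 1*q^7*a*B - 1*q^7*A*b + q^6*a*A - 1*q^6*b*B + q^5*a*B + q^5*A*b - 1*q^4*A*B - 1*q^3*a*A - 1*q^3*a*b + q^3*A*B + q^3*b*B + q^2*a*b - 1*q^2*b*B) * h

theorem pair_alg2 (q a A b B : ℂ) (h : a * A = b * B) :
    ((q*a - q^2*b) * (q*A - q^2*B) * (q*B - q^2*a) + (B - a) * (q*B - q^2*A) * (b - a)
      + (B - a) * (B - A) * (q*a - q^2*b)) * (b - A) =
    - ((q*A - q^2*b) * (B - a) * (q*B - q^2*A) * (q*b - q^2*a)) := by
  linear_combination (q^6*a*b - 1*q^5*a*A - 1*q^5*a*B - 1*q^5*A*b + q^5*A*B - 1*q^5*b*B + q^4*a*A - 1*q^4*a*b + q^4*a*B + q^4*A*b + q^4*b*B - 1*q^3*A*B + q^2*a*A - 1*q^2*a*b - 1*q^2*A*B + q^2*b*B - 1*q*a*A + q*a*b + q*A*B - 1*q*b*B) * h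

/-- Two pairs with the same product can be exchanged. -/
theorem pair_swap (φ : St → ℂ) (u v : List ℂ) (a A b B : ℂ) (hp : a * A = b * B)
    (hφ1 : ∀ R, φ (St.act u.length R) = φ R) (hφ2 : ∀ R, φ (St.act (u.length + 2) R) = φ R)
    (hev : Even (u.length + v.length))
    (n1 : q * A - q^2 * b ≠ 0) (n2 : q * a - q^2 * b ≠ 0) (n3 : q * A - q^2 * B ≠ 0)
    (n4 : q * a - q^2 * B ≠ 0) :
    PP φ (u ++ b :: B :: a :: A :: v) = PP φ (u ++ a :: A :: b :: B :: v) := by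
  set i := u.length with hi
  have hlen1 : ∀ x : ℂ, (u ++ [x]).length = i + 1 := by intro x; simp [hi]
  have hlen2 : ∀ x y : ℂ, (u ++ [x, y]).length = i + 2 := by intro x y; simp [hi]
  have hφ3 : ∀ R, φ (St.act (i+1) (St.act i R)) = φ R := by
    intro R
    rw [← hφ1 (St.act (i+1) (St.act i R)), act_comm3, hφ1]
  have hφ4 : ∀ R, φ (St.act (i+1) (St.act (i+2) R)) = φ R := by
    intro R
    rw [← hφ2 (St.act (i+1) (St.act (i+2) R)), act_comm3' (i+1), hφ2]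
  set ψ : St → ℂ := fun R => φ (St.act (i+1) R) with hψ
  obtain ⟨w, hw⟩ := hev
  -- step 1
  have s1 := PP_exch φ (u ++ [a]) (B :: v) A b ⟨w + 1, by rw [hlen1]; simp; omega⟩
  have t1 := PP_sym ψ (u ++ [a]) (B :: v) A b ⟨w + 1, by rw [hlen1]; simp; omega⟩
    (by intro R; rw [hlen1]; show φ _ = φ _; rw [act_idem]) n1
  rw [hlen1] at s1
  simp only [List.append_assoc, List.cons_append, List.nil_append] at s1 t1
  -- step 2
  have s2 := PP_sym φ u (A :: B :: v) a b ⟨w + 1, by simp; omega⟩ hφ1 n2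
  have t2 := PP_exch ψ u (A :: B :: v) a b ⟨w + 1, by simp; omega⟩
  have e2 : (fun R => ψ (St.act i R)) = φ := funext hφ3
  rw [← hi, e2] at t2
  -- step 3
  have s3 := PP_sym φ (u ++ [b, a]) v A B ⟨w + 1, by rw [hlen2]; omega⟩
    (by intro R; rw [hlen2]; exact hφ2 R) n3
  have t3 := PP_exch ψ (u ++ [b, a]) v A B ⟨w + 1, by rw [hlen2]; omega⟩
  have e3 : (fun R => ψ (St.act (i+2) R)) = φ := funext hφ4
  rw [hlen2, e3] at t3
  simp only [List.append_assoc, List.cons_append, List.nil_append] at s3 t3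
  -- step 4
  have s4 := PP_exch φ (u ++ [b]) (A :: v) a B ⟨w + 1, by rw [hlen1]; simp; omega⟩
  rw [hlen1] at s4
  simp only [List.append_assoc, List.cons_append, List.nil_append] at s4
  rw [s3, s2] at s4
  rw [s2] at t3
  rw [t1] at t2
  change _ = _ + (b - A) * PP ψ (u ++ a :: A :: b :: B :: v) at s1
  change _ = _ + (B - a) * PP ψ (u ++ b :: a :: B :: A :: v) at s4
  set D0 := PP φ (u ++ a :: A :: b :: B :: v)
  set D4 := PP φ (u ++ b :: B :: a :: A :: v)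
  set d := PP φ (u ++ a :: b :: A :: B :: v)
  set e0 := PP ψ (u ++ a :: A :: b :: B :: v)
  set f2 := PP ψ (u ++ b :: a :: A :: B :: v)
  set f3 := PP ψ (u ++ b :: a :: B :: A :: v)
  have k1 := pair_alg1 q a A b B hp
  have k2 := pair_alg2 q a A b B hp
  have hne : (q*A - q^2*b) * (q*a - q^2*b) * (q*A - q^2*B) * (q*a - q^2*B) ≠ 0 :=
    mul_ne_zero (mul_ne_zero (mul_ne_zero n1 n2) n3) n4
  apply mul_left_cancel₀ hne
  linear_combination ((q*A - q^2*b) * (q*a - q^2*b) * (q*A - q^2*B)) * s4 +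
    ((q*A - q^2*b) * (q*a - q^2*b) * (B - a)) * t3 +
    ((q*A - q^2*b) * (B - a) * (q*B - q^2*A)) * t2 +
    ((q*a - q^2*b) * (q*A - q^2*B) * (q*B - q^2*a) + (B - a) * (q*B - q^2*A) * (b - a)
      + (B - a) * (B - A) * (q*a - q^2*b)) * s1 + D0 * k1 + e0 * k2

end Pool.Agent.Zk36.NV
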