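import Pool.Agent.Zk36.NV.Clus

/-! Parity of the number of crossings: an open path and a dual-open path do not cross. -/

set_option autoImplicit false

namespace Pool.Agent.Zk36.NV

open Pool.Agent.H988R2.Perc hiding X
open Finset MeasureTheory Filter Topology

/-- contribution of the tile `(i,k)` at the dual vertex `(c,r)` -/
def gT (i k c r : ℤ) : ZMod 2 := if c + 1 = i ∧ r ≤ k then 1 else 0

/-- defect of the vertex `v` for the dual edge in the tile `(i,k)` -/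
def hT (i k : ℤ) (v : ℤ × ℤ) : ZMod 2 := if v.1 = i ∧ k + 1 ≤ v.2 then 1 else 0

structure FF (L : ℕ) (ω : Conf) (a w : ℤ × ℤ) (F : ℤ → ℤ → ZMod 2) : Prop where
  f1 : ∀ c r, 0 ≤ r → F c r = 0
  f2 : ∀ i k : ℤ, 1 ≤ i → i ≤ L → k ≤ -1 → ω (edgeOf i k) = false →
      ((i + k) % 2 = 1 → F (i-1) k + F i (k+1) = hT i k a + hT i k w) ∧
      ((i + k) % 2 = 0 → F i k + F (i-1) (k+1) = hT i k a + hT i k w)
  f3 : ∀ c r, (L:ℤ) ≤ c → F c r = 0
  f3' : ∀ c r, c < 0 → F c r = 0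
  f4 : ∀ r, r % 2 = 0 → F 0 r = if w.1 = 0 ∧ r ≤ w.2 then 1 else 0
  f5 : ∃ B : ℤ, B ≤ w.2 ∧ ∀ c r : ℤ, r ≤ B → 0 ≤ c → c < (L:ℤ) →
    F c r = (if a.1 ≤ c then 1 else 0) + (if w.1 ≤ c then 1 else 0)

theorem FF.base (L : ℕ) (ω : Conf) (a : ℤ × ℤ) (ha : a.1 ≠ 0) : FF L ω a a (fun _ _ => 0) := by
  have h2 : ∀ x : ZMod 2, x + x = 0 := by decide
  refine ⟨fun _ _ _ => rfl, ?_, fun _ _ _ => rfl, fun _ _ _ => rfl, ?_, ?_⟩
  · intro i k _ _ _ _
    constructor <;> intro _ <;> rw [h2, h2]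
  · intro r _
    rw [if_neg]
    exact fun h => ha h.1
  · refine ⟨a.2, le_rfl, ?_⟩
    intro c r _ _ _
    rw [h2]

/-- the parity lemma for one step -/
theorem gT_step (i0 k0 i k : ℤ) (hne : ¬ (i = i0 ∧ k = k0)) (v v' : ℤ × ℤ)
    (h : ((i0 + k0) % 2 = 1 ∧ v = (i0, k0) ∧ v' = (i0-1, k0+1)) ∨
     ((i0 + k0) % 2 = 0 ∧ v = (i0-1, k0) ∧ v' = (i0, k0+1))) :
    ((i + k) % 2 = 1 → gT i0 k0 (i-1) k + gT i0 k0 i (k+1) = hT i k v + hT i k v') ∧
      ((i + k) % 2 = 0 → gT i0 k0 i k + gT i0 k0 (i-1) (k+1) = hT i k v + hT i k v') := by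
  unfold gT hT
  rcases h with ⟨hp, rfl, rfl⟩ | ⟨hp, rfl, rfl⟩
  · constructor
    · intro hq
      dsimp only
      split_ifs <;> first | rfl | omega
    · intro hq
      dsimp only
      split_ifs <;> first | rfl | omega
  · constructor
    · intro hq
      dsimp only
      split_ifs <;> first | rfl | omega
    · intro hq
      dsimp only
      split_ifs <;> first | rfl | omega

theorem FF.add {L : ℕ} {ω : Conf} {a w w' : ℤ × ℤ} {F : ℤ → ℤ → ZMod 2} (hF : FF L ω a w F)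
    {i0 k0 : ℤ} (h1 : 1 ≤ i0) (h2 : i0 ≤ L) (h3 : k0 < 0) (ho : ω (edgeOf i0 k0) = true)
    (v v' : ℤ × ℤ) (h : ((i0 + k0) % 2 = 1 ∧ v = (i0, k0) ∧ v' = (i0-1, k0+1)) ∨
     ((i0 + k0) % 2 = 0 ∧ v = (i0-1, k0) ∧ v' = (i0, k0+1)))
    (hw : (w = v ∧ w' = v') ∨ (w = v' ∧ w' = v)) :
    FF L ω a w' (fun c r => F c r + gT i0 k0 c r) := by
  have hz : ∀ x y z : ZMod 2, x + y = z → x = z + y := by decide
  have hsum : ∀ i k, hT i k v + hT i k v' = hT i k w + hT i k w' := by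
    intro i k
    rcases hw with ⟨rfl, rfl⟩ | ⟨rfl, rfl⟩
    · rfl
    · rw [add_comm]
  have comb : ∀ A B C D H Wx Wy : ZMod 2, A + B = H + Wx → C + D = Wx + Wy →
      (A + C) + (B + D) = H + Wy := by decide
  refine ⟨?_, ?_, ?_, ?_, ?_, ?_⟩
  · intro c r hr
    show F c r + gT i0 k0 c r = 0
    rw [hF.f1 c r hr]
    unfold gT
    rw [if_neg (by omega)]
    rfl
  · intro i k a1 a2 a3 a4
    have hne : ¬ (i = i0 ∧ k = k0) := by
      rintro ⟨rfl, rfl⟩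
      rw [ho] at a4
      exact Bool.noConfusion a4
    have hg := gT_step i0 k0 i k hne v v' h
    have hf := hF.f2 i k a1 a2 a3 a4
    rw [hsum] at hg
    constructor
    · intro hp
      exact comb _ _ _ _ _ _ _ (hf.1 hp) (hg.1 hp)
    · intro hp
      exact comb _ _ _ _ _ _ _ (hf.2 hp) (hg.2 hp)
  · intro c r hc
    show F c r + gT i0 k0 c r = 0
    rw [hF.f3 c r hc]
    unfold gT
    rw [if_neg (by omega)]
    rfl
  · intro c r hc
    show F c r + gT i0 k0 c r = 0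
    rw [hF.f3' c r hc]
    unfold gT
    rw [if_neg (by omega)]
    rfl
  · intro r hr
    show F 0 r + gT i0 k0 0 r = _
    rw [hF.f4 r hr]
    unfold gT
    rcases h with ⟨hp, rfl, rfl⟩ | ⟨hp, rfl, rfl⟩ <;> rcases hw with ⟨rfl, rfl⟩ | ⟨rfl, rfl⟩ <;>
      dsimp only <;> split_ifs <;> first | rfl | omega
  · obtain ⟨B, hB, hB2⟩ := hF.f5
    refine ⟨min B k0, ?_, ?_⟩
    · rcases h with ⟨hp, rfl, rfl⟩ | ⟨hp, rfl, rfl⟩ <;> rcases hw with ⟨rfl, rfl⟩ | ⟨rfl, rfl⟩ <;>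
        dsimp only at * <;> omega
    · intro c r hr hc hc2
      show F c r + gT i0 k0 c r = _
      rw [hB2 c r (by omega) hc hc2]
      unfold gT
      have hr0 : r ≤ k0 := by omega
      rcases h with ⟨hp, rfl, rfl⟩ | ⟨hp, rfl, rfl⟩ <;> rcases hw with ⟨rfl, rfl⟩ | ⟨rfl, rfl⟩ <;>
        dsimp only <;> split_ifs <;> first | rfl | omega

theorem FF.exists (L : ℕ) (ω : Conf) (x : ℤ × ℤ) (hx : (fz x).1 ≠ 0) (z : ℤ × ℤ)
    (h : Relation.ReflTransGen (fun a b => Strip L a ∧ Strip L b ∧ OpenAdj ω a b) x z) :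
    ∃ F, FF L ω (fz x) (fz z) F := by
  induction h with
  | refl => exact ⟨_, FF.base L ω _ hx⟩
  | tail _ h2 ih =>
    rename_i b c _
    obtain ⟨F, hF⟩ := ih
    obtain ⟨s1, s2, ho⟩ := h2
    rcases open_part L (|b.1 + b.2| + |c.1 + c.2| + 1).toNat ω b c s1 s2 ho
      (Int.self_le_toNat _) with ⟨i, r, a1, a2, a3, a4, a5, a6⟩ | ⟨i, r, a1, a2, a3, a4, a5, a6⟩
    · exact ⟨_, hF.add a1 a2 a4 a5 _ _ a6 (Or.inl ⟨rfl, rfl⟩)⟩
    · exact ⟨_, hF.add a1 a2 a4 a5 _ _ a6 (Or.inr ⟨rfl, rfl⟩)⟩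

/-- the corrected function -/
structure FT (L : ℕ) (ω : Conf) (a1 : ℤ) (G : ℤ → ℤ → ZMod 2) : Prop where
  p1 : ∀ c r : ℤ, 0 ≤ r → c < (L:ℤ) → G c r = if a1 ≤ c then 1 else 0
  p1' : G L 1 = 1
  p2 : ∀ i k : ℤ, 1 ≤ i → i ≤ L → k ≤ -1 → ω (edgeOf i k) = false →
      ((i + k) % 2 = 1 → G (i-1) k = G i (k+1)) ∧ ((i + k) % 2 = 0 → G i k = G (i-1) (k+1))
  p3 : ∀ r, r % 2 = 0 → G 0 r = 0
  p3' : ∀ r, G (-1) r = 0
  p4 : ∃ B : ℤ, ∀ c r : ℤ, r ≤ B → 0 ≤ c → c ≤ (L:ℤ) → G c r = 0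

theorem FT.exists (L : ℕ) (ω : Conf) (x : ℤ × ℤ) (hx : 0 < (fz x).1) (hx1 : (fz x).1 < L)
    (hx2 : (fz x).2 = 0) (hc : Conn L ω x) : ∃ G, FT L ω (fz x).1 G := by
  obtain ⟨z, hz, hp⟩ := hc
  obtain ⟨F, hF⟩ := FF.exists L ω x hx.ne' z hp
  have hz1 : (fz z).1 = L := hz
  have hzs : z.1 + z.2 ≤ 1 ∧ (((fz z).1 + (fz z).2) % 2 = 1) := by
    refine ⟨?_, ?_⟩
    · rcases hp.cases_tail with h | ⟨b, _, h⟩
      · rw [h]
        have : (fz x).2 = x.1 + x.2 - 1 := rfl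
        omega
      · exact h.2.1.2.2
    · unfold fz; dsimp only; omega
  have hz2 : (fz z).2 ≤ 0 := by
    unfold fz; dsimp only; omega
  set a := fz x with ha
  set w := fz z with hw
  have cross : ∀ A B C D : ZMod 2, A + B = C → A + D = B + (C + D) := by decide
  refine ⟨fun c r => if c = L then (if w.2 < r then 1 else 0) else F c r + (if a.1 ≤ c then 1 else 0),
    ?_, ?_, ?_, ?_, ?_, ?_⟩
  · intro c r hr hc
    rw [if_neg hc.ne, hF.f1 c r hr, zero_add]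
  · rw [if_pos rfl, if_pos (by omega)]
  · intro i k b1 b2 b3 b4
    have hf := hF.f2 i k b1 b2 b3 b4
    have hh1 : hT i k a = if a.1 = i then 1 else 0 := by
      unfold hT
      rw [hx2]
      split_ifs <;> first | rfl | omega
    rw [hh1] at hf
    unfold hT at hf
    constructor
    · intro hp
      have h1 := hf.1 hp
      rw [if_neg (show ¬ (i - 1 = (L:ℤ)) by omega)]
      by_cases hi : i = L
      · rw [if_pos hi]
        have h0 : F i (k+1) = 0 := hF.f3 i (k+1) hi.ge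
        rw [h0, add_zero] at h1
        rw [h1]
        have hw1 : w.1 = i := by omega
        split_ifs <;> first | rfl | omega
      · rw [if_neg hi]
        rw [cross _ _ _ (if a.1 ≤ i - 1 then 1 else 0) h1]
        have hw1 : w.1 ≠ i := by omega
        congr 1
        split_ifs <;> first | rfl | omega
    · intro hp
      have h1 := hf.2 hp
      rw [if_neg (show ¬ (i - 1 = (L:ℤ)) by omega)]
      by_cases hi : i = L
      · rw [if_pos hi]
        have h0 : F i k = 0 := hF.f3 i k hi.ge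
        rw [h0, zero_add] at h1
        rw [h1]
        have hw1 : w.1 = i := by omega
        split_ifs <;> first | rfl | omega
      · rw [if_neg hi]
        rw [cross _ _ _ (if a.1 ≤ i then 1 else 0) h1]
        have hw1 : w.1 ≠ i := by omega
        congr 1
        split_ifs <;> first | rfl | omega
  · intro r hr
    rw [if_neg (show ¬ ((0:ℤ) = (L:ℤ)) by omega), hF.f4 r hr, if_neg (by omega), if_neg (by omega),
      add_zero]
  · intro r
    rw [if_neg (show ¬ ((-1:ℤ) = (L:ℤ)) by omega), hF.f3' (-1) r (by omega), if_neg (by omega),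
      add_zero]
  · obtain ⟨B, hB, hB2⟩ := hF.f5
    refine ⟨B, ?_⟩
    intro c r hr hc hc2
    by_cases h1 : c = L
    · rw [if_pos h1, if_neg (by omega)]
    · rw [if_neg h1, hB2 c r hr hc (by omega)]
      rw [if_neg (show ¬ (w.1 ≤ c) by omega)]
      have h2 : ∀ y : ZMod 2, y + 0 + y = 0 := by decide
      exact h2 _

end Pool.Agent.Zk36.NV
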