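import Pool.Agent.Zk36.NV.Par

/-! The exploration path visits exactly the vertices of the end which are joined to the right
side. -/

set_option autoImplicit false

namespace Pool.Agent.Zk36.NV

open Pool.Agent.H988R2.Perc hiding X
open Finset MeasureTheory Filter Topology

theorem o0 (ω : Conf) (u v : ℤ) : OpenAdj ω (u, v) (u + 1, v) ↔ ω (u, v, false) = true := by
  unfold OpenAdj
  simp only [Prod.mk.injEq]
  constructor
  · rintro (⟨_, h⟩ | ⟨⟨h, _⟩, _⟩ | ⟨⟨h, _⟩, _⟩ | ⟨⟨h, _⟩, _⟩)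
    · exact h
    · omega
    · omega
    · omega
  · intro h
    exact Or.inl ⟨trivial, h⟩

theorem o1 (ω : Conf) (u v : ℤ) : OpenAdj ω (u, v) (u, v + 1) ↔ ω (u, v, true) = true := by
  unfold OpenAdj
  simp only [Prod.mk.injEq]
  constructor
  · rintro (⟨⟨h, _⟩, _⟩ | ⟨⟨h, _⟩, _⟩ | ⟨_, h⟩ | ⟨⟨_, h⟩, _⟩)
    · omega
    · omega
    · exact h
    · omega
  · intro h
    exact Or.inr (Or.inr (Or.inl ⟨trivial, h⟩))

theorem o2 (ω : Conf) (u v : ℤ) :
    OpenAdj ω (u, v) (u - 1, v) ↔ ω (u - 1, v, false) = true := by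
  unfold OpenAdj
  simp only [Prod.mk.injEq]
  constructor
  · rintro (⟨⟨h, _⟩, _⟩ | ⟨_, h⟩ | ⟨⟨h, _⟩, _⟩ | ⟨⟨h, _⟩, _⟩)
    · omega
    · exact h
    · omega
    · omega
  · intro h
    exact Or.inr (Or.inl ⟨⟨by omega, trivial⟩, h⟩)

theorem o3 (ω : Conf) (u v : ℤ) :
    OpenAdj ω (u, v) (u, v - 1) ↔ ω (u, v - 1, true) = true := by
  unfold OpenAdj
  simp only [Prod.mk.injEq]
  constructor
  · rintro (⟨⟨h, _⟩, _⟩ | ⟨⟨h, _⟩, _⟩ | ⟨⟨_, h⟩, _⟩ | ⟨_, h⟩)
    · omega
    · omega
    · omega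
    · exact h
  · intro h
    exact Or.inr (Or.inr (Or.inr ⟨⟨trivial, by omega⟩, h⟩))

theorem edge0 (u v : ℤ) : edgeOf (u - v + 1) (u + v - 1) = (u, v, false) := by
  unfold edgeOf
  rw [if_neg (by omega)]
  have e1 : (u - v + 1 + (u + v - 1)) / 2 = u := by omega
  have e2 : (u + v - 1 + 2 - (u - v + 1)) / 2 = v := by omega
  rw [e1, e2]

theorem edge1 (u v : ℤ) : edgeOf (u - v) (u + v - 1) = (u, v, true) := by
  unfold edgeOf
  rw [if_pos (by omega)]
  have e1 : (u - v + (u + v - 1) + 1) / 2 = u := by omega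
  have e2 : (u + v - 1 + 1 - (u - v)) / 2 = v := by omega
  rw [e1, e2]

theorem edge2 (u v : ℤ) : edgeOf (u - v) (u + v - 2) = (u - 1, v, false) := by
  unfold edgeOf
  rw [if_neg (by omega)]
  have e1 : (u - v + (u + v - 2)) / 2 = u - 1 := by omega
  have e2 : (u + v - 2 + 2 - (u - v)) / 2 = v := by omega
  rw [e1, e2]

theorem edge3 (u v : ℤ) : edgeOf (u - v + 1) (u + v - 2) = (u, v - 1, true) := by
  unfold edgeOf
  rw [if_pos (by omega)]
  have e1 : (u - v + 1 + (u + v - 2) + 1) / 2 = u := by omega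
  have e2 : (u + v - 2 + 1 - (u - v + 1)) / 2 = v - 1 := by omega
  rw [e1, e2]

theorem step0 (L : ℕ) (ω : Conf) (u v : ℤ) :
    (Strip L (u+1, v) ∧ ω (u, v, false) = true ∧ step L ω ((u, v), 0) = ((u+1, v), 3)) ∨
    (¬ (Strip L (u+1, v) ∧ ω (u, v, false) = true) ∧ step L ω ((u, v), 0) = ((u, v), 1)) := by
  have hv : ((u, v) : ℤ × ℤ) + vec 0 = (u+1, v) := by
    simp [vec, sub_eq_add_neg]
  have h0 : ¬ (u - v = L ∧ (0 : Fin 4) = 3) := fun h => absurd h.2 (by decide)
  by_cases h : Strip L (u+1, v) ∧ ω (u, v, false) = true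
  · left
    refine ⟨h.1, h.2, ?_⟩
    have h1 : Strip L ((u, v) + vec 0) ∧ OpenAdj ω (u, v) ((u, v) + vec 0) := by
      rw [hv, o0]; exact h
    have : step L ω ((u, v), 0) = ((u, v) + vec 0, 0 + 3) := by
      unfold step
      exact (if_neg h0).trans (if_pos h1)
    rw [this, hv]
    rfl
  · right
    refine ⟨h, ?_⟩
    have h1 : ¬ (Strip L ((u, v) + vec 0) ∧ OpenAdj ω (u, v) ((u, v) + vec 0)) := by
      rw [hv, o0]; exact h
    unfold step
    exact (if_neg h0).trans (if_neg h1)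

theorem step1 (L : ℕ) (ω : Conf) (u v : ℤ) :
    (Strip L (u, v+1) ∧ ω (u, v, true) = true ∧ step L ω ((u, v), 1) = ((u, v+1), 0)) ∨
    (¬ (Strip L (u, v+1) ∧ ω (u, v, true) = true) ∧ step L ω ((u, v), 1) = ((u, v), 2)) := by
  have hv : ((u, v) : ℤ × ℤ) + vec 1 = (u, v+1) := by
    simp [vec, sub_eq_add_neg]
  have h0 : ¬ (u - v = L ∧ (1 : Fin 4) = 3) := fun h => absurd h.2 (by decide)
  by_cases h : Strip L (u, v+1) ∧ ω (u, v, true) = true
  · left
    refine ⟨h.1, h.2, ?_⟩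
    have h1 : Strip L ((u, v) + vec 1) ∧ OpenAdj ω (u, v) ((u, v) + vec 1) := by
      rw [hv, o1]; exact h
    have : step L ω ((u, v), 1) = ((u, v) + vec 1, 1 + 3) := by
      unfold step
      exact (if_neg h0).trans (if_pos h1)
    rw [this, hv]
    rfl
  · right
    refine ⟨h, ?_⟩
    have h1 : ¬ (Strip L ((u, v) + vec 1) ∧ OpenAdj ω (u, v) ((u, v) + vec 1)) := by
      rw [hv, o1]; exact h
    unfold step
    exact (if_neg h0).trans (if_neg h1)

theorem step2 (L : ℕ) (ω : Conf) (u v : ℤ) :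
    (Strip L (u-1, v) ∧ ω (u-1, v, false) = true ∧ step L ω ((u, v), 2) = ((u-1, v), 1)) ∨
    (¬ (Strip L (u-1, v) ∧ ω (u-1, v, false) = true) ∧ step L ω ((u, v), 2) = ((u, v), 3)) := by
  have hv : ((u, v) : ℤ × ℤ) + vec 2 = (u-1, v) := by
    simp [vec, sub_eq_add_neg]
  have h0 : ¬ (u - v = L ∧ (2 : Fin 4) = 3) := fun h => absurd h.2 (by decide)
  by_cases h : Strip L (u-1, v) ∧ ω (u-1, v, false) = true
  · left
    refine ⟨h.1, h.2, ?_⟩
    have h1 : Strip L ((u, v) + vec 2) ∧ OpenAdj ω (u, v) ((u, v) + vec 2) := by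
      rw [hv, o2]; exact h
    have : step L ω ((u, v), 2) = ((u, v) + vec 2, 2 + 3) := by
      unfold step
      exact (if_neg h0).trans (if_pos h1)
    rw [this, hv]
    rfl
  · right
    refine ⟨h, ?_⟩
    have h1 : ¬ (Strip L ((u, v) + vec 2) ∧ OpenAdj ω (u, v) ((u, v) + vec 2)) := by
      rw [hv, o2]; exact h
    unfold step
    exact (if_neg h0).trans (if_neg h1)

theorem step3 (L : ℕ) (ω : Conf) (u v : ℤ) :
    (u - v = L ∧ step L ω ((u, v), 3) = ((u-1, v-1), 1)) ∨
    (u - v ≠ L ∧ Strip L (u, v-1) ∧ ω (u, v-1, true) = true ∧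
      step L ω ((u, v), 3) = ((u, v-1), 2)) ∨
    (u - v ≠ L ∧ ¬ (Strip L (u, v-1) ∧ ω (u, v-1, true) = true) ∧
      step L ω ((u, v), 3) = ((u, v), 0)) := by
  have hv : ((u, v) : ℤ × ℤ) + vec 3 = (u, v - 1) := by
    simp [vec, sub_eq_add_neg]
  by_cases hL : u - v = L
  · left
    refine ⟨hL, ?_⟩
    have : step L ω ((u, v), 3) = ((u, v) + (-1, -1), 1) := by
      unfold step
      exact if_pos ⟨hL, rfl⟩
    rw [this]
    simp [sub_eq_add_neg]
  · right
    have h0 : ¬ (u - v = L ∧ (3 : Fin 4) = 3) := fun h => hL h.1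
    by_cases h : Strip L (u, v-1) ∧ ω (u, v-1, true) = true
    · left
      refine ⟨hL, h.1, h.2, ?_⟩
      have h1 : Strip L ((u, v) + vec 3) ∧ OpenAdj ω (u, v) ((u, v) + vec 3) := by
        rw [hv, o3]; exact h
      have : step L ω ((u, v), 3) = ((u, v) + vec 3, 3 + 3) := by
        unfold step
        exact (if_neg h0).trans (if_pos h1)
      rw [this, hv]
      rfl
    · right
      refine ⟨hL, h, ?_⟩
      have h1 : ¬ (Strip L ((u, v) + vec 3) ∧ OpenAdj ω (u, v) ((u, v) + vec 3)) := by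
        rw [hv, o3]; exact h
      unfold step
      exact (if_neg h0).trans (if_neg h1)

/-- coordinates of the dual vertex on the other side of the path -/
def yc (s : (ℤ × ℤ) × Fin 4) : ℤ :=
  match s.2 with
  | 0 => s.1.1 - s.1.2 + 1
  | 1 => s.1.1 - s.1.2
  | 2 => s.1.1 - s.1.2 - 1
  | 3 => s.1.1 - s.1.2

def yt (s : (ℤ × ℤ) × Fin 4) : ℤ :=
  match s.2 with
  | 0 => s.1.1 + s.1.2 - 1
  | 1 => s.1.1 + s.1.2
  | 2 => s.1.1 + s.1.2 - 1
  | 3 => s.1.1 + s.1.2 - 2

def Inv (L : ℕ) (G : ℤ → ℤ → ZMod 2) (s : (ℤ × ℤ) × Fin 4) : Prop :=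
  Strip L s.1 ∧ (s.1.1 - s.1.2 = L → s.2 ≠ 0) ∧ G (yc s) (yt s) = 1

theorem inv_step {L : ℕ} (hL : (L:ℤ) % 2 = 1) {ω : Conf} {i : ℕ} (hi : 2 * (i:ℤ) + 1 < L)
    {G : ℤ → ℤ → ZMod 2} (hG : FT L ω (2 * (i:ℤ) + 1) G) (s : (ℤ × ℤ) × Fin 4)
    (hs : Inv L G s) (hne : s.1 ≠ ev i) : Inv L G (step L ω s) := by
  obtain ⟨⟨u, v⟩, d⟩ := s
  obtain ⟨hS, hd0, hg⟩ := hs
  have hS' := hS
  unfold Strip at hS'
  dsimp only at hS' hd0 hne
  have hne' : ¬ (u = i + 1 ∧ v = -i) := by
    rintro ⟨h1, h2⟩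
    apply hne
    unfold ev
    rw [h1, h2]
  have one_ne : ∀ x : ZMod 2, x = 1 → x = 0 → False := by decide
  have ifone : ∀ (p : Prop) [Decidable p], (if p then (1 : ZMod 2) else 0) = 1 → p := by
    intro p _ h
    by_contra hp
    rw [if_neg hp] at h
    exact absurd h (by decide)
  match d, hd0, hg with
  | 0, hd0, hg =>
    have hg1 : G (u - v + 1) (u + v - 1) = 1 := hg
    have hcL : u - v ≠ L := fun h => hd0 h rfl
    rcases step0 L ω u v with ⟨h1, h2, e⟩ | ⟨h1, e⟩
    · rw [e]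
      refine ⟨h1, fun _ => by dsimp only; decide, ?_⟩
      show G (u + 1 - v) (u + 1 + v - 2) = 1
      rw [show u + 1 - v = u - v + 1 by ring, show u + 1 + v - 2 = u + v - 1 by ring]
      exact hg1
    · rw [e]
      refine ⟨hS, fun _ => by dsimp only; decide, ?_⟩
      show G (u - v) (u + v) = 1
      by_cases ht : u + v = 1
      · rw [hG.p1 (u-v+1) (u+v-1) (by omega) (by omega)] at hg1
        have h3 := ifone _ hg1
        rw [hG.p1 (u-v) (u+v) (by omega) (by omega), if_pos (by omega)]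
      · have h3 : ω (u, v, false) = false := by
          by_contra h4
          apply h1
          refine ⟨?_, by simpa using h4⟩
          unfold Strip
          dsimp only
          omega
        have h4 := (hG.p2 (u-v+1) (u+v-1) (by omega) (by omega) (by omega)
          (by rw [edge0]; exact h3)).2 (by omega)
        rw [show u - v = u - v + 1 - 1 by ring, show u + v = u + v - 1 + 1 by ring, ← h4]
        exact hg1
  | 1, hd0, hg =>
    have hg1 : G (u - v) (u + v) = 1 := hg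
    rcases step1 L ω u v with ⟨h1, h2, e⟩ | ⟨h1, e⟩
    · rw [e]
      refine ⟨h1, ?_, ?_⟩
      · intro h3
        dsimp only at h3
        omega
      show G (u - (v + 1) + 1) (u + (v + 1) - 1) = 1
      rw [show u - (v + 1) + 1 = u - v by ring, show u + (v + 1) - 1 = u + v by ring]
      exact hg1
    · rw [e]
      refine ⟨hS, fun _ => by dsimp only; decide, ?_⟩
      show G (u - v - 1) (u + v - 1) = 1
      by_cases hc0 : u - v = 0
      · exfalso
        rw [hc0] at hg1
        exact one_ne _ hg1 (hG.p3 (u+v) (by omega))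
      by_cases ht : u + v = 1
      · rw [hG.p1 (u-v-1) (u+v-1) (by omega) (by omega)]
        by_cases hc : u - v = L
        · rw [if_pos (by omega)]
        · rw [hG.p1 (u-v) (u+v) (by omega) (by omega)] at hg1
          have h3 := ifone _ hg1
          rw [if_pos (by omega)]
      · have h3 : ω (u, v, true) = false := by
          by_contra h4
          apply h1
          refine ⟨?_, by simpa using h4⟩
          unfold Strip
          dsimp only
          omega
        have h4 := (hG.p2 (u-v) (u+v-1) (by omega) (by omega) (by omega)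
          (by rw [edge1]; exact h3)).1 (by omega)
        rw [h4, show u + v - 1 + 1 = u + v by ring]
        exact hg1
  | 2, hd0, hg =>
    have hg1 : G (u - v - 1) (u + v - 1) = 1 := hg
    rcases step2 L ω u v with ⟨h1, h2, e⟩ | ⟨h1, e⟩
    · rw [e]
      refine ⟨h1, fun _ => by dsimp only; decide, ?_⟩
      show G (u - 1 - v) (u - 1 + v) = 1
      rw [show u - 1 - v = u - v - 1 by ring, show u - 1 + v = u + v - 1 by ring]
      exact hg1
    · rw [e]
      refine ⟨hS, fun _ => by dsimp only; decide, ?_⟩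
      show G (u - v) (u + v - 2) = 1
      by_cases hc0 : u - v = 0
      · exfalso
        rw [hc0] at hg1
        exact one_ne _ hg1 (hG.p3' (u+v-1))
      · have h3 : ω (u-1, v, false) = false := by
          by_contra h4
          apply h1
          refine ⟨?_, by simpa using h4⟩
          unfold Strip
          dsimp only
          omega
        have h4 := (hG.p2 (u-v) (u+v-2) (by omega) (by omega) (by omega)
          (by rw [edge2]; exact h3)).2 (by omega)
        rw [h4, show u + v - 2 + 1 = u + v - 1 by ring]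
        exact hg1
  | 3, hd0, hg =>
    have hg1 : G (u - v) (u + v - 2) = 1 := hg
    rcases step3 L ω u v with ⟨h1, e⟩ | ⟨h0, h1, h2, e⟩ | ⟨h0, h1, e⟩
    · rw [e]
      refine ⟨?_, fun _ => by dsimp only; decide, ?_⟩
      · unfold Strip
        dsimp only
        omega
      show G (u - 1 - (v - 1)) (u - 1 + (v - 1)) = 1
      rw [show u - 1 - (v - 1) = u - v by ring, show u - 1 + (v - 1) = u + v - 2 by ring]
      exact hg1
    · rw [e]
      refine ⟨h1, fun _ => by dsimp only; decide, ?_⟩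
      show G (u - (v - 1) - 1) (u + (v - 1) - 1) = 1
      rw [show u - (v - 1) - 1 = u - v by ring, show u + (v - 1) - 1 = u + v - 2 by ring]
      exact hg1
    · rw [e]
      refine ⟨hS, fun h => absurd h h0, ?_⟩
      show G (u - v + 1) (u + v - 1) = 1
      have h3 : ω (u, v-1, true) = false := by
        by_contra h4
        apply h1
        refine ⟨?_, by simpa using h4⟩
        unfold Strip
        dsimp only
        omega
      have h4 := (hG.p2 (u-v+1) (u+v-2) (by omega) (by omega) (by omega)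
        (by rw [edge3]; exact h3)).1 (by omega)
      rw [show u + v - 1 = u + v - 2 + 1 by ring, ← h4, show u - v + 1 - 1 = u - v by ring]
      exact hg1

/-! ### the path is injective -/

/-- valid states -/
def Va (L : ℕ) (s : (ℤ × ℤ) × Fin 4) : Prop :=
  Strip L s.1 ∧ (s.1.1 - s.1.2 = L → s.2 ≠ 0) ∧ ¬ (s.1.1 - s.1.2 = L ∧ s.1.1 + s.1.2 = 1 ∧ s.2 = 1)

theorem va_step {L : ℕ} {ω : Conf} (s : (ℤ × ℤ) × Fin 4) (hs : Va L s) : Va L (step L ω s) := by
  obtain ⟨⟨u, v⟩, d⟩ := s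
  obtain ⟨hS, hd0, hd1⟩ := hs
  have hS' := hS
  unfold Strip at hS'
  dsimp only at hS' hd0 hd1
  match d, hd0, hd1 with
  | 0, hd0, hd1 =>
    have hcL : u - v ≠ L := fun h => hd0 h rfl
    rcases step0 L ω u v with ⟨h1, h2, e⟩ | ⟨h1, e⟩
    · rw [e]
      exact ⟨h1, fun _ => by dsimp only; decide, fun h => absurd h.2.2 (by dsimp only; decide)⟩
    · rw [e]
      exact ⟨hS, fun _ => by dsimp only; decide, fun h => hcL h.1⟩
  | 1, hd0, hd1 =>
    rcases step1 L ω u v with ⟨h1, h2, e⟩ | ⟨h1, e⟩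
    · rw [e]
      refine ⟨h1, ?_, fun h => absurd h.2.2 (by dsimp only; decide)⟩
      intro h3
      dsimp only at h3
      omega
    · rw [e]
      exact ⟨hS, fun _ => by dsimp only; decide, fun h => absurd h.2.2 (by dsimp only; decide)⟩
  | 2, hd0, hd1 =>
    rcases step2 L ω u v with ⟨h1, h2, e⟩ | ⟨h1, e⟩
    · rw [e]
      refine ⟨h1, fun _ => by dsimp only; decide, fun h => ?_⟩
      have h3 := h.1
      dsimp only at h3
      omega
    · rw [e]
      exact ⟨hS, fun _ => by dsimp only; decide, fun h => absurd h.2.2 (by dsimp only; decide)⟩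
  | 3, hd0, hd1 =>
    rcases step3 L ω u v with ⟨h1, e⟩ | ⟨h0, h1, h2, e⟩ | ⟨h0, h1, e⟩
    · rw [e]
      refine ⟨?_, fun _ => by dsimp only; decide, fun h => ?_⟩
      · unfold Strip
        dsimp only
        omega
      · have h3 := h.2.1
        dsimp only at h3
        omega
    · rw [e]
      exact ⟨h1, fun _ => by dsimp only; decide, fun h => absurd h.2.2 (by dsimp only; decide)⟩
    · rw [e]
      exact ⟨hS, fun h => absurd h h0, fun h => absurd h.2.2 (by dsimp only; decide)⟩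

/-- the predecessor of a state, described -/
theorem step_inj {L : ℕ} {ω : Conf} (s s' : (ℤ × ℤ) × Fin 4) (hs : Va L s) (hs' : Va L s')
    (h : step L ω s = step L ω s') : s = s' := by
  obtain ⟨⟨u, v⟩, d⟩ := s
  obtain ⟨⟨u', v'⟩, d'⟩ := s'
  obtain ⟨hS, hd0, hd1⟩ := hs
  obtain ⟨hS', hd0', hd1'⟩ := hs'
  have hT := hS
  have hT' := hS'
  unfold Strip at hT hT'
  dsimp only at hT hT' hd0 hd0' hd1 hd1'
  have fin : ∀ a b : ℤ × ℤ, ∀ x y : Fin 4, (a, x) = (b, y) → a.1 = b.1 ∧ a.2 = b.2 ∧ x = y := by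
    intro a b x y h
    have h1 := congrArg Prod.fst h
    have h2 := congrArg Prod.snd h
    simp only at h1 h2
    exact ⟨by rw [h1], by rw [h1], h2⟩
  match d, hd0, hd1, h with
  | 0, hd0, hd1, h =>
    have hcL : u - v ≠ L := fun h => hd0 h rfl
    match d', hd0', hd1', h with
    | 0, hd0', hd1', h =>
      rcases step0 L ω u v with ⟨h1, h2, e⟩ | ⟨h1, e⟩ <;>
        rcases step0 L ω u' v' with ⟨h1', h2', e'⟩ | ⟨h1', e'⟩ <;>
        rw [e, e'] at h <;> obtain ⟨g1, g2, g3⟩ := fin _ _ _ _ h <;> dsimp only at g1 g2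
      · rw [show u = u' by omega, g2]
      · exact absurd g3 (by decide)
      · exact absurd g3 (by decide)
      · rw [g1, g2]
    | 1, hd0', hd1', h =>
      rcases step0 L ω u v with ⟨h1, h2, e⟩ | ⟨h1, e⟩ <;>
        rcases step1 L ω u' v' with ⟨h1', h2', e'⟩ | ⟨h1', e'⟩ <;>
        rw [e, e'] at h <;> obtain ⟨g1, g2, g3⟩ := fin _ _ _ _ h <;> dsimp only at g1 g2 <;>
        exact absurd g3 (by decide)
    | 2, hd0', hd1', h =>
      rcases step0 L ω u v with ⟨h1, h2, e⟩ | ⟨h1, e⟩ <;>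
        rcases step2 L ω u' v' with ⟨h1', h2', e'⟩ | ⟨h1', e'⟩ <;>
        rw [e, e'] at h <;> obtain ⟨g1, g2, g3⟩ := fin _ _ _ _ h <;> dsimp only at g1 g2
      · exact absurd g3 (by decide)
      · exfalso
        apply h1'
        have : u' - 1 = u := by omega
        rw [this, ← g2]
        exact ⟨hS, h2⟩
      · exfalso
        apply h1
        have : u + 1 = u' := by omega
        rw [this]
        refine ⟨by rw [g2]; exact hS', ?_⟩
        rw [g1, g2]; exact h2'
      · exact absurd g3 (by decide)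
    | 3, hd0', hd1', h =>
      rcases step0 L ω u v with ⟨h1, h2, e⟩ | ⟨h1, e⟩ <;>
        rcases step3 L ω u' v' with ⟨h1', e'⟩ | ⟨h0', h1', h2', e'⟩ | ⟨h0', h1', e'⟩ <;>
        rw [e, e'] at h <;> obtain ⟨g1, g2, g3⟩ := fin _ _ _ _ h <;> dsimp only at g1 g2 <;>
        first | exact absurd g3 (by decide) | omega
  | 1, hd0, hd1, h =>
    match d', hd0', hd1', h with
    | 0, hd0', hd1', h =>
      rcases step1 L ω u v with ⟨h1, h2, e⟩ | ⟨h1, e⟩ <;>
        rcases step0 L ω u' v' with ⟨h1', h2', e'⟩ | ⟨h1', e'⟩ <;>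
        rw [e, e'] at h <;> obtain ⟨g1, g2, g3⟩ := fin _ _ _ _ h <;> dsimp only at g1 g2 <;>
        exact absurd g3 (by decide)
    | 1, hd0', hd1', h =>
      rcases step1 L ω u v with ⟨h1, h2, e⟩ | ⟨h1, e⟩ <;>
        rcases step1 L ω u' v' with ⟨h1', h2', e'⟩ | ⟨h1', e'⟩ <;>
        rw [e, e'] at h <;> obtain ⟨g1, g2, g3⟩ := fin _ _ _ _ h <;> dsimp only at g1 g2
      · rw [g1, show v = v' by omega]
      · exact absurd g3 (by decide)
      · exact absurd g3 (by decide)
      · rw [g1, g2]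
    | 2, hd0', hd1', h =>
      rcases step1 L ω u v with ⟨h1, h2, e⟩ | ⟨h1, e⟩ <;>
        rcases step2 L ω u' v' with ⟨h1', h2', e'⟩ | ⟨h1', e'⟩ <;>
        rw [e, e'] at h <;> obtain ⟨g1, g2, g3⟩ := fin _ _ _ _ h <;> dsimp only at g1 g2 <;>
        exact absurd g3 (by decide)
    | 3, hd0', hd1', h =>
      rcases step1 L ω u v with ⟨h1, h2, e⟩ | ⟨h1, e⟩ <;>
        rcases step3 L ω u' v' with ⟨h1', e'⟩ | ⟨h0', h1', h2', e'⟩ | ⟨h0', h1', e'⟩ <;>
        rw [e, e'] at h <;> obtain ⟨g1, g2, g3⟩ := fin _ _ _ _ h <;> dsimp only at g1 g2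
      · exact absurd g3 (by decide)
      · exact absurd g3 (by decide)
      · exfalso
        apply h1'
        have : v' - 1 = v := by omega
        rw [this, ← g1]
        exact ⟨hS, h2⟩
      · exact absurd g3 (by decide)
      · exfalso
        apply h1
        have : v + 1 = v' := by omega
        rw [this]
        refine ⟨by rw [g1]; exact hS', ?_⟩
        rw [g1, g2]; exact h2'
      · exact absurd g3 (by decide)
  | 2, hd0, hd1, h =>
    match d', hd0', hd1', h with
    | 0, hd0', hd1', h =>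
      rcases step2 L ω u v with ⟨h1, h2, e⟩ | ⟨h1, e⟩ <;>
        rcases step0 L ω u' v' with ⟨h1', h2', e'⟩ | ⟨h1', e'⟩ <;>
        rw [e, e'] at h <;> obtain ⟨g1, g2, g3⟩ := fin _ _ _ _ h <;> dsimp only at g1 g2
      · exact absurd g3 (by decide)
      · exfalso
        apply h1'
        have : u' + 1 = u := by omega
        rw [this]
        refine ⟨by rw [← g2]; exact hS, ?_⟩
        rw [← g1, ← g2]; exact h2
      · exfalso
        apply h1
        have : u - 1 = u' := by omega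
        rw [this, g2]
        exact ⟨hS', h2'⟩
      · exact absurd g3 (by decide)
    | 1, hd0', hd1', h =>
      rcases step2 L ω u v with ⟨h1, h2, e⟩ | ⟨h1, e⟩ <;>
        rcases step1 L ω u' v' with ⟨h1', h2', e'⟩ | ⟨h1', e'⟩ <;>
        rw [e, e'] at h <;> obtain ⟨g1, g2, g3⟩ := fin _ _ _ _ h <;> dsimp only at g1 g2 <;>
        exact absurd g3 (by decide)
    | 2, hd0', hd1', h =>
      rcases step2 L ω u v with ⟨h1, h2, e⟩ | ⟨h1, e⟩ <;>
        rcases step2 L ω u' v' with ⟨h1', h2', e'⟩ | ⟨h1', e'⟩ <;>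
        rw [e, e'] at h <;> obtain ⟨g1, g2, g3⟩ := fin _ _ _ _ h <;> dsimp only at g1 g2
      · rw [show u = u' by omega, g2]
      · exact absurd g3 (by decide)
      · exact absurd g3 (by decide)
      · rw [g1, g2]
    | 3, hd0', hd1', h =>
      rcases step2 L ω u v with ⟨h1, h2, e⟩ | ⟨h1, e⟩ <;>
        rcases step3 L ω u' v' with ⟨h1', e'⟩ | ⟨h0', h1', h2', e'⟩ | ⟨h0', h1', e'⟩ <;>
        rw [e, e'] at h <;> obtain ⟨g1, g2, g3⟩ := fin _ _ _ _ h <;> dsimp only at g1 g2 <;>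
        first | exact absurd g3 (by decide) | omega
  | 3, hd0, hd1, h =>
    match d', hd0', hd1', h with
    | 0, hd0', hd1', h =>
      have hcL : u' - v' ≠ L := fun h => hd0' h rfl
      rcases step3 L ω u v with ⟨h1, e⟩ | ⟨h0, h1, h2, e⟩ | ⟨h0, h1, e⟩ <;>
        rcases step0 L ω u' v' with ⟨h1', h2', e'⟩ | ⟨h1', e'⟩ <;>
        rw [e, e'] at h <;> obtain ⟨g1, g2, g3⟩ := fin _ _ _ _ h <;> dsimp only at g1 g2 <;>
        first | exact absurd g3 (by decide) | omega
    | 1, hd0', hd1', h =>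
      rcases step3 L ω u v with ⟨h1, e⟩ | ⟨h0, h1, h2, e⟩ | ⟨h0, h1, e⟩ <;>
        rcases step1 L ω u' v' with ⟨h1', h2', e'⟩ | ⟨h1', e'⟩ <;>
        rw [e, e'] at h <;> obtain ⟨g1, g2, g3⟩ := fin _ _ _ _ h <;> dsimp only at g1 g2
      · exact absurd g3 (by decide)
      · exact absurd g3 (by decide)
      · exact absurd g3 (by decide)
      · exfalso
        apply h1'
        have : v' + 1 = v := by omega
        rw [this]
        refine ⟨by rw [← g1]; exact hS, ?_⟩
        rw [← g1, ← g2]; exact h2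
      · exfalso
        apply h1
        have : v - 1 = v' := by omega
        rw [this, g1]
        exact ⟨hS', h2'⟩
      · exact absurd g3 (by decide)
    | 2, hd0', hd1', h =>
      rcases step3 L ω u v with ⟨h1, e⟩ | ⟨h0, h1, h2, e⟩ | ⟨h0, h1, e⟩ <;>
        rcases step2 L ω u' v' with ⟨h1', h2', e'⟩ | ⟨h1', e'⟩ <;>
        rw [e, e'] at h <;> obtain ⟨g1, g2, g3⟩ := fin _ _ _ _ h <;> dsimp only at g1 g2 <;>
        first | exact absurd g3 (by decide) | omega
    | 3, hd0', hd1', h =>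
      rcases step3 L ω u v with ⟨h1, e⟩ | ⟨h0, h1, h2, e⟩ | ⟨h0, h1, e⟩ <;>
        rcases step3 L ω u' v' with ⟨h1', e'⟩ | ⟨h0', h1', h2', e'⟩ | ⟨h0', h1', e'⟩ <;>
        rw [e, e'] at h <;> obtain ⟨g1, g2, g3⟩ := fin _ _ _ _ h <;> dsimp only at g1 g2 <;>
        first | exact absurd g3 (by decide) | rw [show u = u' by omega, show v = v' by omega]

end Pool.Agent.Zk36.NV
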