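import Pool.Agent.Zk36.NV.Path

/-! The exploration path visits exactly the vertices of the end which are joined to the right
side: conclusion. -/

set_option autoImplicit false

namespace Pool.Agent.Zk36.NV

open Pool.Agent.H988R2.Perc hiding X
open Finset MeasureTheory Filter Topology

theorem path_succ (L : ℕ) (ω : Conf) (n : ℕ) : path L ω (n + 1) = step L ω (path L ω n) := by
  unfold path
  rw [Function.iterate_succ_apply']

theorem path_zero (m : ℕ) (ω : Conf) : path (2*m+1) ω 0 = (ev m, 2) := by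
  unfold path ev
  rw [Function.iterate_zero, id]
  congr 1
  apply Prod.ext <;> push_cast <;> omega

theorem va_path (m : ℕ) (ω : Conf) (n : ℕ) : Va (2*m+1) (path (2*m+1) ω n) := by
  induction n with
  | zero =>
    rw [path_zero]
    exact ⟨ev_strip le_rfl, fun _ => by dsimp only; decide, fun h => absurd h.2.2 (by dsimp only; decide)⟩
  | succ n ih =>
    rw [path_succ]
    exact va_step _ ih

theorem no_start (m : ℕ) (ω : Conf) (s : (ℤ × ℤ) × Fin 4) (hs : Va (2*m+1) s) :
    step (2*m+1) ω s ≠ (ev m, 2) := by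
  obtain ⟨⟨u, v⟩, d⟩ := s
  obtain ⟨hS, hd0, hd1⟩ := hs
  have hT := hS
  unfold Strip at hT
  dsimp only at hT hd0 hd1
  have fin : ∀ a b : ℤ × ℤ, ∀ x y : Fin 4, (a, x) = (b, y) → a.1 = b.1 ∧ a.2 = b.2 ∧ x = y := by
    intro a b x y h
    have h1 := congrArg Prod.fst h
    have h2 := congrArg Prod.snd h
    simp only at h1 h2
    exact ⟨by rw [h1], by rw [h1], h2⟩
  intro h
  match d, hd0, hd1, h with
  | 0, hd0, hd1, h =>
    rcases step0 (2*m+1) ω u v with ⟨h1, h2, e⟩ | ⟨h1, e⟩ <;>
      rw [e] at h <;> obtain ⟨g1, g2, g3⟩ := fin _ _ _ _ h <;> exact absurd g3 (by decide)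
  | 1, hd0, hd1, h =>
    rcases step1 (2*m+1) ω u v with ⟨h1, h2, e⟩ | ⟨h1, e⟩
    · rw [e] at h
      obtain ⟨g1, g2, g3⟩ := fin _ _ _ _ h
      exact absurd g3 (by decide)
    · rw [e] at h
      obtain ⟨g1, g2, g3⟩ := fin _ _ _ _ h
      unfold ev at g1 g2
      dsimp only at g1 g2
      exact hd1 ⟨by push_cast; omega, by omega, rfl⟩
  | 2, hd0, hd1, h =>
    rcases step2 (2*m+1) ω u v with ⟨h1, h2, e⟩ | ⟨h1, e⟩ <;>
      rw [e] at h <;> obtain ⟨g1, g2, g3⟩ := fin _ _ _ _ h <;> exact absurd g3 (by decide)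
  | 3, hd0, hd1, h =>
    rcases step3 (2*m+1) ω u v with ⟨h1, e⟩ | ⟨h0, h1, h2, e⟩ | ⟨h0, h1, e⟩
    · rw [e] at h
      obtain ⟨g1, g2, g3⟩ := fin _ _ _ _ h
      exact absurd g3 (by decide)
    · rw [e] at h
      obtain ⟨g1, g2, g3⟩ := fin _ _ _ _ h
      unfold ev at g1 g2
      dsimp only at g1 g2
      omega
    · rw [e] at h
      obtain ⟨g1, g2, g3⟩ := fin _ _ _ _ h
      exact absurd g3 (by decide)

theorem path_inj (m : ℕ) (ω : Conf) : ∀ i j : ℕ, i < j → path (2*m+1) ω i ≠ path (2*m+1) ω j := by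
  intro i
  induction i with
  | zero =>
    intro j hj h
    obtain ⟨k, rfl⟩ : ∃ k, j = k + 1 := ⟨j - 1, by omega⟩
    rw [path_zero, path_succ] at h
    exact no_start m ω _ (va_path m ω k) h.symm
  | succ i ih =>
    intro j hj h
    obtain ⟨k, rfl⟩ : ∃ k, j = k + 1 := ⟨j - 1, by omega⟩
    rw [path_succ, path_succ] at h
    exact ih k (by omega) (step_inj _ _ (va_path m ω i) (va_path m ω k) h)

/-- the path leaves every finite part of the strip -/
theorem path_unbounded (m : ℕ) (ω : Conf) (B : ℤ) :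
    ∃ n, (path (2*m+1) ω n).1.1 + (path (2*m+1) ω n).1.2 < B := by
  classical
  by_contra hc
  push Not at hc
  let F : Finset ((ℤ × ℤ) × Fin 4) :=
    (Finset.Icc (-(|B| + (2*m+1) + 1)) (|B| + (2*m+1) + 1) ×ˢ
      Finset.Icc (-(|B| + (2*m+1) + 1)) (|B| + (2*m+1) + 1)) ×ˢ Finset.univ
  have hall : ∀ n, path (2*m+1) ω n ∈ F := by
    intro n
    have h1 := hc n
    obtain ⟨hS, -, -⟩ := va_path m ω n
    unfold Strip at hS
    have hB1 := neg_abs_le B
    have hB2 := abs_nonneg B
    rw [Finset.mem_product, Finset.mem_product, Finset.mem_Icc, Finset.mem_Icc]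
    refine ⟨⟨⟨?_, ?_⟩, ⟨?_, ?_⟩⟩, Finset.mem_univ _⟩ <;> push_cast at * <;> omega
  have hinj : Function.Injective (fun n => (⟨path (2*m+1) ω n, hall n⟩ : F)) := by
    intro i j hij
    have hij' : path (2*m+1) ω i = path (2*m+1) ω j := congrArg Subtype.val hij
    rcases lt_trichotomy i j with hlt | heq | hgt
    · exact (path_inj m ω i j hlt hij').elim
    · exact heq
    · exact (path_inj m ω j i hgt hij'.symm).elim
  exact not_injective_infinite_finite _ hinj

/-- the vertices of the path are joined to the right side -/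
theorem path_conn (m : ℕ) (ω : Conf) (n : ℕ) : Conn (2*m+1) ω (path (2*m+1) ω n).1 := by
  induction n with
  | zero =>
    rw [path_zero]
    refine ⟨ev m, ?_, Relation.ReflTransGen.refl⟩
    unfold ev
    push_cast
    ring
  | succ n ih =>
    have hva := va_path m ω n
    have hva' := va_path m ω (n+1)
    rw [path_succ] at hva' ⊢
    set s := path (2*m+1) ω n with hs
    unfold step at hva' ⊢
    split_ifs with h1 h2
    · refine ⟨s.1 + (-1, -1), ?_, Relation.ReflTransGen.refl⟩
      have := h1.1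
      simp only [Prod.fst_add, Prod.snd_add]
      omega
    · exact ih.head h2.1 hva.1 (T22.openAdj_symm h2.2)
    · exact ih

theorem visits_of_conn (m i : ℕ) (hi : i < m) (ω : Conf) (h : Conn (2*m+1) ω (ev i)) :
    ∃ n, (path (2*m+1) ω n).1 = ev i := by
  by_contra hc
  push Not at hc
  have e1 : (fz (ev i)).1 = 2 * (i:ℤ) + 1 := by rw [fz_ev]; push_cast; ring
  have e2 : (fz (ev i)).2 = 0 := by rw [fz_ev]
  obtain ⟨G, hG⟩ := FT.exists (2*m+1) ω (ev i) (by rw [e1]; omega) (by rw [e1]; push_cast; omega) e2 h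
  rw [e1] at hG
  have hinv : ∀ n, Inv (2*m+1) G (path (2*m+1) ω n) := by
    intro n
    induction n with
    | zero =>
      rw [path_zero]
      refine ⟨ev_strip le_rfl, fun _ => by dsimp only; decide, ?_⟩
      have h1 := hG.p1 (2*(m:ℤ)) 0 le_rfl (by push_cast; omega)
      have h2 : yc (ev m, 2) = 2 * (m:ℤ) := by
        show (ev m).1 - (ev m).2 - 1 = 2 * (m:ℤ)
        unfold ev; dsimp only; ring
      have h3 : yt (ev m, 2) = 0 := by
        show (ev m).1 + (ev m).2 - 1 = 0
        unfold ev; dsimp only; ring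
      rw [h2, h3, h1, if_pos (by omega)]
    | succ n ih =>
      rw [path_succ]
      exact inv_step (by push_cast; omega) (by push_cast; omega) hG _ ih (hc n)
  obtain ⟨B, hB⟩ := hG.p4
  obtain ⟨n, hn⟩ := path_unbounded m ω B
  obtain ⟨hS, hd0, hg⟩ := hinv n
  set s := path (2*m+1) ω n with hs
  obtain ⟨⟨u, v⟩, d⟩ := s
  unfold Strip at hS
  dsimp only at hS hn hd0
  have one_ne : ∀ x : ZMod 2, x = 1 → x = 0 → False := by decide
  match d, hd0, hg with
  | 0, hd0, hg =>
    have hcL : u - v ≠ (2*m+1 : ℕ) := fun h => hd0 h rfl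
    exact one_ne _ hg (hB (u - v + 1) (u + v - 1) (by omega) (by omega) (by push_cast at *; omega))
  | 1, hd0, hg =>
    exact one_ne _ hg (hB (u - v) (u + v) (by omega) (by omega) (by push_cast at *; omega))
  | 2, hd0, hg =>
    by_cases h0 : u - v = 0
    · have h1 : G (u - v - 1) (u + v - 1) = 1 := hg
      rw [h0] at h1
      exact one_ne _ h1 (hG.p3' _)
    · exact one_ne _ hg (hB (u - v - 1) (u + v - 1) (by omega) (by omega) (by push_cast at *; omega))
  | 3, hd0, hg =>
    exact one_ne _ hg (hB (u - v) (u + v - 2) (by omega) (by omega) (by push_cast at *; omega))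

/-- **the exploration path visits exactly the vertices of the end joined to the right side** -/
theorem visits_iff (m i : ℕ) (hi : i < m) (ω : Conf) :
    (∃ n, (path (2*m+1) ω n).1 = ev i) ↔ Conn (2*m+1) ω (ev i) := by
  constructor
  · rintro ⟨n, hn⟩
    rw [← hn]
    exact path_conn m ω n
  · exact visits_of_conn m i hi ω

end Pool.Agent.Zk36.NV
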