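import Pool.Agent.Zk36.NV.Pair

/-! The relation between the values at `(X, q² X)` and `(q X, X)` when `X` is one of the
parameters of the pairs. -/

set_option autoImplicit false

namespace Pool.Agent.Zk36.NV

open Pool.Agent.H988R2.Perc Finset

/-- pairs of parameters -/
noncomputable def pl (xs : List ℂ) : List ℂ := xs.flatMap (fun x => [x, x⁻¹])

theorem pl_nil : pl [] = [] := rfl

theorem pl_cons (x : ℂ) (xs : List ℂ) : pl (x :: xs) = x :: x⁻¹ :: pl xs := rfl

theorem pl_append (xs ys : List ℂ) : pl (xs ++ ys) = pl xs ++ pl ys := by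
  unfold pl; rw [List.flatMap_append]

theorem pl_length (xs : List ℂ) : (pl xs).length = 2 * xs.length := by
  induction xs with
  | nil => rfl
  | cons x xs ih => rw [pl_cons, List.length_cons, List.length_cons, ih, List.length_cons]; ring

/-- generic parameters -/
def Gd (S : List ℂ) : Prop :=
  ∀ x ∈ S, ∀ y ∈ S, x ≠ 0 ∧ x ≠ q * y ∧ x * y ≠ q ∧ x * y ≠ q^2

theorem Gd.sub {S T : List ℂ} (h : Gd S) (hT : ∀ x ∈ T, x ∈ S) : Gd T :=
  fun x hx y hy => h x (hT x hx) y (hT y hy)

theorem ne_a {x y : ℂ} (h : x ≠ q * y) : q * x - q^2 * y ≠ 0 := by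
  intro h1
  have : q * (x - q * y) = 0 := by linear_combination h1
  rcases mul_eq_zero.1 this with h2 | h2
  · exact q_ne_zero h2
  · exact h (sub_eq_zero.1 h2)

theorem ne_b {x y : ℂ} (hx : x ≠ 0) (h : x * y ≠ q^2) : q * x⁻¹ - q^2 * y ≠ 0 := by
  intro h1
  have h2 : x * (q * x⁻¹ - q^2 * y) = 0 := by rw [h1, mul_zero]
  have h3 : q - q^2 * (x * y) = 0 := by
    rw [mul_sub, ← mul_assoc, mul_comm x q, mul_assoc, mul_inv_cancel₀ hx] at h2
    linear_combination h2
  apply h
  linear_combination (-q) * h3 - (x * y) * q_cube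

theorem ne_c {x y : ℂ} (hy : y ≠ 0) (h : x * y ≠ q) : q * x - q^2 * y⁻¹ ≠ 0 := by
  intro h1
  have h2 : y * (q * x - q^2 * y⁻¹) = 0 := by rw [h1, mul_zero]
  have h3 : q * (x * y) - q^2 = 0 := by
    rw [mul_sub, mul_comm y (q^2 * y⁻¹), mul_assoc (q^2), inv_mul_cancel₀ hy] at h2
    linear_combination h2
  have h4 : q * (x * y - q) = 0 := by linear_combination h3
  rcases mul_eq_zero.1 h4 with h5 | h5
  · exact q_ne_zero h5
  · exact h (sub_eq_zero.1 h5)

theorem ne_d {x y : ℂ} (hx : x ≠ 0) (hy : y ≠ 0) (h : y ≠ q * x) : q * x⁻¹ - q^2 * y⁻¹ ≠ 0 := by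
  intro h1
  have h2 : (x * y) * (q * x⁻¹ - q^2 * y⁻¹) = 0 := by rw [h1, mul_zero]
  have h3 : (x * y) * (q * x⁻¹ - q^2 * y⁻¹) = q * y - q^2 * x := by
    field_simp
  rw [h3] at h2
  exact ne_a h h2

/-- permutation of the pairs -/
theorem pl_perm {K : ℕ} (hK : K % 2 = 1) {xs ys : List ℂ} (h : xs.Perm ys) :
    ∀ (u v : List ℂ), u.length % 2 = 1 → Odd v.length → u.length + 2 * xs.length < K → Gd xs →
      PP (iso K) (u ++ (pl xs ++ v)) = PP (iso K) (u ++ (pl ys ++ v)) := by
  induction h with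
  | nil => intros; rfl
  | cons x h ih =>
    rename_i l1 l2
    intro u v hu hv hl hg
    have h1 := ih (u ++ [x, x⁻¹]) v (by simp; omega) hv (by simp at hl ⊢; omega)
      (hg.sub fun z hz => List.mem_cons_of_mem _ hz)
    simp only [List.append_assoc, List.cons_append, List.nil_append] at h1
    simpa only [pl_cons, List.cons_append] using h1
  | swap x y l =>
    intro u v hu hv hl hg
    have hx : x ∈ (y :: x :: l) := by simp
    have hy : y ∈ (y :: x :: l) := by simp
    simp only [pl_cons, List.cons_append]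
    have g1 := hg x hx y hy
    have g2 := hg y hy x hx
    obtain ⟨w, hw⟩ := hv
    refine pair_swap (iso K) u (pl l ++ v) x x⁻¹ y y⁻¹ ?_ ?_ ?_ ?_ ?_ ?_ ?_ ?_
    · rw [mul_inv_cancel₀ g1.1, mul_inv_cancel₀ g2.1]
    · intro R
      simp only [List.length_cons] at hl
      exact iso_act_odd hK hu (by omega) R
    · intro R
      simp only [List.length_cons] at hl
      exact iso_act_odd hK (by omega) (by omega) R
    · rw [List.length_append, pl_length]
      exact ⟨(u.length + 1)/2 + l.length + w, by omega⟩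
    · exact ne_b g1.1 g1.2.2.2
    · exact ne_a g1.2.1
    · exact ne_d g1.1 g2.1 g2.2.1
    · exact ne_c g2.1 g1.2.2.1
  | trans h1 h2 ih1 ih2 =>
    intro u v hu hv hl hg
    rw [ih1 u v hu hv hl hg, ih2 u v hu hv (by rw [← h1.length_eq]; exact hl)
      (hg.sub fun z hz => h1.mem_iff.2 hz)]

/-- flip of a pair -/
theorem pl_flip {K : ℕ} (hK : K % 2 = 1) (u v : List ℂ) (x : ℂ) (hu : u.length % 2 = 1)
    (hv : Odd v.length) (hl : u.length + 2 < K) (hx : x ≠ 0) (h : x * x ≠ q) :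
    PP (iso K) (u ++ x⁻¹ :: x :: v) = PP (iso K) (u ++ x :: x⁻¹ :: v) := by
  obtain ⟨w, hw⟩ := hv
  refine PP_sym (iso K) u v x x⁻¹ ⟨(u.length+1)/2 + w, by omega⟩ ?_ ?_
  · intro R; exact iso_act_odd hK hu hl R
  · exact ne_c hx h

theorem last_exch {K : ℕ} (u : List ℂ) (x y : ℂ) (hu : u.length % 2 = 1)
    (hK : u.length + 2 = K) :
    (q * x - q^2 * y) * PP (iso K) (u ++ [y, x, 0]) =
      (q * y - q^2 * x) * PP (iso K) (u ++ [x, y, 0]) := by
  have h := PP_exch (iso K) u [0] x y ⟨(u.length+1)/2, by simp; omega⟩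
  have e : (fun R => iso K (St.act u.length R)) = fun _ => 0 :=
    funext fun R => iso_act_last hu hK R
  rw [e] at h
  have e0 : PP (fun _ => 0) (u ++ x :: y :: [0]) = 0 := by
    unfold PP Lin; simp
  rw [e0, mul_zero, add_zero] at h
  exact h

/-- inversion of the parameter before the last two -/
theorem last_inv {K : ℕ} (u : List ℂ) (x : ℂ) (hu : u.length % 2 = 1) (hK : u.length + 2 = K)
    (hx : x ≠ 0) :
    (q - q^2 * x)^2 * PP (iso K) (u ++ [x, 1, 0]) =
      (q * x - q^2)^2 * x^(u.length + 1) * PP (iso K) (u ++ [x⁻¹, 1, 0]) := by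
  have h1 := last_exch u x 1 hu hK
  have h2 := last_exch u x⁻¹ 1 hu hK
  have h3 := PP_inv0 (iso K) x (u ++ [1]) hx ⟨(u.length+1)/2, by simp; omega⟩
  simp only [List.append_assoc, List.cons_append, List.nil_append, List.length_append,
    List.length_cons, List.length_nil] at h3
  rw [mul_one] at h1 h2
  have e1 : x * (q * x⁻¹ - q^2) = q - q^2 * x := by field_simp
  have e2 : x * (q * 1 - q^2 * x⁻¹) = q * x - q^2 := by field_simp
  have h4 : (q - q^2 * x) * PP (iso K) (u ++ [1, x⁻¹, 0]) =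
      (q * x - q^2) * PP (iso K) (u ++ [x⁻¹, 1, 0]) := by
    rw [← e1, ← e2, mul_assoc, mul_assoc, h2]
  rw [h3] at h1
  have e5 : u.length + (0 + 1) = u.length + 1 := by ring
  rw [e5] at h1
  linear_combination (-(q - q^2*x)) * h1 + (q*x - q^2) * x^(u.length+1) * h4

/-- values at `(q u, u)` and `(u, q² u)` -/
noncomputable def AA (xs : List ℂ) (u : ℂ) : ℂ :=
  PP (iso (2*xs.length+3)) (q * u :: (pl xs ++ [u, 1, 0]))
noncomputable def BB (xs : List ℂ) (u : ℂ) : ℂ :=
  PP (iso (2*xs.length+3)) (u :: (pl xs ++ [q^2 * u, 1, 0]))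

noncomputable def f0 (y u : ℂ) : ℂ := (u - q^2 * y) * (u * y - q^2)
noncomputable def g0 (y u : ℂ) : ℂ := (q * u - q^2 * y) * (q * u * y - q^2)

theorem fac_append (x : ℂ) (l m : List ℂ) : fac x (l ++ m) = fac x l * fac x m := by
  unfold fac; rw [List.map_append, List.prod_append]

theorem fac_cons (x y : ℂ) (l : List ℂ) : fac x (y :: l) = f0 y x * fac x l := by
  unfold fac f0; rw [List.map_cons, List.prod_cons]

theorem fac_nil (x : ℂ) : fac x [] = 1 := rfl

theorem facq (x y : ℂ) : f0 y (q * x) = g0 y x := rfl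

theorem f0_inv (y u : ℂ) (hy : y ≠ 0) : f0 y⁻¹ u = (y^2)⁻¹ * f0 y u := by
  unfold f0; field_simp

theorem g0_inv (y u : ℂ) (hy : y ≠ 0) : g0 y⁻¹ u = (y^2)⁻¹ * g0 y u := by
  unfold g0; field_simp

theorem fac_pl (x : ℂ) (ys : List ℂ) (h : ∀ y ∈ ys, y ≠ 0) :
    fac x (pl ys) = (ys.map (fun y => (y^2)⁻¹)).prod * (ys.map (fun y => f0 y x ^ 2)).prod := by
  induction ys with
  | nil => simp [pl_nil, fac_nil]
  | cons y ys ih =>
    rw [pl_cons, fac_cons, fac_cons, ih fun z hz => h z (List.mem_cons_of_mem _ hz),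
      f0_inv y x (h y List.mem_cons_self)]
    simp only [List.map_cons, List.prod_cons]
    ring

theorem star_head (x : ℂ) (ys : List ℂ) (hg : Gd (x :: ys)) :
    AA (x :: ys) x * (f0 1 x ^ 2 * ((x :: ys).map (fun y => f0 y x ^ 2)).prod) =
      BB (x :: ys) x * (g0 1 x ^ 2 * ((x :: ys).map (fun y => g0 y x ^ 2)).prod) := by
  set m := ys.length with hm
  have gx := hg x List.mem_cons_self x List.mem_cons_self
  have hx : x ≠ 0 := gx.1
  have hys : ∀ y ∈ ys, y ≠ 0 := fun y hy =>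
    (hg y (List.mem_cons_of_mem _ hy) x List.mem_cons_self).1
  -- (b)
  have hA : AA (x :: ys) x = fac (q * x) (x⁻¹ :: (pl ys ++ [x, 1, 0])) *
      PP (iso (2*m+3)) (x⁻¹ :: (pl ys ++ [x, 1, 0])) := by
    unfold AA
    have h := PP_rec (iso (2*(x::ys).length+3)) [] (x⁻¹ :: (pl ys ++ [x, 1, 0])) (q * x)
      (by simp only [List.length_nil, List.length_cons, List.length_append, pl_length]
          exact ⟨m + 2, by omega⟩)
    have e1 : q^2 * (q * x) = x := by linear_combination x * q_cube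
    rw [e1] at h
    simp only [List.nil_append, List.length_nil] at h
    rw [pl_cons]
    simp only [List.cons_append]
    rw [h]
    congr 2
    funext R
    rw [List.length_cons]
    have e2 : 2 * (ys.length + 1) + 3 = (2*m+3) + 2 := by omega
    rw [e2]
    exact iso_ins (by omega) (by omega) (by omega) R
  have hA2 : PP (iso (2*m+3)) (x⁻¹ :: (pl ys ++ [x, 1, 0])) =
      (x⁻¹)^(2*m+2) * PP (iso (2*m+3)) (x :: (pl ys ++ [x, 1, 0])) := by
    have h := PP_inv1 (iso (2*m+3)) x⁻¹ (pl ys ++ [x, 1, 0]) (inv_ne_zero hx)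
      (by simp only [List.length_append, pl_length, List.length_cons, List.length_nil]
          exact ⟨m + 1, by omega⟩)
    rw [h, inv_inv]
    congr 2
    simp only [List.length_append, pl_length, List.length_cons, List.length_nil]
    omega
  have hA3 := last_inv (K := 2*m+3) (x :: pl ys) x
    (by rw [List.length_cons, pl_length]; omega)
    (by rw [List.length_cons, pl_length]) hx
  simp only [List.cons_append, List.length_cons, pl_length] at hA3
  have e4 : 2 * ys.length + 1 + 1 = 2*m+2 := by omega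
  rw [e4] at hA3
  -- (a)
  have hB : BB (x :: ys) x = fac x (x :: (pl ys ++ [x⁻¹, 1, 0])) *
      PP (iso (2*m+3)) (x :: (pl ys ++ [x⁻¹, 1, 0])) := by
    unfold BB
    have hl : (x :: ys).length = m + 1 := by simp [hm]
    rw [hl]
    have hp := pl_perm (K := 2*(m+1)+3) (by omega)
      (List.perm_append_comm (l₁ := [x]) (l₂ := ys)) [x] [q^2 * x, 1, 0] (by simp)
      (by simp; exact ⟨1, by omega⟩) (by simp; omega)
      (hg.sub (by intro z hz; simpa using hz))
    rw [List.singleton_append, List.singleton_append, List.singleton_append] at hp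
    rw [hp, pl_append]
    have e5 : pl [x] = [x, x⁻¹] := rfl
    rw [e5]
    have hf := pl_flip (K := 2*(m+1)+3) (by omega) (x :: pl ys) [q^2*x, 1, 0] x
      (by rw [List.length_cons, pl_length]; omega) (by simp; exact ⟨1, by omega⟩)
      (by rw [List.length_cons, pl_length]; omega) hx gx.2.2.1
    have e6 : x :: (pl ys ++ [x, x⁻¹] ++ [q^2 * x, 1, 0]) =
        (x :: pl ys) ++ x :: x⁻¹ :: [q^2*x, 1, 0] := by simp
    rw [e6, ← hf]
    have h := PP_rec (iso (2*(m+1)+3)) (x :: (pl ys ++ [x⁻¹])) [1, 0] x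
      (by simp only [List.length_cons, List.length_append, pl_length, List.length_nil]
          exact ⟨m + 2, by omega⟩)
    have e7 : (x :: (pl ys ++ [x⁻¹])) ++ x :: (q^2*x) :: [1, 0] =
        (x :: pl ys) ++ x⁻¹ :: x :: [q^2*x, 1, 0] := by simp
    rw [e7] at h
    rw [h]
    have e8 : (x :: (pl ys ++ [x⁻¹])) ++ [1, 0] = x :: (pl ys ++ [x⁻¹, 1, 0]) := by simp
    rw [e8]
    congr 2
    funext R
    have e9 : (x :: (pl ys ++ [x⁻¹])).length = 2*m+2 := by
      simp only [List.length_cons, List.length_append, pl_length, List.length_nil]; omega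
    rw [e9]
    have e2 : 2 * (m + 1) + 3 = (2*m+3) + 2 := by omega
    rw [e2]
    exact iso_ins (by omega) (by omega) (by omega) R
  -- put together
  set Q1 := PP (iso (2*m+3)) (x :: (pl ys ++ [x⁻¹, 1, 0])) with hQ1
  set Fx := PP (iso (2*m+3)) (x :: (pl ys ++ [x, 1, 0])) with hFx
  have hA4 : (q - q^2*x)^2 * AA (x::ys) x =
      fac (q * x) (x⁻¹ :: (pl ys ++ [x, 1, 0])) * ((q * x - q^2)^2 * Q1) := by
    have hxx : (x⁻¹)^(2*m+2) * x^(2*m+2) = 1 := by
      rw [← mul_pow, inv_mul_cancel₀ hx, one_pow]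
    rw [hA, hA2]
    linear_combination (fac (q * x) (x⁻¹ :: (pl ys ++ [x, 1, 0])) * (x⁻¹)^(2*m+2)) * hA3 +
      (fac (q * x) (x⁻¹ :: (pl ys ++ [x, 1, 0])) * ((q * x - q^2)^2 * Q1)) * hxx
  rw [fac_cons, fac_append, fac_cons, fac_cons, fac_cons, fac_nil, mul_one,
    facq, facq, facq, facq, g0_inv x x hx] at hA4
  rw [fac_cons, fac_append, fac_cons, fac_cons, fac_cons, fac_nil, mul_one,
    f0_inv x x hx] at hB
  have hfq : fac (q * x) (pl ys) =
      (ys.map (fun y => (y^2)⁻¹)).prod * (ys.map (fun y => g0 y x ^ 2)).prod := fac_pl (q*x) ys hys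
  rw [hfq] at hA4
  rw [fac_pl x ys hys] at hB
  simp only [List.map_cons, List.prod_cons]
  set c := (ys.map (fun y => (y^2)⁻¹)).prod with hc
  have hc0 : c ≠ 0 := by
    rw [hc]
    apply List.prod_ne_zero
    intro h0
    rw [List.mem_map] at h0
    obtain ⟨y, hy, h1⟩ := h0
    exact inv_ne_zero (pow_ne_zero 2 (hys y hy)) h1
  set Pf := (ys.map (fun y => f0 y x ^ 2)).prod with hPf
  set Pg := (ys.map (fun y => g0 y x ^ 2)).prod with hPg
  have i1 : f0 0 x = - q^2 * x := by unfold f0; ring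
  have i2 : g0 0 x = - x := by
    unfold g0
    linear_combination (-x) * q_cube
  have i3 : f0 1 x = (x - q^2)^2 := by unfold f0; ring
  have i4 : g0 1 x = q^2 * (x - q)^2 := by unfold g0; ring
  have i5 : (q - q^2*x)^2 = q * f0 1 x := by
    rw [i3]
    linear_combination (q*x^2 - q^2) * q_cube
  have i6 : (q * x - q^2)^2 = g0 1 x := by
    rw [i4]
    ring
  rw [i1] at hB
  rw [i2, i5, i6] at hA4
  linear_combination (q^2 * f0 1 x * f0 x x^2 * Pf) * hA4 -
    (g0 1 x^2 * g0 x x^2 * Pg) * hB - (f0 1 x^2 * AA (x::ys) x * f0 x x^2 * Pf) * q_cube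

end Pool.Agent.Zk36.NV
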