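import Pool.Agent.Zk36.NV.Star

/-! The relation at all the parameters and their inverses. -/

set_option autoImplicit false

namespace Pool.Agent.Zk36.NV

open Pool.Agent.H988R2.Perc Finset

theorem AA_perm {xs ys : List ℂ} (h : xs.Perm ys) (hg : Gd xs) (u : ℂ) : AA xs u = AA ys u := by
  unfold AA
  have hp := pl_perm (K := 2*xs.length+3) (by omega) h [q*u] [u, 1, 0] (by simp)
      (by simp; exact ⟨1, by omega⟩) (by simp; omega) hg
  rw [List.singleton_append, List.singleton_append] at hp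
  rw [hp, h.length_eq]

theorem BB_perm {xs ys : List ℂ} (h : xs.Perm ys) (hg : Gd xs) (u : ℂ) : BB xs u = BB ys u := by
  unfold BB
  have hp := pl_perm (K := 2*xs.length+3) (by omega) h [u] [q^2*u, 1, 0] (by simp)
      (by simp; exact ⟨1, by omega⟩) (by simp; omega) hg
  rw [List.singleton_append, List.singleton_append] at hp
  rw [hp, h.length_eq]

/-- the product of the factors -/
noncomputable def ff (xs : List ℂ) (u : ℂ) : ℂ := f0 1 u ^ 2 * (xs.map (fun y => f0 y u ^ 2)).prod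
noncomputable def gg (xs : List ℂ) (u : ℂ) : ℂ := g0 1 u ^ 2 * (xs.map (fun y => g0 y u ^ 2)).prod

theorem star_mem (xs : List ℂ) (x : ℂ) (hx : x ∈ xs) (hg : Gd xs) :
    AA xs x * ff xs x = BB xs x * gg xs x := by
  classical
  obtain ⟨ys, hp⟩ : ∃ ys, xs.Perm (x :: ys) := ⟨xs.erase x, List.perm_cons_erase hx⟩
  rw [AA_perm hp hg, BB_perm hp hg]
  have h1 : ff xs x = ff (x :: ys) x := by unfold ff; rw [(hp.map _).prod_eq]
  have h2 : gg xs x = gg (x :: ys) x := by unfold gg; rw [(hp.map _).prod_eq]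
  rw [h1, h2]
  exact star_head x ys (hg.sub fun z hz => hp.mem_iff.2 hz)

theorem Gd_inv {x : ℂ} {ys : List ℂ} (h : Gd (x :: ys)) : Gd (x⁻¹ :: ys) := by
  have hx : x ≠ 0 := (h x List.mem_cons_self x List.mem_cons_self).1
  -- the conditions for a pair `x⁻¹, y`
  have key : ∀ y : ℂ, y ≠ 0 → (x ≠ q * y ∧ x * y ≠ q ∧ x * y ≠ q^2) →
      (y ≠ q * x ∧ y * x ≠ q ∧ y * x ≠ q^2) →
      (x⁻¹ ≠ q * y ∧ x⁻¹ * y ≠ q ∧ x⁻¹ * y ≠ q^2) ∧
      (y ≠ q * x⁻¹ ∧ y * x⁻¹ ≠ q ∧ y * x⁻¹ ≠ q^2) := by
    rintro y hy ⟨a1, a2, a3⟩ ⟨b1, b2, b3⟩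
    have c1 : x⁻¹ ≠ q * y := by
      intro e
      apply a3
      have : 1 = q * y * x := by rw [← e, inv_mul_cancel₀ hx]
      linear_combination (-q^2) * this - (x*y) * q_cube
    have c2 : x⁻¹ * y ≠ q := by
      intro e
      apply b1
      rw [← e]
      field_simp
    have c3 : x⁻¹ * y ≠ q^2 := by
      intro e
      apply a1
      have : y = q^2 * x := by rw [← e]; field_simp
      linear_combination (-q) * this - x * q_cube
    refine ⟨⟨c1, c2, c3⟩, ?_, ?_, ?_⟩
    · intro e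
      apply a2
      rw [e]
      field_simp
    · rwa [mul_comm]
    · rwa [mul_comm]
  intro a ha b hb
  have self := h x List.mem_cons_self x List.mem_cons_self
  rcases List.mem_cons.1 ha with rfl | ha
  · rcases List.mem_cons.1 hb with rfl | hb
    · refine ⟨inv_ne_zero hx, ?_, ?_, ?_⟩
      · intro e
        apply self.2.1
        have h1 : x * x⁻¹ = 1 := mul_inv_cancel₀ hx
        have h2 : q * x⁻¹ * x = 1 := by rw [← e, inv_mul_cancel₀ hx]
        have h3 : q = 1 := by
          have : q * x⁻¹ * x = q := by rw [mul_assoc, inv_mul_cancel₀ hx, mul_one]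
          rw [← this, h2]
        rw [h3, one_mul]
      · intro e
        apply self.2.2.2
        have h1 : (x⁻¹ * x⁻¹) * (x * x) = 1 := by field_simp
        rw [e] at h1
        linear_combination (q^2) * h1 - (x*x) * q_cube
      · intro e
        apply self.2.2.1
        have h1 : (x⁻¹ * x⁻¹) * (x * x) = 1 := by field_simp
        rw [e] at h1
        linear_combination (q) * h1 - (x*x) * q_cube
    · have g1 := h x List.mem_cons_self b (List.mem_cons_of_mem _ hb)
      have g2 := h b (List.mem_cons_of_mem _ hb) x List.mem_cons_self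
      have := (key b g2.1 g1.2 g2.2).1
      exact ⟨inv_ne_zero hx, this⟩
  · rcases List.mem_cons.1 hb with rfl | hb
    · have g1 := h x List.mem_cons_self a (List.mem_cons_of_mem _ ha)
      have g2 := h a (List.mem_cons_of_mem _ ha) x List.mem_cons_self
      have := (key a g2.1 g1.2 g2.2).2
      exact ⟨g2.1, this⟩
    · exact h a (List.mem_cons_of_mem _ ha) b (List.mem_cons_of_mem _ hb)

theorem star_inv (xs : List ℂ) (x : ℂ) (hx : x ∈ xs) (hg : Gd xs) :
    AA xs x⁻¹ * ff xs x⁻¹ = BB xs x⁻¹ * gg xs x⁻¹ := by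
  classical
  obtain ⟨ys, hp⟩ : ∃ ys, xs.Perm (x :: ys) := ⟨xs.erase x, List.perm_cons_erase hx⟩
  have hgx : Gd (x :: ys) := hg.sub fun z hz => hp.mem_iff.2 hz
  have self := hgx x List.mem_cons_self x List.mem_cons_self
  rw [AA_perm hp hg, BB_perm hp hg]
  have h1 : ff xs x⁻¹ = ff (x :: ys) x⁻¹ := by unfold ff; rw [(hp.map _).prod_eq]
  have h2 : gg xs x⁻¹ = gg (x :: ys) x⁻¹ := by unfold gg; rw [(hp.map _).prod_eq]
  rw [h1, h2]
  have hs := star_head x⁻¹ ys (Gd_inv hgx)
  have eA : AA (x :: ys) x⁻¹ = AA (x⁻¹ :: ys) x⁻¹ := by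
    unfold AA
    rw [pl_cons, pl_cons, inv_inv]
    have hf := pl_flip (K := 2*(x :: ys).length+3) (by omega) [q * x⁻¹] (pl ys ++ [x⁻¹, 1, 0]) x
      (by simp) (by rw [List.length_append, pl_length]; simp; exact ⟨ys.length + 1, by omega⟩)
      (by simp) self.1 self.2.2.1
    simp only [List.cons_append, List.nil_append] at hf
    simp only [List.cons_append]
    rw [← hf]
    simp
  have eB : BB (x :: ys) x⁻¹ = BB (x⁻¹ :: ys) x⁻¹ := by
    unfold BB
    rw [pl_cons, pl_cons, inv_inv]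
    have hf := pl_flip (K := 2*(x :: ys).length+3) (by omega) [x⁻¹] (pl ys ++ [q^2*x⁻¹, 1, 0]) x
      (by simp) (by rw [List.length_append, pl_length]; simp; exact ⟨ys.length + 1, by omega⟩)
      (by simp) self.1 self.2.2.1
    simp only [List.cons_append, List.nil_append] at hf
    simp only [List.cons_append]
    rw [← hf]
    simp
  rw [← eA, ← eB] at hs
  unfold ff gg
  simp only [List.map_cons, List.prod_cons] at hs ⊢
  rw [f0_inv x x⁻¹ self.1, g0_inv x x⁻¹ self.1] at hs
  have hx4 : ((x^2)⁻¹)^2 ≠ 0 := pow_ne_zero 2 (inv_ne_zero (pow_ne_zero 2 self.1))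
  apply mul_left_cancel₀ hx4
  linear_combination hs

end Pool.Agent.Zk36.NV
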