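import Pool.Agent.Zk36.NV.Alg

/-! Uniqueness of the solution of the divisibility. -/

set_option autoImplicit false

namespace Pool.Agent.Zk36.NV

open Pool.Agent.H988R2.Perc hiding X
open Finset Polynomial

/-- a polynomial with at most `k` terms which vanishes to order `k` at `1` is zero -/
theorem few (S : Finset ℕ) : ∀ (P : ℂ[X]), P.support ⊆ S → (X - 1)^(S.card) ∣ P → P = 0 := by
  classical
  induction S using Finset.induction_on with
  | empty =>
    intro P h _
    rw [Finset.subset_empty] at h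
    exact Polynomial.support_eq_empty.1 h
  | insert a S ha ih =>
    intro P h hd
    rw [Finset.card_insert_of_notMem ha] at hd
    have hc : ∀ k : ℕ, (X * derivative P - C (a:ℂ) * P).coeff k = ((k:ℂ) - a) * P.coeff k := by
      intro k
      rw [coeff_sub, coeff_C_mul]
      cases k with
      | zero => simp
      | succ k =>
        rw [coeff_X_mul, coeff_derivative]
        push_cast; ring
    have h1 : X * derivative P - C (a:ℂ) * P = 0 := by
      apply ih
      · intro k hk
        rw [Polynomial.mem_support_iff, hc] at hk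
        have h2 : P.coeff k ≠ 0 := right_ne_zero_of_mul hk
        have h3 : (k:ℂ) - a ≠ 0 := left_ne_zero_of_mul hk
        have h4 := h (Polynomial.mem_support_iff.2 h2)
        rcases Finset.mem_insert.1 h4 with h5 | h5
        · subst h5; simp at h3
        · exact h5
      · obtain ⟨Q, hQ⟩ := hd
        refine ⟨X * (C ((S.card + 1 : ℕ) : ℂ) * Q + (X - 1) * derivative Q) -
          C (a:ℂ) * ((X - 1) * Q), ?_⟩
        rw [hQ, derivative_mul, derivative_pow]
        simp only [derivative_sub, derivative_X, derivative_one, Nat.add_sub_cancel]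
        rw [pow_succ]
        ring
    have h2 : ∀ k, k ≠ a → P.coeff k = 0 := by
      intro k hk
      have := hc k
      rw [h1, coeff_zero] at this
      rcases mul_eq_zero.1 this.symm with h3 | h3
      · exact absurd (by exact_mod_cast sub_eq_zero.1 h3) hk
      · exact h3
    have h3 : P = C (P.coeff a) * X^a := by
      ext k
      rw [coeff_C_mul_X_pow]
      split_ifs with hk
      · rw [hk]
      · exact h2 k hk
    have h4 : P.eval 1 = 0 := by
      obtain ⟨Q, hQ⟩ := hd
      rw [hQ]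
      simp
    have h5 : P.coeff a = 0 := by
      rw [h3] at h4
      simpa using h4
    rw [h3, h5]; simp

theorem RR_deg (m : ℕ) (T : ℕ → ℂ) : (RR m T).natDegree ≤ 2*m := by
  unfold RR
  refine natDegree_sum_le_of_forall_le _ _ fun s hs => ?_
  rw [Finset.mem_range] at hs
  have h1 : ((X - 1 : ℂ[X]) * (X - C q)).natDegree ≤ 2 := by
    have : (X - 1 : ℂ[X]) = X - C 1 := by simp
    rw [this]
    compute_degree
  have h2 : ((X : ℂ[X]) - C (q^2)).natDegree ≤ 1 := by compute_degree
  refine (natDegree_C_mul_le _ _).trans (natDegree_mul_le.trans ?_)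
  have h3 := (natDegree_pow_le (p := (X - 1 : ℂ[X]) * (X - C q)) (n := s)).trans
    (Nat.mul_le_mul_left s h1)
  have h4 := (natDegree_pow_le (p := (X : ℂ[X]) - C (q^2)) (n := 2*(m-s))).trans
    (Nat.mul_le_mul_left _ h2)
  omega

theorem RR_zero (m : ℕ) (T : ℕ → ℂ) (h : RR m T = 0) : ∀ s ≤ m, T s = 0 := by
  intro s
  induction s using Nat.strong_induction_on with
  | _ s ih =>
    intro hs
    have h1 : RR m T = ((X - 1) * (X - C q))^s * ∑ j ∈ Ico s (m+1),
        C (T j) * (((X - 1) * (X - C q))^(j-s) * (X - C (q^2))^(2*(m-j))) := by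
      unfold RR
      rw [← Finset.sum_range_add_sum_Ico _ (show s ≤ m+1 by omega), Finset.mul_sum]
      rw [Finset.sum_eq_zero, zero_add]
      · refine Finset.sum_congr rfl fun j hj => ?_
        rw [Finset.mem_Ico] at hj
        have : ((X - 1 : ℂ[X]) * (X - C q))^j = ((X - 1) * (X - C q))^s * ((X - 1) * (X - C q))^(j-s) := by
          rw [← pow_add]; congr 1; omega
        rw [this]; ring
      · intro j hj
        rw [Finset.mem_range] at hj
        rw [ih j hj (by omega), C_0, zero_mul]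
    rw [h] at h1
    have hne : ((X - 1 : ℂ[X]) * (X - C q))^s ≠ 0 := by
      apply pow_ne_zero
      apply mul_ne_zero
      · have := X_sub_C_ne_zero (1:ℂ)
        simpa using this
      · exact X_sub_C_ne_zero q
    have h2 := (mul_eq_zero.1 h1.symm).resolve_left hne
    have h3 := congrArg (Polynomial.eval 1) h2
    rw [eval_finsetSum, eval_zero, Finset.sum_eq_single s] at h3
    · rw [Nat.sub_self, pow_zero, one_mul] at h3
      simp only [eval_mul, eval_C, eval_pow, eval_sub, eval_X] at h3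
      rcases mul_eq_zero.1 h3 with h4 | h4
      · exact h4
      · exfalso
        have h5 : (1:ℂ) - q^2 = 0 := by
          by_contra h6
          exact pow_ne_zero _ h6 h4
        exact q_sq_ne_one (by linear_combination -h5)
    · intro j hj hjs
      rw [Finset.mem_Ico] at hj
      have : j - s ≠ 0 := by omega
      simp [this]
    · intro h4
      exact absurd (Finset.mem_Ico.2 ⟨le_rfl, by omega⟩) h4

/-- the polynomial `Φ` -/
noncomputable def Ph (m : ℕ) (T : ℕ → ℂ) : ℂ[X] := ((X - 1) * (X - C q))^(2*m+2) * RR m T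

theorem Ph_coeff_zero (m : ℕ) (T : ℕ → ℂ) (h0 : ∑ s ∈ range (m+1), T s = 0) :
    (Ph m T).coeff 0 = 0 := by
  rw [coeff_zero_eq_eval_zero]
  unfold Ph
  rw [eval_mul, RR_eval]
  have : ∑ s ∈ range (m+1), T s * (((0 - 1) * (0 - q))^s * (0 - q^2)^(2*(m-s))) =
      q^m * ∑ s ∈ range (m+1), T s := by
    rw [Finset.mul_sum]
    refine Finset.sum_congr rfl fun s hs => ?_
    rw [Finset.mem_range] at hs
    have e1 : ((0:ℂ) - 1) * (0 - q) = q := by ring
    have e2 : ((0:ℂ) - q^2)^(2*(m-s)) = q^(m-s) := by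
      rw [pow_mul]
      congr 1
      rw [show (0 - q^2)^2 = q^4 by ring, q4]
    have e3 : q^m = q^s * q^(m-s) := by rw [← pow_add]; congr 1; omega
    rw [e1, e2, e3]; ring
  rw [this, h0]; simp

theorem Ph_coeff_top (m : ℕ) (T : ℕ → ℂ) (h0 : ∑ s ∈ range (m+1), T s = 0) :
    (Ph m T).coeff (6*m+4) = 0 := by
  have h1 : Ph m T = ∑ s ∈ range (m+1), C (T s) * (((X - 1) * (X - C q))^(2*m+2) *
      (((X - 1) * (X - C q))^s * (X - C (q^2))^(2*(m-s)))) := by
    unfold Ph RR
    rw [Finset.mul_sum]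
    refine Finset.sum_congr rfl fun s _ => ?_
    ring
  rw [h1, finsetSum_coeff]
  rw [← h0]
  refine Finset.sum_congr rfl fun s hs => ?_
  rw [Finset.mem_range] at hs
  rw [coeff_C_mul]
  have m1 : ((X - 1 : ℂ[X]) * (X - C q)).Monic := by
    have : (X - 1 : ℂ[X]) = X - C 1 := by simp
    rw [this]
    exact (monic_X_sub_C 1).mul (monic_X_sub_C q)
  have d1 : ((X - 1 : ℂ[X]) * (X - C q)).natDegree = 2 := by
    have : (X - 1 : ℂ[X]) = X - C 1 := by simp
    rw [this, (monic_X_sub_C 1).natDegree_mul (monic_X_sub_C q), natDegree_X_sub_C,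
      natDegree_X_sub_C]
  have m2 : ((X : ℂ[X]) - C (q^2)).Monic := monic_X_sub_C _
  have hm : (((X - 1 : ℂ[X]) * (X - C q))^(2*m+2) *
      (((X - 1) * (X - C q))^s * (X - C (q^2))^(2*(m-s)))).Monic :=
    (m1.pow _).mul ((m1.pow _).mul (m2.pow _))
  have hdeg : (((X - 1 : ℂ[X]) * (X - C q))^(2*m+2) *
      (((X - 1) * (X - C q))^s * (X - C (q^2))^(2*(m-s)))).natDegree = 6*m+4 := by
    rw [(m1.pow _).natDegree_mul ((m1.pow _).mul (m2.pow _)), (m1.pow _).natDegree_mul (m2.pow _),
      m1.natDegree_pow, m1.natDegree_pow, m2.natDegree_pow, d1, natDegree_X_sub_C]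
    omega
  have : (((X - 1 : ℂ[X]) * (X - C q))^(2*m+2) *
      (((X - 1) * (X - C q))^s * (X - C (q^2))^(2*(m-s)))).coeff (6*m+4) = 1 := by
    have := hm.coeff_natDegree
    rwa [hdeg] at this
  rw [this, mul_one]

theorem Ph_deg (m : ℕ) (T : ℕ → ℂ) : (Ph m T).natDegree ≤ 6*m+4 := by
  unfold Ph
  have h1 : ((X - 1 : ℂ[X]) * (X - C q)).natDegree ≤ 2 := by
    have : (X - 1 : ℂ[X]) = X - C 1 := by simp
    rw [this]
    compute_degree
  have h3 := (natDegree_pow_le (p := (X - 1 : ℂ[X]) * (X - C q)) (n := 2*m+2)).trans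
    (Nat.mul_le_mul_left _ h1)
  have h4 := RR_deg m T
  refine natDegree_mul_le.trans ?_
  omega

theorem Ph_diff (m : ℕ) (T : ℕ → ℂ) :
    Ph m T - C q * (Ph m T).comp (C q * X) = (X - 1)^(2*m+2) * GG m T := by
  apply Polynomial.funext
  intro x
  unfold Ph GG
  simp only [eval_sub, eval_mul, eval_comp, eval_pow, eval_X, eval_C, eval_one]
  rw [RR_q]
  have e1 : (q * x - 1) * (q * x - q) = q^2 * ((x - q^2) * (x - 1)) := by
    linear_combination (q*(x-1)) * q_cube
  rw [e1, mul_pow (q^2), ← pow_mul]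
  have e2 : q^(2*(2*m+2)) * q^(2*m) = q := by
    rw [← pow_add, show 2*(2*m+2) + 2*m = 3*(2*m+1) + 1 by ring, pow_succ, q3k, one_mul]
  rw [mul_pow, mul_pow]
  linear_combination (-(q * ((x - q^2)^(2*m+2) * (x-1)^(2*m+2)) * (RT m T).eval x)) * e2

theorem q_pow_ne {k : ℕ} (h : k % 3 ≠ 0) : q^k ≠ 1 := by
  have h1 : q^k = q^(k%3) := by
    conv_lhs => rw [← Nat.div_add_mod k 3]
    rw [pow_add, q3k, one_mul]
  rw [h1]
  have : k % 3 = 1 ∨ k % 3 = 2 := by omega
  rcases this with h2 | h2
  · rw [h2, pow_one]; exact q_ne_one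
  · rw [h2]; exact q_sq_ne_one

/-- **uniqueness** -/
theorem GG_uniq (m : ℕ) (T : ℕ → ℂ) (hd : (X - 1)^(2*m) ∣ GG m T)
    (h0 : ∑ s ∈ range (m+1), T s = 0) : ∀ s ≤ m, T s = 0 := by
  classical
  set B := Ph m T - C q * (Ph m T).comp (C q * X) with hB
  have hBc : ∀ k, B.coeff k = (1 - q^(k+1)) * (Ph m T).coeff k := by
    intro k
    rw [hB, coeff_sub, coeff_C_mul, comp_C_mul_X_coeff]
    ring
  set S : Finset ℕ := (range (2*m+1)).image (fun j => 3*j+1) ∪ (range (2*m+1)).image (fun j => 3*j+3)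
    with hS
  have hcard : S.card ≤ 4*m+2 := by
    refine (Finset.card_union_le _ _).trans ?_
    have h1 := Finset.card_image_le (s := range (2*m+1)) (f := fun j => 3*j+1)
    have h2 := Finset.card_image_le (s := range (2*m+1)) (f := fun j => 3*j+3)
    rw [Finset.card_range] at h1 h2
    omega
  have hsup : B.support ⊆ S := by
    intro k hk
    rw [Polynomial.mem_support_iff, hBc] at hk
    have h1 : (Ph m T).coeff k ≠ 0 := right_ne_zero_of_mul hk
    have h2 : 1 - q^(k+1) ≠ 0 := left_ne_zero_of_mul hk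
    have h3 : k % 3 ≠ 2 := by
      intro h
      apply h2
      have : k + 1 = 3 * (k/3+1) := by omega
      rw [this, q3k, sub_self]
    have h4 : k ≠ 0 := by
      rintro rfl
      exact h1 (Ph_coeff_zero m T h0)
    have h5 : k ≠ 6*m+4 := by
      rintro rfl
      exact h1 (Ph_coeff_top m T h0)
    have h6 : k ≤ 6*m+4 := (le_natDegree_of_ne_zero h1).trans (Ph_deg m T)
    rw [hS, Finset.mem_union, Finset.mem_image, Finset.mem_image]
    have : k % 3 = 1 ∨ k % 3 = 0 := by omega
    rcases this with h7 | h7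
    · left
      exact ⟨k/3, Finset.mem_range.2 (by omega), by omega⟩
    · right
      exact ⟨k/3 - 1, Finset.mem_range.2 (by omega), by omega⟩
  have hdv : (X - 1)^(S.card) ∣ B := by
    rw [hB, Ph_diff]
    refine (pow_dvd_pow _ hcard).trans ?_
    have : (4*m+2) = (2*m+2) + 2*m := by ring
    rw [this, pow_add]
    exact mul_dvd_mul_left _ hd
  have hB0 := few S B hsup hdv
  rw [hB, Ph_diff] at hB0
  have hG : GG m T = 0 := by
    refine (mul_eq_zero.1 hB0).resolve_left (pow_ne_zero _ ?_)
    have := X_sub_C_ne_zero (1:ℂ)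
    simpa using this
  have h1 : (X - C (q^2))^(2*m+2) ∣ (X - C q)^(2*m+2) * RR m T := by
    unfold GG at hG
    rw [sub_eq_zero.1 hG]
    exact ⟨C (q^2) * RT m T, by ring⟩
  have cop : IsCoprime ((X - C (q^2))^(2*m+2)) ((X - C q)^(2*m+2)) := by
    apply IsCoprime.pow
    apply Polynomial.isCoprime_X_sub_C_of_isUnit_sub
    apply isUnit_iff_ne_zero.2
    intro h
    have : q * (q - 1) = 0 := by linear_combination h
    rcases mul_eq_zero.1 this with h2 | h2
    · exact q_ne_zero h2
    · exact q_ne_one (sub_eq_zero.1 h2)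
  have h2 := cop.dvd_of_dvd_mul_left h1
  apply RR_zero m T
  by_contra hne
  have h3 := natDegree_le_of_dvd h2 hne
  rw [(monic_X_sub_C (q^2)).natDegree_pow, natDegree_X_sub_C] at h3
  have := RR_deg m T
  omega

end Pool.Agent.Zk36.NV
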